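import Mathlib

/-! # LL.Geo : the scales `n_j = ⌊exp (q^j)⌋` (real numbers only), about 100 lines

`nj q j = ⌊exp (q^j)⌋₊`, `q > 1`. `nj ≥ 2` (as `exp 1 > 2`), `log (nj q j) ≤ q^j` and `≥ q^j - 1` (`⌊y⌋ ≥ y / 2` for `y ≥ 1`, `log 2 < 1`), `nj` tends to infinity.
`nj_cover`: for `n ≥ nj q 0` let `j` be the largest index with `nj q j ≤ n` (`Nat.findGreatest` or well-founded minimum of `{j | n < nj q (j+1)}`, nonempty as `nj → ∞`); the index tends to infinity with `n`: for every `J` the condition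
`nj q (J+1) ≤ n` forces `j ≥ J` when `j` is the smallest index with `n < nj q (j+1)`. `nj_mono`: monotone.
`summ`: `∑ (C * (log (nj q j))^(-p))` is summable for `p > 0`: `log (nj q j) ≥ q^j - 1 ≥ (1 - 1/q) q^j` for `j ≥ 1`, geometric series. -/

set_option autoImplicit false

namespace H13.LL

open Filter Topology

/-- the scales -/
noncomputable def nj (q : ℝ) (j : ℕ) : ℕ := ⌊Real.exp (q ^ j)⌋₊

private theorem two_le_exp {q : ℝ} (hq : 1 < q) (j : ℕ) : 2 ≤ Real.exp (q ^ j) := by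
  have h1 : (1 : ℝ) ≤ q ^ j := one_le_pow₀ hq.le
  have h2 := Real.add_one_le_exp (q ^ j)
  linarith

theorem two_le_nj {q : ℝ} (hq : 1 < q) (j : ℕ) : 2 ≤ nj q j := by
  unfold nj
  exact Nat.le_floor (by exact_mod_cast two_le_exp hq j)

private theorem nj_pos {q : ℝ} (hq : 1 < q) (j : ℕ) : (0 : ℝ) < nj q j := by
  have h := two_le_nj hq j
  have : 0 < nj q j := by omega
  exact_mod_cast this

theorem log_nj_le {q : ℝ} (hq : 1 < q) (j : ℕ) : Real.log (nj q j) ≤ q ^ j := by
  have h1 : ((nj q j : ℕ) : ℝ) ≤ Real.exp (q ^ j) := Nat.floor_le (Real.exp_pos _).le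
  calc Real.log (nj q j) ≤ Real.log (Real.exp (q ^ j)) := Real.log_le_log (nj_pos hq j) h1
    _ = q ^ j := Real.log_exp _

theorem le_log_nj {q : ℝ} (hq : 1 < q) (j : ℕ) : q ^ j - 1 ≤ Real.log (nj q j) := by
  have h1 : Real.exp (q ^ j) < (nj q j : ℕ) + 1 := Nat.lt_floor_add_one _
  have h2 := two_le_exp hq j
  have h3 : Real.exp (q ^ j) / 2 ≤ (nj q j : ℕ) := by linarith
  have h4 : Real.log (Real.exp (q ^ j) / 2) = q ^ j - Real.log 2 := by
    rw [Real.log_div (Real.exp_pos _).ne' (by norm_num), Real.log_exp]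
  have h5 : Real.log (Real.exp (q ^ j) / 2) ≤ Real.log (nj q j) :=
    Real.log_le_log (by positivity) h3
  have h6 := Real.log_two_lt_d9
  linarith

theorem tendsto_nj {q : ℝ} (hq : 1 < q) : Tendsto (nj q) atTop atTop :=
  tendsto_nat_floor_atTop.comp
    (Real.tendsto_exp_atTop.comp (tendsto_pow_atTop_atTop_of_one_lt hq))

theorem nj_mono {q : ℝ} (hq : 1 < q) : Monotone (nj q) := by
  intro i j hij
  exact Nat.floor_mono (Real.exp_le_exp.2 (pow_le_pow_right₀ hq.le hij))

theorem nj_cover {q : ℝ} (hq : 1 < q) {p : ℕ → Prop} (hp : ∀ᶠ j in atTop, p j) :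
    ∀ᶠ n in atTop, ∃ j, p j ∧ nj q j ≤ n ∧ n ≤ nj q (j + 1) := by
  classical
  obtain ⟨J, hJ⟩ := eventually_atTop.1 hp
  filter_upwards [eventually_ge_atTop (nj q J)] with n hn
  have hex : ∃ j, n < nj q (j + 1) := by
    have h1 := ((tendsto_nj hq).comp (tendsto_add_atTop_nat 1)).eventually_gt_atTop n
    exact h1.exists
  have hf := Nat.find_spec hex
  have hmin : ∀ i, i < Nat.find hex → nj q (i + 1) ≤ n := fun i hi => not_lt.1 (Nat.find_min hex hi)
  have hge : J ≤ Nat.find hex := by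
    by_contra hlt
    push Not at hlt
    have h2 : nj q (Nat.find hex + 1) ≤ nj q J := nj_mono hq hlt
    exact absurd (h2.trans hn) (not_le.2 hf)
  refine ⟨Nat.find hex, hJ _ hge, ?_, hf.le⟩
  rcases hge.eq_or_lt with h | h
  · rw [← h]; exact hn
  · have h3 := hmin (Nat.find hex - 1) (by omega)
    rwa [Nat.sub_add_cancel (by omega)] at h3

theorem summ {q : ℝ} (hq : 1 < q) (C : ℝ) {p : ℝ} (hp : 0 < p) :
    Summable fun j : ℕ => C * (Real.log (nj q j)) ^ (-p) := by
  refine Summable.mul_left C ?_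
  rw [← summable_nat_add_iff 1]
  have hq0 : 0 < q := by linarith
  have hc : 0 < 1 - 1 / q := by
    have : 1 / q < 1 := by rw [div_lt_one hq0]; exact hq
    linarith
  have hr0 : 0 ≤ q ^ (-p) := Real.rpow_nonneg hq0.le _
  have hr1 : q ^ (-p) < 1 := Real.rpow_lt_one_of_one_lt_of_neg hq (by linarith)
  have hg : Summable fun j : ℕ => (1 - 1 / q) ^ (-p) * (q ^ (-p) * (q ^ (-p)) ^ j) :=
    ((summable_geometric_of_lt_one hr0 hr1).mul_left _).mul_left _
  refine Summable.of_nonneg_of_le (fun j => ?_) (fun j => ?_) hg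
  · refine Real.rpow_nonneg (Real.log_nonneg ?_) _
    have h := two_le_nj hq (j + 1)
    have : 1 ≤ nj q (j + 1) := by omega
    exact_mod_cast this
  · have h1 := le_log_nj hq (j + 1)
    have h2 : (1 : ℝ) ≤ q ^ j := one_le_pow₀ hq.le
    have h3 : (1 - 1 / q) * q ^ (j + 1) ≤ Real.log (nj q (j + 1)) := by
      have h4 : (1 - 1 / q) * q ^ (j + 1) = q ^ (j + 1) - q ^ j := by
        rw [pow_succ]
        field_simp
      rw [h4]
      linarith
    have h5 : 0 < (1 - 1 / q) * q ^ (j + 1) := by positivity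
    calc Real.log (nj q (j + 1)) ^ (-p) ≤ ((1 - 1 / q) * q ^ (j + 1)) ^ (-p) :=
          Real.rpow_le_rpow_of_nonpos h5 h3 (by linarith)
      _ = (1 - 1 / q) ^ (-p) * (q ^ (-p) * (q ^ (-p)) ^ j) := by
          rw [Real.mul_rpow hc.le (by positivity)]
          congr 1
          rw [← Real.rpow_natCast q (j + 1), ← Real.rpow_mul hq0.le, ← Real.rpow_natCast (q ^ (-p)) j,
            ← Real.rpow_mul hq0.le, ← Real.rpow_add hq0]
          congr 1
          push_cast
          ring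

end H13.LL
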