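import Pool.Agent.H13.LL.Fejer
import Pool.Agent.H13.LL.Geo

/-! # LL.Blk : from Fejer means to an almost sure lower bound, about 90 lines

If `T' < 0`, or `T' = 0`: `Mx ≥ 0` (for `T' ≤ 0`, `log n ≥ 0`). Otherwise `0 < T' < T`: choose `q > 1` with `T / q > T'` (for instance `q` with `q T' < T`). By `summ` and Borel-Cantelli (`ae_eventually_notMem`) almost surely for all large `j`
`Fx (nj q j) > T log (nj q j)`. For `nj q j ≤ n ≤ nj q (j+1)` (`nj_cover`): `Mx n ≥ Fx (nj q j)` (`Fx_le_Mx`) `≥ T log (nj q j) ≥ T (q^j - 1) ≥ T (log n / q - 1)` (`log n ≤ log (nj q (j+1)) ≤ q^(j+1)`) `≥ T' log n` for large `n`. -/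

set_option autoImplicit false

namespace H13.LL

open MeasureTheory ProbabilityTheory Filter Topology

variable {Ω : Type*} [MeasurableSpace Ω] {P : Measure Ω} [IsProbabilityMeasure P] {ξ : ℕ → Ω → ℝ}

theorem block {T T' C p : ℝ} (hT : T' < T) (hp : 0 < p)
    (h : ∀ᶠ m : ℕ in atTop, P.real {ω | Fx m (fun i => ξ i ω) ≤ T * Real.log m} ≤ C * (Real.log m) ^ (-p)) :
    ∀ᵐ ω ∂P, ∀ᶠ n : ℕ in atTop, T' * Real.log n ≤ Mx n (fun i => ξ i ω) := by
  rcases le_or_gt T' 0 with h0 | h0
  · filter_upwards with ω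
    filter_upwards with n
    have h1 : 0 ≤ Real.log (n : ℝ) := Real.log_natCast_nonneg n
    exact (mul_nonpos_of_nonpos_of_nonneg h0 h1).trans (Mx_nonneg n _)
  have hT0 : 0 < T := h0.trans hT
  have hr : 1 < T / T' := (one_lt_div h0).2 hT
  obtain ⟨q, hq, hq2⟩ : ∃ q : ℝ, 1 < q ∧ q < T / T' := exists_between hr
  have hq0 : 0 < q := by linarith
  have hqT : T' < T / q := by
    rw [lt_div_iff₀ hq0]
    rw [lt_div_iff₀ h0] at hq2
    linarith
  have hsum : Summable fun j : ℕ => P.real {ω | Fx (nj q j) (fun i => ξ i ω) ≤ T * Real.log (nj q j)} := by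
    refine Summable.of_norm_bounded_eventually_nat (summ hq C hp) ?_
    filter_upwards [(tendsto_nj hq).eventually h] with j hj
    rw [Real.norm_of_nonneg measureReal_nonneg]
    exact hj
  have hne : ∑' j : ℕ, P {ω | Fx (nj q j) (fun i => ξ i ω) ≤ T * Real.log (nj q j)} ≠ ⊤ := by
    have h1 : ∀ j : ℕ, P {ω | Fx (nj q j) (fun i => ξ i ω) ≤ T * Real.log (nj q j)} =
        ENNReal.ofReal (P.real {ω | Fx (nj q j) (fun i => ξ i ω) ≤ T * Real.log (nj q j)}) :=
      fun j => (ofReal_measureReal).symm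
    simp_rw [h1]
    exact hsum.tsum_ofReal_ne_top
  filter_upwards [ae_eventually_notMem hne] with ω hω
  have hlog : Tendsto (fun n : ℕ => Real.log (n : ℝ)) atTop atTop :=
    Real.tendsto_log_atTop.comp tendsto_natCast_atTop_atTop
  filter_upwards [nj_cover hq hω, hlog.eventually_ge_atTop (T / (T / q - T'))] with n hn hn2
  obtain ⟨j, hj, hj1, hj2⟩ := hn
  have h2 : 2 ≤ nj q j := two_le_nj hq j
  have h3 : T * Real.log (nj q j) < Fx (nj q j) (fun i => ξ i ω) := not_le.1 hj
  have h4 : Fx (nj q j) (fun i => ξ i ω) ≤ Mx n (fun i => ξ i ω) := Fx_le_Mx (by omega) hj1 _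
  have h5 : q ^ j - 1 ≤ Real.log (nj q j) := le_log_nj hq j
  have h6 : Real.log n ≤ q ^ (j + 1) := by
    refine le_trans ?_ (log_nj_le hq (j + 1))
    refine Real.log_le_log ?_ (by exact_mod_cast hj2)
    have : 0 < n := by omega
    exact_mod_cast this
  have h7 : Real.log n / q ≤ q ^ j := by
    rw [div_le_iff₀ hq0, ← pow_succ]
    exact h6
  have h8 : 0 < T / q - T' := by linarith
  have h9 : T ≤ Real.log n * (T / q - T') := by
    rwa [div_le_iff₀ h8] at hn2
  have h10 : T * (Real.log n / q - 1) ≤ T * Real.log (nj q j) :=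
    mul_le_mul_of_nonneg_left (by linarith) hT0.le
  have h11 : T * (Real.log n / q - 1) = Real.log n * (T / q) - T := by ring
  rw [mul_sub] at h9
  have h12 : T' * Real.log n = Real.log n * T' := mul_comm _ _
  linarith

end H13.LL
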