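import Pool.Agent.H13.LL.ExpM
import Pool.Agent.H38.LC.Disc

/-! # LL.Crude : a crude upper bound for centred variables with variance at most `τ²`, about 150 lines

`Mx n η ≤ nrm n (tr τ i (η i)) + ∑_{i<n} |wt i η i - tr τ i (η i)|` (`nrm_add_le`, `nrm_le_sum`). Second term: Markov and `removed`: `P (· ≥ τ log n) ≤ 2 / log n → 0`.
First term: `Pool.Agent.H38.LC.disc` with `δ = 1/2`, `N = 10 n`, `J = 14`, `S = Finset.Ioc 0 n`, `a k = tr τ (k-1) (η (k-1) ω)`: if `R a S (grid N j) (dir J l) ≤ (5/2) τ log n` for all `j < N`, `l ≤ J`, then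
the norm is `≤ 4 (5/2) τ log n = 10 τ log n < 12 τ log n` (`R a S θ φ = ∑_{k ∈ S} a k cos (k θ - φ)`; conversion between `Ioc 0 n` and `range n` as in `randPoly_eq` of
`Pool/Agent/Results/MP_fb643f_pr/LawOfLargeNumbers.lean`). For every grid point `P (R > (5/2) τ log n) ≤ exp (-(5/2) log n) exp (3 + log n)` by Markov for `exp (R / τ)` (`exp_tr` with `c i = cos ((i+1) θ - φ)`).
Union: `≤ 150 n e³ n^(-3/2) = 150 e³ / √n → 0`. -/

set_option autoImplicit false

namespace H13.LL

open MeasureTheory ProbabilityTheory Filter Topology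

variable {Ω : Type*} [MeasurableSpace Ω] {P : Measure Ω} [IsProbabilityMeasure P] {η : ℕ → Ω → ℝ}

private theorem sum_Ioc_eq {M : Type*} [AddCommMonoid M] (n : ℕ) (f : ℕ → M) :
    ∑ k ∈ Finset.Ioc 0 n, f k = ∑ i ∈ Finset.range n, f (i + 1) := by
  have h1 : Finset.Ioc 0 n = (Finset.range n).image (fun i => i + 1) := by
    ext k
    simp only [Finset.mem_Ioc, Finset.mem_image, Finset.mem_range]
    constructor
    · intro h; exact ⟨k - 1, by omega, by omega⟩
    · rintro ⟨i, hi, rfl⟩; omega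
  rw [h1, Finset.sum_image (fun x _ y _ h => by omega)]

/-- the discretised bound -/
private theorem nrm_le_grid {n : ℕ} (hn : 1 ≤ n) (a : ℕ → ℝ) {A : ℝ}
    (h : ∀ j < 10 * n, ∀ l ≤ 14, ∑ i ∈ Finset.range n, Real.cos (((i + 1 : ℕ) : ℝ) *
      Pool.Agent.H38.LC.grid (10 * n) j - Pool.Agent.H38.LC.dir 14 l) * a i ≤ A) :
    nrm n a ≤ 4 * A := by
  refine nrm_le fun z hz => ?_
  have h1 := Pool.Agent.H38.LC.disc (fun k => a (k - 1)) (Finset.Ioc 0 n) n hn
    (fun k hk => (Finset.mem_Ioc.1 hk).2) (1 / 2) (by norm_num) (by norm_num) (10 * n) 14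
    (by push_cast; linarith) (by norm_num) A (by
      intro j hj l hl
      refine le_trans (le_of_eq ?_) (h j hj l hl)
      unfold Pool.Agent.H38.LC.R
      rw [sum_Ioc_eq]
      refine Finset.sum_congr rfl fun i _ => ?_
      exact mul_comm _ _) z hz
  have e1 : Pool.Agent.H38.LC.pol (fun k => ((a (k - 1) : ℝ) : ℂ)) (Finset.Ioc 0 n) z = pol n a z := by
    unfold Pool.Agent.H38.LC.pol pol
    rw [sum_Ioc_eq]
    exact Finset.sum_congr rfl fun i _ => rfl
  rw [e1] at h1
  refine h1.trans (le_of_eq ?_)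
  norm_num
  ring

/-- the probability at one grid point -/
private theorem point_le (h : Sq P η) {τ : ℝ} (hτ : 0 < τ) (hv : ∫ ω, η 0 ω ^ 2 ∂P ≤ τ ^ 2) (n : ℕ)
    (hn : 1 ≤ n) (c : ℕ → ℝ) (hc : ∀ i, |c i| ≤ 1) :
    P.real {ω | (5 / 2) * τ * Real.log n < ∑ i ∈ Finset.range n, c i * tr τ i (η i ω)} ≤
      Real.exp (3 - (3 / 2) * Real.log n) := by
  obtain ⟨hi, hle⟩ := exp_tr h hτ hv n hn c hc
  have h1 := mul_meas_ge_le_integral_of_nonneg
    (μ := P) (f := fun ω => Real.exp (∑ i ∈ Finset.range n, c i * (tr τ i (η i ω) / τ)))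
    (Eventually.of_forall fun ω => (Real.exp_pos _).le) hi (Real.exp ((5 / 2) * Real.log n))
  have h2 : P.real {ω | (5 / 2) * τ * Real.log n < ∑ i ∈ Finset.range n, c i * tr τ i (η i ω)} ≤
      P.real {ω | Real.exp ((5 / 2) * Real.log n) ≤
        Real.exp (∑ i ∈ Finset.range n, c i * (tr τ i (η i ω) / τ))} := by
    refine measureReal_mono ?_
    intro ω hω
    simp only [Set.mem_ofPred_eq] at hω ⊢
    rw [Real.exp_le_exp]
    have e1 : ∑ i ∈ Finset.range n, c i * (tr τ i (η i ω) / τ) =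
        (∑ i ∈ Finset.range n, c i * tr τ i (η i ω)) / τ := by
      rw [Finset.sum_div]
      exact Finset.sum_congr rfl fun i _ => by ring
    rw [e1, le_div_iff₀ hτ]
    linarith
  have h3 : Real.exp ((5 / 2) * Real.log n) *
      P.real {ω | (5 / 2) * τ * Real.log n < ∑ i ∈ Finset.range n, c i * tr τ i (η i ω)} ≤
      Real.exp (3 + Real.log n) :=
    (mul_le_mul_of_nonneg_left h2 (Real.exp_pos _).le).trans (h1.trans hle)
  have e2 : Real.exp (3 + Real.log n) = Real.exp ((5 / 2) * Real.log n) *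
      Real.exp (3 - (3 / 2) * Real.log n) := by
    rw [← Real.exp_add]
    congr 1
    ring
  rw [e2] at h3
  exact le_of_mul_le_mul_left h3 (Real.exp_pos _)

theorem crude (h : Sq P η) {τ : ℝ} (hτ : 0 < τ) (hv : ∫ ω, η 0 ω ^ 2 ∂P ≤ τ ^ 2) :
    Tendsto (fun n : ℕ => P.real {ω | 13 * τ * Real.log n ≤ Mx n (fun i => η i ω)}) atTop (𝓝 0) := by
  have hlog : Tendsto (fun n : ℕ => Real.log (n : ℝ)) atTop atTop :=
    Real.tendsto_log_atTop.comp tendsto_natCast_atTop_atTop
  have hl1 : Tendsto (fun n : ℕ => 2 / Real.log (n : ℝ)) atTop (𝓝 0) :=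
    tendsto_const_nhds.div_atTop hlog
  have hl2 : Tendsto (fun n : ℕ => 150 * Real.exp 3 / √(n : ℝ)) atTop (𝓝 0) :=
    tendsto_const_nhds.div_atTop (Real.tendsto_sqrt_atTop.comp tendsto_natCast_atTop_atTop)
  have hl := hl1.add hl2
  rw [add_zero] at hl
  refine squeeze_zero' (Eventually.of_forall fun n => measureReal_nonneg) ?_ hl
  filter_upwards [eventually_ge_atTop 2] with n hn
  have hnr : (2 : ℝ) ≤ n := by exact_mod_cast hn
  have hn1 : 1 ≤ n := by omega
  have hL : 0 < Real.log (n : ℝ) := Real.log_pos (by linarith)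
  set E1 : Set Ω := {ω | τ * Real.log n ≤ ∑ i ∈ Finset.range n, |wt i * η i ω - tr τ i (η i ω)|} with hE1
  set c : ℕ → ℕ → ℕ → ℝ := fun j l i => Real.cos (((i + 1 : ℕ) : ℝ) *
      Pool.Agent.H38.LC.grid (10 * n) j - Pool.Agent.H38.LC.dir 14 l) with hc
  set E2 : ℕ → ℕ → Set Ω := fun j l => {ω | (5 / 2) * τ * Real.log n <
      ∑ i ∈ Finset.range n, c j l i * tr τ i (η i ω)} with hE2
  have hsub : {ω | 13 * τ * Real.log n ≤ Mx n (fun i => η i ω)} ⊆
      E1 ∪ ⋃ j ∈ Finset.range (10 * n), ⋃ l ∈ Finset.range 15, E2 j l := by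
    intro ω hω
    by_contra hcon
    rw [Set.mem_union, not_or] at hcon
    obtain ⟨hc1, hc2⟩ := hcon
    simp only [Set.mem_iUnion, not_exists, Finset.mem_range] at hc2
    have hω' : 13 * τ * Real.log n ≤ Mx n (fun i => η i ω) := hω
    have hc1' : ∑ i ∈ Finset.range n, |wt i * η i ω - tr τ i (η i ω)| < τ * Real.log n := by
      by_contra hcon
      exact hc1 (not_lt.1 hcon)
    have h1 : nrm n (fun i => tr τ i (η i ω)) ≤ 4 * ((5 / 2) * τ * Real.log n) := by
      refine nrm_le_grid hn1 _ ?_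
      intro j hj l hl
      by_contra hcon
      exact hc2 j hj l (by omega) (not_le.1 hcon)
    have h2 : Mx n (fun i => η i ω) ≤ nrm n (fun i => tr τ i (η i ω)) +
        nrm n (fun i => wt i * η i ω - tr τ i (η i ω)) := by
      have h3 := nrm_add_le n (fun i => tr τ i (η i ω)) (fun i => wt i * η i ω - tr τ i (η i ω))
      have e1 : (fun i => tr τ i (η i ω) + (wt i * η i ω - tr τ i (η i ω))) = fun i => wt i * η i ω := by
        funext i; ring
      rw [e1] at h3
      exact h3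
    have h3 : nrm n (fun i => wt i * η i ω - tr τ i (η i ω)) ≤
        ∑ i ∈ Finset.range n, |wt i * η i ω - tr τ i (η i ω)| := nrm_le_sum n _
    have h4 : 0 < τ * Real.log n := by positivity
    nlinarith
  have hb1 : P.real E1 ≤ 2 / Real.log n := by
    obtain ⟨hi, hle⟩ := removed h hτ hv n
    have h1 := mul_meas_ge_le_integral_of_nonneg (μ := P)
      (f := fun ω => ∑ i ∈ Finset.range n, |wt i * η i ω - tr τ i (η i ω)|)
      (Eventually.of_forall fun ω => Finset.sum_nonneg fun i _ => abs_nonneg _) hi (τ * Real.log n)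
    rw [le_div_iff₀ hL]
    have h2 : τ * (P.real E1 * Real.log n) ≤ τ * 2 := by
      calc τ * (P.real E1 * Real.log n) = τ * Real.log n * P.real E1 := by ring
        _ ≤ 2 * τ := h1.trans hle
        _ = τ * 2 := by ring
    exact le_of_mul_le_mul_left h2 hτ
  have hb2 : ∀ j l : ℕ, P.real (E2 j l) ≤ Real.exp (3 - (3 / 2) * Real.log n) := fun j l =>
    point_le h hτ hv n hn1 (c j l) fun i => Real.abs_cos_le_one _
  have hb3 : P.real (⋃ j ∈ Finset.range (10 * n), ⋃ l ∈ Finset.range 15, E2 j l) ≤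
      150 * Real.exp 3 / √(n : ℝ) := by
    calc P.real (⋃ j ∈ Finset.range (10 * n), ⋃ l ∈ Finset.range 15, E2 j l)
        ≤ ∑ j ∈ Finset.range (10 * n), P.real (⋃ l ∈ Finset.range 15, E2 j l) :=
          measureReal_biUnion_finset_le _ _
      _ ≤ ∑ j ∈ Finset.range (10 * n), ∑ l ∈ Finset.range 15, P.real (E2 j l) :=
          Finset.sum_le_sum fun j _ => measureReal_biUnion_finset_le _ _
      _ ≤ ∑ j ∈ Finset.range (10 * n), ∑ l ∈ Finset.range 15, Real.exp (3 - (3 / 2) * Real.log n) :=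
          Finset.sum_le_sum fun j _ => Finset.sum_le_sum fun l _ => hb2 j l
      _ = 150 * (n * Real.exp (3 - (3 / 2) * Real.log n)) := by
          simp only [Finset.sum_const, Finset.card_range, nsmul_eq_mul]
          push_cast
          ring
      _ = 150 * Real.exp 3 / √(n : ℝ) := by
          have hn0 : (0 : ℝ) < n := by linarith
          have e1 : √(n : ℝ) = Real.exp (Real.log n / 2) := by
            rw [Real.exp_half, Real.exp_log hn0]
          have e2 : (n : ℝ) * Real.exp (3 - (3 / 2) * Real.log n) =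
              Real.exp 3 / Real.exp (Real.log n / 2) := by
            rw [← Real.exp_sub]
            nth_rewrite 1 [← Real.exp_log hn0]
            rw [← Real.exp_add]
            congr 1
            ring
          rw [e1, e2]
          ring
  calc P.real {ω | 13 * τ * Real.log n ≤ Mx n (fun i => η i ω)}
      ≤ P.real (E1 ∪ ⋃ j ∈ Finset.range (10 * n), ⋃ l ∈ Finset.range 15, E2 j l) :=
        measureReal_mono hsub
    _ ≤ P.real E1 + P.real (⋃ j ∈ Finset.range (10 * n), ⋃ l ∈ Finset.range 15, E2 j l) :=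
        measureReal_union_le _ _
    _ ≤ 2 / Real.log n + 150 * Real.exp 3 / √(n : ℝ) := add_le_add hb1 hb3

end H13.LL
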