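import Mathlib

/-! # LL.Defs : the sup norm on the circle of a real polynomial without constant term, and basic facts

`pol n a z = ∑_{i<n} a i z^(i+1)`, `nrm n a` its maximum modulus on the unit circle, `wt i = 1 / √(i+1)`,
`Mx n x = nrm n (wt x)` (this is `M_n` for the coefficients `x`), `Fx m x` the sup norm of the Fejer mean of order `m`. -/

set_option autoImplicit false

namespace H13.LL

open MeasureTheory ProbabilityTheory Filter Topology

/-- the polynomial with coefficients `a i` at `z ^ (i + 1)`, `i < n` -/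
noncomputable def pol (n : ℕ) (a : ℕ → ℝ) (z : ℂ) : ℂ :=
  ∑ i ∈ Finset.range n, (a i : ℂ) * z ^ (i + 1)

/-- its maximum modulus on the unit circle -/
noncomputable def nrm (n : ℕ) (a : ℕ → ℝ) : ℝ := ⨆ z : Metric.sphere (0 : ℂ) 1, ‖pol n a z‖

/-- the weights `1 / √k`, `k = i + 1` -/
noncomputable def wt (i : ℕ) : ℝ := 1 / √((i : ℝ) + 1)

/-- the maximum `M_n` for the coefficients `x` -/
noncomputable def Mx (n : ℕ) (x : ℕ → ℝ) : ℝ := nrm n (fun i => wt i * x i)

/-- the sup norm of the Fejer mean of order `m` for the coefficients `x` -/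
noncomputable def Fx (m : ℕ) (x : ℕ → ℝ) : ℝ :=
  nrm m (fun i => (1 - ((i : ℝ) + 1) / m) * (wt i * x i))

/-- harmonic sums -/
noncomputable def Hs (n : ℕ) : ℝ := ∑ i ∈ Finset.range n, 1 / ((i : ℝ) + 1)

/-- an independent identically distributed sequence of real random variables -/
structure IID {Ω : Type*} [MeasurableSpace Ω] (P : Measure Ω) (ξ : ℕ → Ω → ℝ) : Prop where
  meas : ∀ k, Measurable (ξ k)
  ind : iIndepFun ξ P
  idd : ∀ k, IdentDistrib (ξ k) (ξ 0) P P

/-- centred with finite variance -/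
structure Sq {Ω : Type*} [MeasurableSpace Ω] (P : Measure Ω) (ξ : ℕ → Ω → ℝ) : Prop extends IID P ξ where
  mem : MemLp (ξ 0) 2 P
  mean : ∫ ω, ξ 0 ω ∂P = 0

/-- the root mean square -/
noncomputable def sd {Ω : Type*} [MeasurableSpace Ω] (P : Measure Ω) (ξ : ℕ → Ω → ℝ) : ℝ :=
  √(∫ ω, ξ 0 ω ^ 2 ∂P)

/-! ### the norm -/

theorem norm_pol_le_sum (n : ℕ) (a : ℕ → ℝ) {z : ℂ} (hz : ‖z‖ = 1) :
    ‖pol n a z‖ ≤ ∑ i ∈ Finset.range n, |a i| := by
  refine (norm_sum_le _ _).trans (Finset.sum_le_sum fun i _ => ?_)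
  rw [norm_mul, norm_pow, hz, one_pow, mul_one, Complex.norm_real, Real.norm_eq_abs]

theorem bddAbove_pol (n : ℕ) (a : ℕ → ℝ) :
    BddAbove (Set.range fun z : Metric.sphere (0 : ℂ) 1 => ‖pol n a z‖) := by
  refine ⟨∑ i ∈ Finset.range n, |a i|, ?_⟩
  rintro _ ⟨z, rfl⟩
  exact norm_pol_le_sum n a (by simp)

theorem norm_pol_le (n : ℕ) (a : ℕ → ℝ) {z : ℂ} (hz : ‖z‖ = 1) : ‖pol n a z‖ ≤ nrm n a :=
  le_ciSup (bddAbove_pol n a) (⟨z, by simpa using hz⟩ : Metric.sphere (0 : ℂ) 1)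

instance : Nonempty (Metric.sphere (0 : ℂ) 1) := ⟨⟨1, by simp⟩⟩

theorem nrm_le {n : ℕ} {a : ℕ → ℝ} {A : ℝ} (h : ∀ z : ℂ, ‖z‖ = 1 → ‖pol n a z‖ ≤ A) : nrm n a ≤ A :=
  ciSup_le fun z => h z (by simp)

theorem nrm_nonneg (n : ℕ) (a : ℕ → ℝ) : 0 ≤ nrm n a :=
  (norm_nonneg _).trans (norm_pol_le n a (z := 1) (by simp))

theorem nrm_le_sum (n : ℕ) (a : ℕ → ℝ) : nrm n a ≤ ∑ i ∈ Finset.range n, |a i| :=
  nrm_le fun _ hz => norm_pol_le_sum n a hz

theorem nrm_congr {n : ℕ} {a b : ℕ → ℝ} (h : ∀ i < n, a i = b i) : nrm n a = nrm n b := by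
  have : pol n a = pol n b := by
    funext z
    exact Finset.sum_congr rfl fun i hi => by rw [h i (Finset.mem_range.1 hi)]
  unfold nrm
  rw [this]

theorem nrm_add_le (n : ℕ) (a b : ℕ → ℝ) : nrm n (fun i => a i + b i) ≤ nrm n a + nrm n b := by
  apply nrm_le
  intro z hz
  have : pol n (fun i => a i + b i) z = pol n a z + pol n b z := by
    unfold pol
    rw [← Finset.sum_add_distrib]
    refine Finset.sum_congr rfl fun i _ => ?_
    push_cast
    ring
  rw [this]
  exact (norm_add_le _ _).trans (add_le_add (norm_pol_le n a hz) (norm_pol_le n b hz))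

theorem nrm_smul (n : ℕ) (c : ℝ) (a : ℕ → ℝ) : nrm n (fun i => c * a i) = |c| * nrm n a := by
  have : ∀ z : ℂ, ‖pol n (fun i => c * a i) z‖ = |c| * ‖pol n a z‖ := by
    intro z
    have e : pol n (fun i => c * a i) z = (c : ℂ) * pol n a z := by
      unfold pol
      rw [Finset.mul_sum]
      refine Finset.sum_congr rfl fun i _ => ?_
      push_cast
      ring
    rw [e, norm_mul, Complex.norm_real, Real.norm_eq_abs]
  unfold nrm
  simp_rw [this]
  exact (Real.mul_iSup_of_nonneg (abs_nonneg c) _).symm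

theorem nrm_neg (n : ℕ) (a : ℕ → ℝ) : nrm n (fun i => -a i) = nrm n a := by
  have := nrm_smul n (-1) a
  simpa using this

theorem nrm_zero (n : ℕ) : nrm n (fun _ => 0) = 0 :=
  le_antisymm ((nrm_le_sum n _).trans (by simp)) (nrm_nonneg _ _)

theorem nrm_sub_le (n : ℕ) (a b : ℕ → ℝ) : nrm n (fun i => a i - b i) ≤ nrm n a + nrm n b := by
  have h := nrm_add_le n a (fun i => -b i)
  rw [nrm_neg] at h
  exact h

theorem abs_nrm_sub_le (n : ℕ) (a b : ℕ → ℝ) : |nrm n a - nrm n b| ≤ nrm n (fun i => a i - b i) := by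
  rw [abs_le]
  constructor
  · have h := nrm_add_le n a (fun i => b i - a i)
    have e1 : (fun i => a i + (b i - a i)) = b := by funext i; ring
    have e2 : nrm n (fun i => b i - a i) = nrm n (fun i => a i - b i) := by
      rw [← nrm_neg]
      congr 1
      funext i
      ring
    rw [e1, e2] at h
    linarith
  · have h := nrm_add_le n b (fun i => a i - b i)
    have e1 : (fun i => b i + (a i - b i)) = a := by funext i; ring
    rw [e1] at h
    linarith

theorem abs_nrm_sub_le_sum (n : ℕ) (a b : ℕ → ℝ) :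
    |nrm n a - nrm n b| ≤ ∑ i ∈ Finset.range n, |a i - b i| :=
  (abs_nrm_sub_le n a b).trans (nrm_le_sum n _)

theorem continuous_nrm (n : ℕ) : Continuous (nrm n) := by
  rw [continuous_iff_continuousAt]
  intro a
  have h1 : Tendsto (fun b : ℕ → ℝ => ∑ i ∈ Finset.range n, |b i - a i|) (𝓝 a) (𝓝 0) := by
    have h2 : Continuous (fun b : ℕ → ℝ => ∑ i ∈ Finset.range n, |b i - a i|) := by fun_prop
    have h3 := h2.tendsto a
    simpa using h3
  have h4 : Tendsto (fun b => |nrm n b - nrm n a|) (𝓝 a) (𝓝 0) :=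
    squeeze_zero (fun b => abs_nonneg _) (fun b => abs_nrm_sub_le_sum n b a) h1
  have h5 := (tendsto_zero_iff_abs_tendsto_zero _).2 h4
  have h6 := h5.add_const (nrm n a)
  simpa [ContinuousAt] using h6

theorem measurable_nrm (n : ℕ) : Measurable (nrm n) := (continuous_nrm n).measurable

/-- the linear functionals -/
theorem re_pol (n : ℕ) (a : ℕ → ℝ) (z u : ℂ) :
    (u * pol n a z).re = ∑ i ∈ Finset.range n, a i * (u * z ^ (i + 1)).re := by
  unfold pol
  rw [Finset.mul_sum, Complex.re_sum]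
  refine Finset.sum_congr rfl fun i _ => ?_
  have : u * ((a i : ℂ) * z ^ (i + 1)) = (a i : ℂ) * (u * z ^ (i + 1)) := by ring
  rw [this, Complex.re_ofReal_mul]

theorem re_le_nrm (n : ℕ) (a : ℕ → ℝ) {z u : ℂ} (hz : ‖z‖ = 1) (hu : ‖u‖ = 1) :
    ∑ i ∈ Finset.range n, a i * (u * z ^ (i + 1)).re ≤ nrm n a := by
  rw [← re_pol]
  refine (Complex.re_le_norm _).trans ?_
  rw [norm_mul, hu, one_mul]
  exact norm_pol_le n a hz

theorem nrm_le_of_re {n : ℕ} {a : ℕ → ℝ} {A : ℝ}
    (h : ∀ z u : ℂ, ‖z‖ = 1 → ‖u‖ = 1 → ∑ i ∈ Finset.range n, a i * (u * z ^ (i + 1)).re ≤ A) :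
    nrm n a ≤ A := by
  apply nrm_le
  intro z hz
  by_cases h0 : pol n a z = 0
  · rw [h0, norm_zero]
    have h1 := h z 1 hz (by simp)
    rw [← re_pol, h0] at h1
    simpa using h1
  · have hn : (‖pol n a z‖ : ℂ) ≠ 0 := by
      exact_mod_cast norm_ne_zero_iff.2 h0
    have h1 := h z ((starRingEnd ℂ) (pol n a z) / ‖pol n a z‖) hz (by
      rw [norm_div, RCLike.norm_conj, Complex.norm_real, Real.norm_eq_abs, abs_norm,
        div_self (norm_ne_zero_iff.2 h0)])
    rw [← re_pol] at h1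
    have e : (starRingEnd ℂ) (pol n a z) / ‖pol n a z‖ * pol n a z = ((‖pol n a z‖ : ℝ) : ℂ) := by
      rw [div_mul_eq_mul_div, Complex.conj_mul']
      field_simp
    rw [e, Complex.ofReal_re] at h1
    exact h1

/-! ### weights and harmonic sums -/

theorem wt_pos (i : ℕ) : 0 < wt i := by unfold wt; positivity

theorem wt_sq (i : ℕ) : wt i ^ 2 = 1 / ((i : ℝ) + 1) := by
  unfold wt
  rw [div_pow, one_pow, Real.sq_sqrt (by positivity)]

theorem wt_le_one (i : ℕ) : wt i ≤ 1 := by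
  unfold wt
  rw [div_le_one (by positivity)]
  rw [Real.one_le_sqrt]
  have : (0 : ℝ) ≤ i := by positivity
  linarith

theorem Hs_nonneg (n : ℕ) : 0 ≤ Hs n := by unfold Hs; positivity

theorem Hs_le (n : ℕ) (hn : 1 ≤ n) : Hs n ≤ 1 + Real.log n := by
  have h := harmonic_le_one_add_log n
  have e : ((harmonic n : ℚ) : ℝ) = Hs n := by
    unfold harmonic Hs
    push_cast
    refine Finset.sum_congr rfl fun i _ => ?_
    rw [one_div]
  rw [e] at h
  exact h

theorem Mx_nonneg (n : ℕ) (x : ℕ → ℝ) : 0 ≤ Mx n x := nrm_nonneg _ _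

theorem Fx_nonneg (n : ℕ) (x : ℕ → ℝ) : 0 ≤ Fx n x := nrm_nonneg _ _

theorem measurable_wnrm (n : ℕ) (w : ℕ → ℝ) : Measurable fun x : ℕ → ℝ => nrm n (fun i => w i * x i) := by
  have h : Measurable fun x : ℕ → ℝ => (fun i => w i * x i) := by
    rw [measurable_pi_iff]
    intro i
    exact (measurable_pi_apply i).const_mul _
  exact (measurable_nrm n).comp h

theorem measurable_Mx (n : ℕ) : Measurable (Mx n) := measurable_wnrm n wt

theorem measurable_Fx (n : ℕ) : Measurable (Fx n) := by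
  have h := measurable_wnrm n (fun i => (1 - ((i : ℝ) + 1) / n) * wt i)
  have e : Fx n = fun x : ℕ → ℝ => nrm n (fun i => ((1 - ((i : ℝ) + 1) / n) * wt i) * x i) := by
    funext x
    unfold Fx
    congr 1
    funext i
    ring
  rw [e]
  exact h

theorem measurable_wnrm_comp {Ω : Type*} [MeasurableSpace Ω] {ξ : ℕ → Ω → ℝ} (hm : ∀ k, Measurable (ξ k))
    (n : ℕ) (w : ℕ → ℝ) : Measurable fun ω => nrm n (fun i => w i * ξ i ω) :=
  (measurable_wnrm n w).comp (measurable_pi_iff.2 hm)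

theorem measurable_Mx_comp {Ω : Type*} [MeasurableSpace Ω] {ξ : ℕ → Ω → ℝ} (hm : ∀ k, Measurable (ξ k))
    (n : ℕ) : Measurable fun ω => Mx n (fun i => ξ i ω) :=
  (measurable_Mx n).comp (measurable_pi_iff.2 hm)

theorem measurable_Fx_comp {Ω : Type*} [MeasurableSpace Ω] {ξ : ℕ → Ω → ℝ} (hm : ∀ k, Measurable (ξ k))
    (n : ℕ) : Measurable fun ω => Fx n (fun i => ξ i ω) :=
  (measurable_Fx n).comp (measurable_pi_iff.2 hm)

theorem Mx_add_le (n : ℕ) (x y : ℕ → ℝ) : Mx n (fun i => x i + y i) ≤ Mx n x + Mx n y := by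
  have h := nrm_add_le n (fun i => wt i * x i) (fun i => wt i * y i)
  have e : (fun i => wt i * x i + wt i * y i) = fun i => wt i * (x i + y i) := by funext i; ring
  rw [e] at h
  exact h

theorem Mx_sub_le (n : ℕ) (x y : ℕ → ℝ) : |Mx n x - Mx n y| ≤ Mx n (fun i => x i - y i) := by
  have h := abs_nrm_sub_le n (fun i => wt i * x i) (fun i => wt i * y i)
  have e : (fun i => wt i * x i - wt i * y i) = fun i => wt i * (x i - y i) := by funext i; ring
  rw [e] at h
  exact h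

theorem Mx_smul (n : ℕ) (c : ℝ) (x : ℕ → ℝ) : Mx n (fun i => c * x i) = |c| * Mx n x := by
  have h := nrm_smul n c (fun i => wt i * x i)
  have e : (fun i => c * (wt i * x i)) = fun i => wt i * (c * x i) := by funext i; ring
  rw [e] at h
  exact h

end H13.LL
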