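import Mathlib

/-! # LL.ES : the variance of a Lipschitz function of independent variables (Mathlib only), about 150 lines

Induction on `n` (generalise `F`, `μ`, `d`). `F` is continuous, and in `L²` because `|F x| ≤ |F 0| + ∑ d i |x i|` and `x ↦ x i` is in `L²` (measure preserving evaluation, `measurePreserving_eval`).
`n = 0`: `F` is constant, variance `0`. Step: `e = MeasurableEquiv.piFinSuccAbove (fun _ => ℝ) 0`, `measurePreserving_piFinSuccAbove μ 0` : `Measure.pi μ` corresponds to `(μ 0).prod (Measure.pi fun j => μ j.succ)`; write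
`F (Fin.cons x y)`. `G x = ∫ F (Fin.cons x y) dν(y)`. For every `x`: `∫ F(x,y)² dν = Var_y + G x ^ 2 ≤ S' + G x ^ 2` by induction, `S' = ∑_{i≥1} d i ^ 2 Var[id; μ i]`. Fubini (`integral_prod`): `∫ F² ≤ S' + ∫ G² dμ_0`, `∫ F = ∫ G`.
So `Var F = ∫ F² - (∫ F)² ≤ S' + Var[G; μ 0]`, and `Var[G; μ 0] ≤ ∫ (G x - G m)² ≤ d 0 ^ 2 ∫ (x - m)²` with `m = ∫ x dμ_0`, as `|G x - G x'| ≤ d 0 |x - x'|`. -/

set_option autoImplicit false

namespace H13.LL

open MeasureTheory ProbabilityTheory Filter Topology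

private lemma es_cont {n : ℕ} {d : Fin n → ℝ} (hd : ∀ i, 0 ≤ d i) {F : (Fin n → ℝ) → ℝ}
    (hF : ∀ x y, |F x - F y| ≤ ∑ i, d i * |x i - y i|) : Continuous F := by
  have h1 : LipschitzWith (Real.toNNReal (∑ i, d i)) F := by
    refine LipschitzWith.of_dist_le_mul fun x y => ?_
    rw [Real.dist_eq, Real.coe_toNNReal _ (Finset.sum_nonneg fun i _ => hd i)]
    refine (hF x y).trans ?_
    rw [Finset.sum_mul]
    refine Finset.sum_le_sum fun i _ => mul_le_mul_of_nonneg_left ?_ (hd i)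
    rw [← Real.dist_eq]
    exact dist_le_pi_dist x y i
  exact h1.continuous

private lemma es_memLp {n : ℕ} (μ : Fin n → Measure ℝ) [∀ i, IsProbabilityMeasure (μ i)]
    (h2 : ∀ i, MemLp (id : ℝ → ℝ) 2 (μ i)) (d : Fin n → ℝ) (hd : ∀ i, 0 ≤ d i) (F : (Fin n → ℝ) → ℝ)
    (hF : ∀ x y, |F x - F y| ≤ ∑ i, d i * |x i - y i|) : MemLp F 2 (Measure.pi μ) := by
  have h3 : ∀ i, MemLp (fun x : Fin n → ℝ => d i * |x i|) 2 (Measure.pi μ) := by
    intro i
    have h4 : MemLp (fun x : Fin n → ℝ => x i) 2 (Measure.pi μ) :=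
      (h2 i).comp_measurePreserving (measurePreserving_eval μ i)
    have h5 := (h4.norm).const_mul (d i)
    simp only [Real.norm_eq_abs] at h5
    exact h5
  have h5 : MemLp (fun x : Fin n → ℝ => ∑ i, d i * |x i|) 2 (Measure.pi μ) :=
    memLp_finsetSum Finset.univ (f := fun i (x : Fin n → ℝ) => d i * |x i|) fun i _ => h3 i
  have h6 : MemLp (fun _ : Fin n → ℝ => |F 0|) 2 (Measure.pi μ) := memLp_const _
  have h4 : MemLp (fun x : Fin n → ℝ => |F 0| + ∑ i, d i * |x i|) 2 (Measure.pi μ) := h6.add h5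
  refine h4.mono (es_cont hd hF).aestronglyMeasurable (Eventually.of_forall fun x => ?_)
  have h5 := hF x 0
  have h6 : ∑ i, d i * |x i - (0 : Fin n → ℝ) i| = ∑ i, d i * |x i| := by simp
  rw [h6] at h5
  have h7 : |F x| ≤ |F 0| + |F x - F 0| := by
    have := abs_add_le (F 0) (F x - F 0)
    rwa [add_sub_cancel] at this
  rw [Real.norm_eq_abs, Real.norm_eq_abs]
  exact (h7.trans (by linarith)).trans (le_abs_self _)

/-- the variance of a Lipschitz function of one variable -/
private lemma es_one (μ : Measure ℝ) [IsProbabilityMeasure μ] (h2 : MemLp (id : ℝ → ℝ) 2 μ) {c : ℝ} (hc : 0 ≤ c)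
    {G : ℝ → ℝ} (hG : ∀ x y, |G x - G y| ≤ c * |x - y|) :
    MemLp G 2 μ ∧ variance G μ ≤ c ^ 2 * variance (id : ℝ → ℝ) μ := by
  have hcont : Continuous G := by
    have h1 : LipschitzWith (Real.toNNReal c) G := by
      refine LipschitzWith.of_dist_le_mul fun x y => ?_
      rw [Real.dist_eq, Real.coe_toNNReal _ hc, Real.dist_eq]
      exact hG x y
    exact h1.continuous
  have hGm : MemLp G 2 μ := by
    have h5 := (h2.norm).const_mul c
    simp only [Real.norm_eq_abs, id] at h5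
    have h6 : MemLp (fun _ : ℝ => |G 0|) 2 μ := memLp_const _
    have h4 : MemLp (fun x : ℝ => |G 0| + c * |x|) 2 μ := h6.add h5
    refine h4.mono hcont.aestronglyMeasurable (Eventually.of_forall fun x => ?_)
    have h5 := hG x 0
    rw [sub_zero] at h5
    have h7 : |G x| ≤ |G 0| + |G x - G 0| := by
      have := abs_add_le (G 0) (G x - G 0)
      rwa [add_sub_cancel] at this
    rw [Real.norm_eq_abs, Real.norm_eq_abs]
    exact (h7.trans (by linarith)).trans (le_abs_self _)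
  refine ⟨hGm, ?_⟩
  set m : ℝ := ∫ x, (id : ℝ → ℝ) x ∂μ with hm
  have h6 : variance (fun x => G x - G m) μ = variance G μ := variance_sub_const hcont.aestronglyMeasurable (G m)
  rw [← h6, variance_eq_integral aemeasurable_id, ← integral_const_mul]
  refine (variance_le_expectation_sq (hcont.sub continuous_const).aestronglyMeasurable).trans ?_
  have hc1 : MemLp (fun _ : ℝ => G m) 2 μ := memLp_const _
  have hc2 : MemLp (fun _ : ℝ => m) 2 μ := memLp_const _
  have hi1 : MemLp (fun x => G x - G m) 2 μ := hGm.sub hc1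
  have hi2 : MemLp (fun x : ℝ => id x - m) 2 μ := h2.sub hc2
  refine integral_mono ?_ ?_ ?_
  · exact hi1.integrable_sq
  · exact hi2.integrable_sq.const_mul _
  · intro x
    have h7 := hG x m
    have h8 : |G x - G m| ^ 2 ≤ (c * |x - m|) ^ 2 := pow_le_pow_left₀ (abs_nonneg _) h7 2
    rw [sq_abs, mul_pow, sq_abs] at h8
    simpa [hm] using h8

private lemma es_var : ∀ {n : ℕ} (μ : Fin n → Measure ℝ) [∀ i, IsProbabilityMeasure (μ i)]
    (_ : ∀ i, MemLp (id : ℝ → ℝ) 2 (μ i)) (d : Fin n → ℝ) (_ : ∀ i, 0 ≤ d i) (F : (Fin n → ℝ) → ℝ)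
    (_ : ∀ x y, |F x - F y| ≤ ∑ i, d i * |x i - y i|),
    variance F (Measure.pi μ) ≤ ∑ i, d i ^ 2 * variance (id : ℝ → ℝ) (μ i) := by
  intro n
  induction n with
  | zero =>
    intro μ _ h2 d hd F hF
    have h1 : F = fun _ => F 0 := by
      funext x
      rw [Subsingleton.elim x 0]
    rw [Finset.univ_eq_empty, Finset.sum_empty, h1]
    have h3 : variance (fun _ : Fin 0 → ℝ => F 0) (Measure.pi μ) = 0 := by
      rw [variance_eq_integral aemeasurable_const]
      simp
    exact h3.le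
  | succ n ih =>
    intro μ _ h2 d hd F hF
    set ν : Measure (Fin n → ℝ) := Measure.pi fun j => μ j.succ with hν
    have hmp : MeasurePreserving (MeasurableEquiv.piFinSuccAbove (fun _ => ℝ) 0) (Measure.pi μ) ((μ 0).prod ν) := by
      have := measurePreserving_piFinSuccAbove (α := fun _ => ℝ) μ 0
      simpa only [Fin.zero_succAbove] using this
    have hmp' := hmp.symm
    set Φ : ℝ × (Fin n → ℝ) ≃ᵐ (Fin (n + 1) → ℝ) := (MeasurableEquiv.piFinSuccAbove (fun _ : Fin (n + 1) => ℝ) 0).symm with hΦ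
    have hΦ0 : ∀ x y, Φ (x, y) 0 = x := by
      intro x y
      simp [hΦ, MeasurableEquiv.piFinSuccAbove]
    have hΦs : ∀ x y j, Φ (x, y) (Fin.succ j) = y j := by
      intro x y j
      simp [hΦ, MeasurableEquiv.piFinSuccAbove]
    set H : ℝ × (Fin n → ℝ) → ℝ := fun q => F (Φ q) with hH
    have hFc := es_cont hd hF
    have hFm := es_memLp μ h2 d hd F hF
    have hHm : MemLp H 2 ((μ 0).prod ν) := hFm.comp_measurePreserving hmp'
    have hvar : variance F (Measure.pi μ) = variance H ((μ 0).prod ν) :=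
      (hmp'.variance_fun_comp hFc.aemeasurable).symm
    set d' : Fin n → ℝ := fun j => d j.succ with hd'
    -- the sections
    have hsec : ∀ x : ℝ, ∀ y y' : Fin n → ℝ, |H (x, y) - H (x, y')| ≤ ∑ i, d' i * |y i - y' i| := by
      intro x y y'
      have h1 := hF (Φ (x, y)) (Φ (x, y'))
      rw [Fin.sum_univ_succ, hΦ0, hΦ0, sub_self, abs_zero, mul_zero, zero_add] at h1
      simp only [hΦs] at h1
      exact h1
    have hsecm : ∀ x : ℝ, MemLp (fun y => H (x, y)) 2 ν := fun x =>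
      es_memLp (fun j => μ j.succ) (fun j => h2 j.succ) d' (fun j => hd j.succ) _ (hsec x)
    set G : ℝ → ℝ := fun x => ∫ y, H (x, y) ∂ν with hG
    set S' : ℝ := ∑ i : Fin n, d i.succ ^ 2 * variance (id : ℝ → ℝ) (μ i.succ) with hS'
    have hG1 : ∀ x x', |G x - G x'| ≤ d 0 * |x - x'| := by
      intro x x'
      rw [hG]
      simp only
      rw [← integral_sub ((hsecm x).integrable (by norm_num)) ((hsecm x').integrable (by norm_num))]
      refine (abs_integral_le_integral_abs).trans ?_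
      have h1 : ∫ y, |H (x, y) - H (x', y)| ∂ν ≤ ∫ _y, d 0 * |x - x'| ∂ν := by
        refine integral_mono (((hsecm x).sub (hsecm x')).integrable (by norm_num)).abs (integrable_const _) fun y => ?_
        have h2' := hF (Φ (x, y)) (Φ (x', y))
        rw [Fin.sum_univ_succ, hΦ0, hΦ0] at h2'
        simp only [hΦs, sub_self, abs_zero, mul_zero, Finset.sum_const_zero, add_zero] at h2'
        exact h2'
      rw [integral_const, probReal_univ, one_smul] at h1
      exact h1
    obtain ⟨hGm, hGv⟩ := es_one (μ 0) (h2 0) (hd 0) hG1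
    have hint : ∫ q, H q ∂((μ 0).prod ν) = ∫ x, G x ∂(μ 0) := integral_prod _ (hHm.integrable (by norm_num))
    have hint2 : ∫ q, H q ^ 2 ∂((μ 0).prod ν) = ∫ x, ∫ y, H (x, y) ^ 2 ∂ν ∂(μ 0) := integral_prod _ hHm.integrable_sq
    have hx : ∀ x, ∫ y, H (x, y) ^ 2 ∂ν ≤ S' + G x ^ 2 := by
      intro x
      have h1 := ih (fun j => μ j.succ) (fun j => h2 j.succ) d' (fun j => hd j.succ) _ (hsec x)
      rw [variance_eq_sub (hsecm x)] at h1
      simp only [Pi.pow_apply] at h1
      linarith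
    have hle : ∫ x, ∫ y, H (x, y) ^ 2 ∂ν ∂(μ 0) ≤ S' + ∫ x, G x ^ 2 ∂(μ 0) := by
      have h1 : ∫ x, ∫ y, H (x, y) ^ 2 ∂ν ∂(μ 0) ≤ ∫ x, (S' + G x ^ 2) ∂(μ 0) :=
        integral_mono hHm.integrable_sq.integral_prod_left ((integrable_const _).add hGm.integrable_sq) hx
      rw [integral_add (integrable_const _) hGm.integrable_sq, integral_const, probReal_univ, one_smul] at h1
      exact h1
    rw [variance_eq_sub hGm] at hGv
    rw [hvar, variance_eq_sub hHm, Fin.sum_univ_succ]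
    simp only [Pi.pow_apply] at hGv ⊢
    rw [hint, hint2]
    linarith

theorem var_pi {n : ℕ} (μ : Fin n → Measure ℝ) [∀ i, IsProbabilityMeasure (μ i)]
    (h2 : ∀ i, MemLp (id : ℝ → ℝ) 2 (μ i)) (d : Fin n → ℝ) (hd : ∀ i, 0 ≤ d i) (F : (Fin n → ℝ) → ℝ)
    (hF : ∀ x y, |F x - F y| ≤ ∑ i, d i * |x i - y i|) :
    MemLp F 2 (Measure.pi μ) ∧
      variance F (Measure.pi μ) ≤ ∑ i, d i ^ 2 * variance (id : ℝ → ℝ) (μ i) :=
  ⟨es_memLp μ h2 d hd F hF, es_var μ h2 d hd F hF⟩

end H13.LL
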