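import Pool.Agent.H13.LL.Tail

/-! # LL.ExpM : exponential moments of the truncated variables, about 150 lines

`tr τ i x` is `wt i * x` if `|x| ≤ τ √(i+1)` and `0` otherwise, so `|tr τ i x| ≤ τ`.

`removed`: pointwise `∑_{i<n} |wt i * x i - tr τ i (x i)|` is the sum of `wt i |x i|` over the `i` with `τ √(i+1) < |x i|`; by `IdentDistrib` the integral of the `i`-th term is the integral
with `η 0` in the place of `η i`; so the integral of the sum is `∫ ∑_{i<n} (if τ √(i+1) < |η 0| then wt i |η 0| else 0) ≤ ∫ 2 η_0² / τ ≤ 2 τ` (`tail_sum`).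

`exp_tr`: for `|c| ≤ 1` let `Y = c * tr τ i (η i) / τ`, `|Y| ≤ 1`, `exp Y ≤ 1 + Y + Y²` (`Real.abs_exp_sub_one_sub_id_le`), `E Y² ≤ wt i ^ 2 = 1/(i+1)`,
`|E Y| ≤ |E tr τ i (η i)| / τ = |E (tr τ i (η i) - wt i η i)| / τ ≤ r i / τ` where `r i = E |wt i η i - tr τ i (η i)|` (mean zero). So `E exp Y ≤ 1 + r i/τ + 1/(i+1) ≤ exp (r i/τ + 1/(i+1))`.
Independence (`iIndepFun.comp`, `iIndepFun.mgf_sum` with `t = 1`, see `good_of_iid` in `Pool/Agent/H38/LC/Combo.lean`): the product is `≤ exp (∑ r i / τ + Hs n) ≤ exp (2 + 1 + log n)`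
(`removed`, `Hs_le`). Integrable: bounded by `exp n` and measurable. -/

set_option autoImplicit false

namespace H13.LL

open MeasureTheory ProbabilityTheory Filter Topology

/-- truncation at `τ √(i+1)`, with the weight -/
noncomputable def tr (τ : ℝ) (i : ℕ) (x : ℝ) : ℝ := if |x| ≤ τ * √((i : ℝ) + 1) then wt i * x else 0

theorem measurable_tr (τ : ℝ) (i : ℕ) : Measurable (tr τ i) := by
  unfold tr
  exact Measurable.ite (measurableSet_le (by fun_prop) measurable_const) (by fun_prop) measurable_const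

theorem abs_tr_le (τ : ℝ) (hτ : 0 < τ) (i : ℕ) (x : ℝ) : |tr τ i x| ≤ τ := by
  unfold tr
  split_ifs with h
  · rw [abs_mul, abs_of_pos (wt_pos i)]
    have h1 : wt i * √((i : ℝ) + 1) = 1 := by
      unfold wt
      rw [one_div, inv_mul_cancel₀ (by positivity)]
    calc wt i * |x| ≤ wt i * (τ * √((i : ℝ) + 1)) := mul_le_mul_of_nonneg_left h (wt_pos i).le
      _ = τ * (wt i * √((i : ℝ) + 1)) := by ring
      _ = τ := by rw [h1, mul_one]
  · simpa using hτ.le

variable {Ω : Type*} [MeasurableSpace Ω] {P : Measure Ω} [IsProbabilityMeasure P] {η : ℕ → Ω → ℝ}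

theorem D_eq (τ : ℝ) (i : ℕ) (x : ℝ) :
    |wt i * x - tr τ i x| = if τ * √((i : ℝ) + 1) < |x| then wt i * |x| else 0 := by
  unfold tr
  by_cases h : |x| ≤ τ * √((i : ℝ) + 1)
  · rw [if_pos h, if_neg (not_lt.2 h), sub_self, abs_zero]
  · rw [if_neg h, if_pos (not_le.1 h), sub_zero, abs_mul, abs_of_pos (wt_pos i)]

theorem D_le (τ : ℝ) (i : ℕ) (x : ℝ) : |wt i * x - tr τ i x| ≤ wt i * |x| := by
  rw [D_eq]
  split_ifs
  · exact le_rfl
  · exact mul_nonneg (wt_pos i).le (abs_nonneg x)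

theorem abs_tr_le' (τ : ℝ) (i : ℕ) (x : ℝ) : |tr τ i x| ≤ wt i * |x| := by
  unfold tr
  split_ifs
  · rw [abs_mul, abs_of_pos (wt_pos i)]
  · rw [abs_zero]
    exact mul_nonneg (wt_pos i).le (abs_nonneg x)

theorem int0 (h : Sq P η) : Integrable (η 0) P := h.mem.integrable (by norm_num)

theorem intk (h : Sq P η) (k : ℕ) : Integrable (η k) P := (h.idd k).integrable_iff.2 (int0 h)

omit [IsProbabilityMeasure P] in
theorem meank (h : Sq P η) (k : ℕ) : ∫ ω, η k ω ∂P = 0 := by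
  rw [(h.idd k).integral_eq]
  exact h.mean

omit [IsProbabilityMeasure P] in
theorem int_sq0 (h : Sq P η) : Integrable (fun ω => η 0 ω ^ 2) P := h.mem.integrable_sq

theorem measD (τ : ℝ) (i : ℕ) : Measurable fun x : ℝ => |wt i * x - tr τ i x| :=
  ((measurable_const.mul measurable_id).sub (measurable_tr τ i)).abs

theorem intD (h : Sq P η) (τ : ℝ) (i k : ℕ) :
    Integrable (fun ω => |wt i * η k ω - tr τ i (η k ω)|) P := by
  refine Integrable.mono' ((intk h k).abs.const_mul (wt i))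
    ((measD τ i).comp (h.meas k)).aestronglyMeasurable (Eventually.of_forall fun ω => ?_)
  rw [Real.norm_eq_abs, abs_abs]
  exact D_le τ i _

omit [IsProbabilityMeasure P] in
theorem integral_D (h : Sq P η) (τ : ℝ) (i k : ℕ) :
    ∫ ω, |wt i * η k ω - tr τ i (η k ω)| ∂P = ∫ ω, |wt i * η 0 ω - tr τ i (η 0 ω)| ∂P :=
  ((h.idd k).comp (measD τ i)).integral_eq

theorem removed (h : Sq P η) {τ : ℝ} (hτ : 0 < τ) (hv : ∫ ω, η 0 ω ^ 2 ∂P ≤ τ ^ 2) (n : ℕ) :
    Integrable (fun ω => ∑ i ∈ Finset.range n, |wt i * η i ω - tr τ i (η i ω)|) P ∧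
      ∫ ω, ∑ i ∈ Finset.range n, |wt i * η i ω - tr τ i (η i ω)| ∂P ≤ 2 * τ := by
  refine ⟨integrable_finsetSum _ fun i _ => intD h τ i i, ?_⟩
  rw [integral_finsetSum _ fun i _ => intD h τ i i]
  simp_rw [fun i => integral_D h τ i i]
  rw [← integral_finsetSum _ fun i _ => intD h τ i 0]
  calc ∫ ω, ∑ i ∈ Finset.range n, |wt i * η 0 ω - tr τ i (η 0 ω)| ∂P
      ≤ ∫ ω, 2 / τ * η 0 ω ^ 2 ∂P := by
        refine integral_mono (integrable_finsetSum _ fun i _ => intD h τ i 0)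
          ((int_sq0 h).const_mul _) fun ω => ?_
        have h1 := tail_sum n (η 0 ω) τ hτ
        simp_rw [← D_eq] at h1
        refine h1.trans (le_of_eq ?_)
        ring
    _ = 2 / τ * ∫ ω, η 0 ω ^ 2 ∂P := integral_const_mul _ _
    _ ≤ 2 / τ * τ ^ 2 := mul_le_mul_of_nonneg_left hv (by positivity)
    _ = 2 * τ := by field_simp

/-- one factor -/
theorem exp_one (h : Sq P η) {τ : ℝ} (hτ : 0 < τ) (hv : ∫ ω, η 0 ω ^ 2 ∂P ≤ τ ^ 2) (i : ℕ) (c : ℝ)
    (hc : |c| ≤ 1) :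
    Integrable (fun ω => Real.exp (c * (tr τ i (η i ω) / τ))) P ∧
      ∫ ω, Real.exp (c * (tr τ i (η i ω) / τ)) ∂P ≤
        Real.exp ((∫ ω, |wt i * η i ω - tr τ i (η i ω)| ∂P) / τ + 1 / ((i : ℝ) + 1)) := by
  have hm : Measurable fun ω => c * (tr τ i (η i ω) / τ) :=
    (((measurable_tr τ i).comp (h.meas i)).div_const τ).const_mul c
  have hb : ∀ ω, |c * (tr τ i (η i ω) / τ)| ≤ 1 := by
    intro ω
    rw [abs_mul, abs_div, abs_of_pos hτ]
    have h1 : |tr τ i (η i ω)| / τ ≤ 1 := (div_le_one hτ).2 (abs_tr_le τ hτ i _)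
    exact mul_le_one₀ hc (by positivity) h1
  have hI : Integrable (fun ω => Real.exp (c * (tr τ i (η i ω) / τ))) P := by
    refine Integrable.mono' (integrable_const (Real.exp 1)) hm.exp.aestronglyMeasurable
      (Eventually.of_forall fun ω => ?_)
    rw [Real.norm_eq_abs, abs_of_pos (Real.exp_pos _)]
    exact Real.exp_le_exp.2 ((le_abs_self _).trans (hb ω))
  refine ⟨hI, ?_⟩
  have hI1 : Integrable (fun ω => c * (tr τ i (η i ω) / τ)) P := by
    refine Integrable.mono' (integrable_const (1 : ℝ)) hm.aestronglyMeasurable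
      (Eventually.of_forall fun ω => ?_)
    rw [Real.norm_eq_abs]
    exact hb ω
  have hI2 : Integrable (fun ω => (c * (tr τ i (η i ω) / τ)) ^ 2) P := by
    refine Integrable.mono' (integrable_const (1 : ℝ)) (hm.pow_const 2).aestronglyMeasurable
      (Eventually.of_forall fun ω => ?_)
    rw [Real.norm_eq_abs, abs_of_nonneg (sq_nonneg _)]
    rw [sq_le_one_iff_abs_le_one]
    exact hb ω
  have hsq : Integrable (fun ω => η i ω ^ 2) P :=
    ((h.idd i).comp (u := fun x => x ^ 2) (by fun_prop)).integrable_iff.2 (int_sq0 h)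
  have hsqv : ∫ ω, η i ω ^ 2 ∂P = ∫ ω, η 0 ω ^ 2 ∂P :=
    ((h.idd i).comp (u := fun x => x ^ 2) (by fun_prop)).integral_eq
  have e1 : ∫ ω, Real.exp (c * (tr τ i (η i ω) / τ)) ∂P ≤
      ∫ ω, (1 + c * (tr τ i (η i ω) / τ) + (c * (tr τ i (η i ω) / τ)) ^ 2) ∂P := by
    have g1 : Integrable (fun ω => 1 + c * (tr τ i (η i ω) / τ)) P := (integrable_const _).add hI1
    refine integral_mono hI (g1.add hI2) fun ω => ?_
    have h1 := (abs_le.1 (Real.abs_exp_sub_one_sub_id_le (hb ω))).2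
    simp only
    linarith
  have e2 : ∫ ω, (1 + c * (tr τ i (η i ω) / τ) + (c * (tr τ i (η i ω) / τ)) ^ 2) ∂P =
      1 + ∫ ω, c * (tr τ i (η i ω) / τ) ∂P + ∫ ω, (c * (tr τ i (η i ω) / τ)) ^ 2 ∂P := by
    have g1 : Integrable (fun ω => 1 + c * (tr τ i (η i ω) / τ)) P := (integrable_const _).add hI1
    rw [integral_add g1 hI2, integral_add (integrable_const _) hI1]
    simp
  have e3 : ∫ ω, c * (tr τ i (η i ω) / τ) ∂P ≤
      (∫ ω, |wt i * η i ω - tr τ i (η i ω)| ∂P) / τ := by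
    have hIt : Integrable (fun ω => tr τ i (η i ω)) P := by
      refine Integrable.mono' (integrable_const τ)
        ((measurable_tr τ i).comp (h.meas i)).aestronglyMeasurable (Eventually.of_forall fun ω => ?_)
      rw [Real.norm_eq_abs]
      exact abs_tr_le τ hτ i _
    have f1 : ∫ ω, c * (tr τ i (η i ω) / τ) ∂P = c / τ * ∫ ω, tr τ i (η i ω) ∂P := by
      rw [← integral_const_mul]
      refine integral_congr_ae (Eventually.of_forall fun ω => ?_)
      simp only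
      ring
    have f2 : ∫ ω, tr τ i (η i ω) ∂P = -∫ ω, (wt i * η i ω - tr τ i (η i ω)) ∂P := by
      rw [integral_sub ((intk h i).const_mul _) hIt, integral_const_mul, meank h i]
      ring
    have f3 : |∫ ω, tr τ i (η i ω) ∂P| ≤ ∫ ω, |wt i * η i ω - tr τ i (η i ω)| ∂P := by
      rw [f2, abs_neg]
      exact abs_integral_le_integral_abs
    rw [f1]
    refine (le_abs_self _).trans ?_
    rw [abs_mul, abs_div, abs_of_pos hτ]
    calc |c| / τ * |∫ ω, tr τ i (η i ω) ∂P|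
        ≤ 1 / τ * ∫ ω, |wt i * η i ω - tr τ i (η i ω)| ∂P := by
          refine mul_le_mul ?_ f3 (abs_nonneg _) (by positivity)
          exact div_le_div_of_nonneg_right hc hτ.le
      _ = _ := by ring
  have e4 : ∫ ω, (c * (tr τ i (η i ω) / τ)) ^ 2 ∂P ≤ 1 / ((i : ℝ) + 1) := by
    calc ∫ ω, (c * (tr τ i (η i ω) / τ)) ^ 2 ∂P
        ≤ ∫ ω, wt i ^ 2 / τ ^ 2 * η i ω ^ 2 ∂P := by
          refine integral_mono hI2 (hsq.const_mul _) fun ω => ?_
          simp only
          have g1 : tr τ i (η i ω) ^ 2 ≤ wt i ^ 2 * η i ω ^ 2 := by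
            have g2 := abs_tr_le' τ i (η i ω)
            have g3 := pow_le_pow_left₀ (abs_nonneg _) g2 2
            rw [sq_abs, mul_pow, sq_abs] at g3
            exact g3
          have g4 : c ^ 2 ≤ 1 := (sq_le_one_iff_abs_le_one c).2 hc
          calc (c * (tr τ i (η i ω) / τ)) ^ 2 = c ^ 2 * (tr τ i (η i ω) ^ 2 / τ ^ 2) := by ring
            _ ≤ 1 * (wt i ^ 2 * η i ω ^ 2 / τ ^ 2) := by
                refine mul_le_mul g4 ?_ (by positivity) zero_le_one
                exact div_le_div_of_nonneg_right g1 (by positivity)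
            _ = wt i ^ 2 / τ ^ 2 * η i ω ^ 2 := by ring
      _ = wt i ^ 2 / τ ^ 2 * ∫ ω, η 0 ω ^ 2 ∂P := by rw [integral_const_mul, hsqv]
      _ ≤ wt i ^ 2 / τ ^ 2 * τ ^ 2 := mul_le_mul_of_nonneg_left hv (by positivity)
      _ = wt i ^ 2 := by field_simp
      _ = 1 / ((i : ℝ) + 1) := wt_sq i
  have e5 := Real.add_one_le_exp
    ((∫ ω, |wt i * η i ω - tr τ i (η i ω)| ∂P) / τ + 1 / ((i : ℝ) + 1))
  linarith

theorem exp_tr (h : Sq P η) {τ : ℝ} (hτ : 0 < τ) (hv : ∫ ω, η 0 ω ^ 2 ∂P ≤ τ ^ 2) (n : ℕ) (hn : 1 ≤ n)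
    (c : ℕ → ℝ) (hc : ∀ i, |c i| ≤ 1) :
    Integrable (fun ω => Real.exp (∑ i ∈ Finset.range n, c i * (tr τ i (η i ω) / τ))) P ∧
      ∫ ω, Real.exp (∑ i ∈ Finset.range n, c i * (tr τ i (η i ω) / τ)) ∂P ≤
        Real.exp (3 + Real.log n) := by
  have hind' : iIndepFun (fun i ω => c i * (tr τ i (η i ω) / τ)) P :=
    h.ind.comp (fun i x => c i * (tr τ i x / τ))
      (fun i => ((measurable_tr τ i).div_const τ).const_mul (c i))
  have hmeas' : ∀ i, Measurable (fun ω => c i * (tr τ i (η i ω) / τ)) := fun i =>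
    (((measurable_tr τ i).comp (h.meas i)).div_const τ).const_mul (c i)
  have hmgf := hind'.mgf_sum (t := 1) hmeas' (Finset.range n)
  have hint' := hind'.integrable_exp_mul_sum (t := 1) hmeas' (s := Finset.range n) (by
    intro k _
    simpa using (exp_one h hτ hv k (c k) (hc k)).1)
  simp only [mgf, one_mul, Finset.sum_apply] at hmgf hint'
  refine ⟨hint', ?_⟩
  rw [hmgf]
  have h3 : ∏ i ∈ Finset.range n, ∫ ω, Real.exp (c i * (tr τ i (η i ω) / τ)) ∂P ≤
      ∏ i ∈ Finset.range n,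
        Real.exp ((∫ ω, |wt i * η i ω - tr τ i (η i ω)| ∂P) / τ + 1 / ((i : ℝ) + 1)) :=
    Finset.prod_le_prod (fun i _ => integral_nonneg fun ω => (Real.exp_pos _).le)
      fun i _ => (exp_one h hτ hv i (c i) (hc i)).2
  refine h3.trans ?_
  rw [← Real.exp_sum, Real.exp_le_exp, Finset.sum_add_distrib, ← Finset.sum_div]
  have h4 := (removed h hτ hv n).2
  rw [integral_finsetSum _ fun i _ => intD h τ i i] at h4
  have h5 : (∑ i ∈ Finset.range n, ∫ ω, |wt i * η i ω - tr τ i (η i ω)| ∂P) / τ ≤ 2 := by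
    rw [div_le_iff₀ hτ]
    exact h4
  have h6 := Hs_le n hn
  unfold Hs at h6
  linarith

end H13.LL
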