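import Pool.Agent.H13.LL.Defs

/-! # LL.Fejer : Fejer means do not increase the norm (deterministic), about 120 lines

Let `N = n + m + 1`, `ζ = exp (2 π I / N)` (primitive `N`-th root of unity), `K r = ‖∑_{s<m} ζ^(r s)‖² / m ≥ 0`. For `|z| = 1` and `1 ≤ k ≤ n`:
`(1/N) ∑_{r<N} K r ζ^(-r k) = (1/m) ∑_{s,t<m} (1/N) ∑_r ζ^(r (s - t - k)) = (1/m) #{(s,t) : s - t = k} = max (0, 1 - k/m)` (as `|s - t - k| < N`; `IsPrimitiveRoot.geom_sum_eq_zero`), and with `k = 0`: `(1/N) ∑_r K r = 1`.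
So `pol m (fun i => (1 - (i+1)/m) a i) z = (1/N) ∑_r K r pol n a (z ζ^(-r))` (terms with `k = i + 1 ≥ m` vanish on both sides), norm `≤ (1/N) ∑_r K r nrm n a = nrm n a`. -/

set_option autoImplicit false

namespace H13.LL

private theorem fj_geo {w : ℂ} {N : ℕ} (hw : w ^ N = 1) :
    ∑ r ∈ Finset.range N, w ^ r = if w = 1 then (N : ℂ) else 0 := by
  split_ifs with h
  · rw [h]; simp
  · have h1 := geom_sum_mul w N
    rw [hw, sub_self] at h1
    rcases mul_eq_zero.1 h1 with h2 | h2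
    · exact h2
    · exact absurd (sub_eq_zero.1 h2) h

private theorem fj_cnt (m k N : ℕ) :
    ∑ s ∈ Finset.range m, ∑ t ∈ Finset.range m, (if s = t + k then (N : ℂ) else 0) =
      N * ((m - k : ℕ) : ℂ) := by
  rw [Finset.sum_comm]
  have h1 : ∀ t ∈ Finset.range m, ∑ s ∈ Finset.range m, (if s = t + k then (N : ℂ) else 0) =
      if t < m - k then (N : ℂ) else 0 := by
    intro t _
    rw [Finset.sum_ite_eq' (Finset.range m) (t + k) fun _ => (N : ℂ)]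
    by_cases h : t + k < m
    · rw [if_pos (Finset.mem_range.2 h), if_pos (by omega)]
    · rw [if_neg (fun h' => h (Finset.mem_range.1 h')), if_neg (by omega)]
  rw [Finset.sum_congr rfl h1, ← Finset.sum_filter]
  have h2 : (Finset.range m).filter (fun t => t < m - k) = Finset.range (m - k) := by
    ext t
    simp only [Finset.mem_filter, Finset.mem_range]
    omega
  rw [h2, Finset.sum_const, Finset.card_range, nsmul_eq_mul, mul_comm]

private theorem fj_core {ζ : ℂ} {N m k : ℕ} (hζ : IsPrimitiveRoot ζ N) (hk : m + k ≤ N) (hN : 0 < N) :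
    ∑ r ∈ Finset.range N, (∑ s ∈ Finset.range m, (ζ ^ s) ^ r) *
      (∑ t ∈ Finset.range m, ((ζ ^ t)⁻¹) ^ r) * ((ζ ^ k)⁻¹) ^ r = N * ((m - k : ℕ) : ℂ) := by
  have hz : ζ ≠ 0 := hζ.ne_zero hN.ne'
  have e1 : ∀ r ∈ Finset.range N, (∑ s ∈ Finset.range m, (ζ ^ s) ^ r) *
      (∑ t ∈ Finset.range m, ((ζ ^ t)⁻¹) ^ r) * ((ζ ^ k)⁻¹) ^ r =
      ∑ s ∈ Finset.range m, ∑ t ∈ Finset.range m, (ζ ^ s * (ζ ^ t)⁻¹ * (ζ ^ k)⁻¹) ^ r := by
    intro r _
    rw [Finset.sum_mul_sum, Finset.sum_mul]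
    refine Finset.sum_congr rfl fun s _ => ?_
    rw [Finset.sum_mul]
    refine Finset.sum_congr rfl fun t _ => ?_
    rw [mul_pow, mul_pow]
  rw [Finset.sum_congr rfl e1, Finset.sum_comm, ← fj_cnt m k N]
  refine Finset.sum_congr rfl fun s hs => ?_
  rw [Finset.sum_comm]
  refine Finset.sum_congr rfl fun t ht => ?_
  have hs' := Finset.mem_range.1 hs
  have ht' := Finset.mem_range.1 ht
  have hp : ∀ j : ℕ, (ζ ^ j) ^ N = 1 := fun j => by rw [← pow_mul, mul_comm, pow_mul, hζ.pow_eq_one, one_pow]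
  have hw : (ζ ^ s * (ζ ^ t)⁻¹ * (ζ ^ k)⁻¹) ^ N = 1 := by
    rw [mul_pow, mul_pow, inv_pow, inv_pow, hp, hp, hp]; simp
  rw [fj_geo hw]
  have hiff : ζ ^ s * (ζ ^ t)⁻¹ * (ζ ^ k)⁻¹ = 1 ↔ s = t + k := by
    have h1 : ζ ^ t ≠ 0 := pow_ne_zero _ hz
    have h2 : ζ ^ k ≠ 0 := pow_ne_zero _ hz
    rw [mul_assoc, ← mul_inv, ← pow_add, mul_inv_eq_one₀ (pow_ne_zero _ hz)]
    constructor
    · intro h
      exact hζ.pow_inj (by omega) (by omega) h
    · rintro rfl; rfl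
  simp only [hiff]

private theorem fj_conj {ζ : ℂ} (hn : ‖ζ‖ = 1) (m r : ℕ) :
    (((‖∑ s ∈ Finset.range m, (ζ ^ s) ^ r‖ ^ 2 : ℝ)) : ℂ) =
      (∑ s ∈ Finset.range m, (ζ ^ s) ^ r) * (∑ t ∈ Finset.range m, ((ζ ^ t)⁻¹) ^ r) := by
  have h1 : (∑ t ∈ Finset.range m, ((ζ ^ t)⁻¹) ^ r) =
      (starRingEnd ℂ) (∑ s ∈ Finset.range m, (ζ ^ s) ^ r) := by
    rw [map_sum]
    refine Finset.sum_congr rfl fun t _ => ?_
    rw [map_pow, ← Complex.inv_eq_conj (by rw [norm_pow, hn, one_pow])]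
  rw [h1, Complex.mul_conj, Complex.normSq_eq_norm_sq]

theorem fejer {m n : ℕ} (h1 : 1 ≤ m) (hmn : m ≤ n) (a : ℕ → ℝ) :
    nrm m (fun i => (1 - ((i : ℝ) + 1) / m) * a i) ≤ nrm n a := by
  set N : ℕ := n + m + 1 with hN
  have hN0 : 0 < N := by omega
  have hm0 : (m : ℝ) ≠ 0 := by positivity
  have hmc : (m : ℂ) ≠ 0 := by exact_mod_cast (by omega : m ≠ 0)
  obtain ⟨ζ, hζ⟩ : ∃ ζ : ℂ, IsPrimitiveRoot ζ N := ⟨_, Complex.isPrimitiveRoot_exp N hN0.ne'⟩
  have hn : ‖ζ‖ = 1 := hζ.norm'_eq_one hN0.ne'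
  have hz0 : ζ ≠ 0 := hζ.ne_zero hN0.ne'
  set K : ℕ → ℝ := fun r => ‖∑ s ∈ Finset.range m, (ζ ^ s) ^ r‖ ^ 2 with hK
  have hK0 : ∀ r, 0 ≤ K r := fun r => by positivity
  -- the total mass
  have hmass : ∑ r ∈ Finset.range N, K r = N * m := by
    have h := fj_core (m := m) (k := 0) hζ (by omega) hN0
    have e : (((∑ r ∈ Finset.range N, K r : ℝ)) : ℂ) = ((N * m : ℝ) : ℂ) := by
      rw [Complex.ofReal_sum]
      push_cast
      rw [Nat.sub_zero] at h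
      rw [← h]
      refine Finset.sum_congr rfl fun r _ => ?_
      have := fj_conj hn m r
      rw [pow_zero, inv_one, one_pow, mul_one, ← this]
    exact_mod_cast e
  refine nrm_le fun z hz => ?_
  -- the representation
  have hrep : ∑ r ∈ Finset.range N, (K r : ℂ) * pol n a (z * (ζ⁻¹) ^ r) =
      (N * m : ℂ) * pol m (fun i => (1 - ((i : ℝ) + 1) / m) * a i) z := by
    have e1 : ∀ r ∈ Finset.range N, (K r : ℂ) * pol n a (z * (ζ⁻¹) ^ r) =
        ∑ i ∈ Finset.range n, ((a i : ℂ) * z ^ (i + 1)) *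
          ((∑ s ∈ Finset.range m, (ζ ^ s) ^ r) * (∑ t ∈ Finset.range m, ((ζ ^ t)⁻¹) ^ r) *
            ((ζ ^ (i + 1))⁻¹) ^ r) := by
      intro r _
      unfold pol
      rw [Finset.mul_sum]
      refine Finset.sum_congr rfl fun i _ => ?_
      have := fj_conj hn m r
      rw [show (K r : ℂ) = (∑ s ∈ Finset.range m, (ζ ^ s) ^ r) *
        (∑ t ∈ Finset.range m, ((ζ ^ t)⁻¹) ^ r) from this, mul_pow]
      have e2 : (ζ⁻¹ ^ r) ^ (i + 1) = ((ζ ^ (i + 1))⁻¹) ^ r := by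
        rw [← pow_mul, mul_comm r, pow_mul, inv_pow]
      rw [e2]
      ring
    rw [Finset.sum_congr rfl e1, Finset.sum_comm]
    have e3 : ∀ i ∈ Finset.range n, ∑ r ∈ Finset.range N, ((a i : ℂ) * z ^ (i + 1)) *
          ((∑ s ∈ Finset.range m, (ζ ^ s) ^ r) * (∑ t ∈ Finset.range m, ((ζ ^ t)⁻¹) ^ r) *
            ((ζ ^ (i + 1))⁻¹) ^ r) = ((a i : ℂ) * z ^ (i + 1)) * (N * ((m - (i + 1) : ℕ) : ℂ)) := by
      intro i hi
      have hi' := Finset.mem_range.1 hi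
      rw [← Finset.mul_sum, fj_core hζ (by omega) hN0]
    rw [Finset.sum_congr rfl e3]
    have e4 : ∑ i ∈ Finset.range n, ((a i : ℂ) * z ^ (i + 1)) * (N * ((m - (i + 1) : ℕ) : ℂ)) =
        ∑ i ∈ Finset.range m, ((a i : ℂ) * z ^ (i + 1)) * (N * ((m - (i + 1) : ℕ) : ℂ)) := by
      symm
      refine Finset.sum_subset (Finset.range_mono hmn) fun i _ hi => ?_
      have : m - (i + 1) = 0 := by
        have h' : ¬ i < m := fun h => hi (Finset.mem_range.2 h)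
        omega
      rw [this, Nat.cast_zero, mul_zero, mul_zero]
    rw [e4]
    unfold pol
    rw [Finset.mul_sum]
    refine Finset.sum_congr rfl fun i hi => ?_
    have hi' := Finset.mem_range.1 hi
    rw [Nat.cast_sub (by omega : i + 1 ≤ m)]
    push_cast
    field_simp
  have hle : ‖(N * m : ℂ) * pol m (fun i => (1 - ((i : ℝ) + 1) / m) * a i) z‖ ≤ N * m * nrm n a := by
    rw [← hrep, ← hmass, Finset.sum_mul]
    refine (norm_sum_le _ _).trans (Finset.sum_le_sum fun r _ => ?_)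
    rw [norm_mul, Complex.norm_real, Real.norm_eq_abs, abs_of_nonneg (hK0 r)]
    refine mul_le_mul_of_nonneg_left (norm_pol_le n a ?_) (hK0 r)
    rw [norm_mul, norm_pow, norm_inv, hn, hz]
    simp
  rw [norm_mul] at hle
  have hNm : ‖(N * m : ℂ)‖ = (N * m : ℝ) := by
    rw [norm_mul, Complex.norm_natCast, Complex.norm_natCast]
  rw [hNm] at hle
  have hpos : (0 : ℝ) < N * m := by
    have : (0 : ℝ) < N := by exact_mod_cast hN0
    have : (0 : ℝ) < m := by exact_mod_cast h1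
    positivity
  exact le_of_mul_le_mul_left hle hpos

theorem Fx_le_Mx {m n : ℕ} (h1 : 1 ≤ m) (hmn : m ≤ n) (x : ℕ → ℝ) : Fx m x ≤ Mx n x :=
  fejer h1 hmn fun i => wt i * x i

end H13.LL
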