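import Pool.Agent.H13.LL.Star

/-! # LL.NuA : the law `nu μ A`, about 150 lines

`nu_prob`: image of a probability measure. `nu_bdd`: under `cond μ B` almost all `y` have `|y| ≤ A` (`ProbabilityTheory.cond_apply`; `ae_cond_mem`), so `|y - y'| ≤ 2 A` almost surely.
`nu_mean`: `∫ x d(nu) = ∫ (if |x| ≤ A then y - y' else 0) = 0` by Fubini and symmetry (the map `(x, (y, y')) ↦ (x, (y', y))` preserves the product and changes the sign), everything is bounded.
`nu_var`: with `p = μ B`, `∫ x² d(nu) = p ∫∫ (y - y')² dμ_s dμ_s = (1/p) ∫∫_{B × B} (y - y')² dμ dμ ≥ ∫∫_{B × B} (y - y')² dμ dμ` (`p ≤ 1`). If it were `≤ K` for infinitely many `A = k`, by monotone convergence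
`∫∫ (y - y')² dμ dμ ≤ K < ∞` (use `lintegral` of `ENNReal.ofReal`), so for some `y'` the integral `∫ (y - y')² dμ(y)` is finite and `μ` has a finite second moment, contradiction to `h2`. -/

set_option autoImplicit false

namespace H13.LL

open MeasureTheory ProbabilityTheory Filter Topology

private theorem nu_ball (A : ℝ) : MeasurableSet {x : ℝ | |x| ≤ A} :=
  measurableSet_le measurable_id.abs measurable_const

/-- the function -/
private noncomputable def nuF (A : ℝ) (p : ℝ × (ℝ × ℝ)) : ℝ := if |p.1| ≤ A then p.2.1 - p.2.2 else 0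

private theorem nuF_meas (A : ℝ) : Measurable (nuF A) := by
  unfold nuF
  exact Measurable.ite (measurableSet_le measurable_fst.abs measurable_const)
    ((measurable_fst.comp measurable_snd).sub (measurable_snd.comp measurable_snd)) measurable_const

private theorem nu_eq (μ : Measure ℝ) (A : ℝ) : nu μ A =
    (μ.prod ((ProbabilityTheory.cond μ {x | |x| ≤ A}).prod (ProbabilityTheory.cond μ {x | |x| ≤ A}))).map
      (nuF A) := rfl

theorem nu_prob (μ : Measure ℝ) [IsProbabilityMeasure μ] {A : ℝ} (hA : μ {x | |x| ≤ A} ≠ 0) :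
    IsProbabilityMeasure (nu μ A) := by
  have := ProbabilityTheory.cond_isProbabilityMeasure hA
  rw [nu_eq]
  exact Measure.isProbabilityMeasure_map (nuF_meas A).aemeasurable

private theorem nu_A {μ : Measure ℝ} {A : ℝ} (hA : μ {x | |x| ≤ A} ≠ 0) : 0 ≤ A := by
  by_contra h
  push Not at h
  apply hA
  have : {x : ℝ | |x| ≤ A} = ∅ := by
    ext x
    simp only [Set.mem_ofPred_eq, Set.mem_empty_iff_false, iff_false, not_le]
    exact h.trans_le (abs_nonneg x)
  rw [this, measure_empty]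

theorem nu_bdd (μ : Measure ℝ) [IsProbabilityMeasure μ] {A : ℝ} (hA : μ {x | |x| ≤ A} ≠ 0) :
    ∀ᵐ x ∂(nu μ A), |x| ≤ 2 * A := by
  have := ProbabilityTheory.cond_isProbabilityMeasure hA
  have hA0 := nu_A hA
  have hms : MeasurableSet {x : ℝ | |x| ≤ 2 * A} := nu_ball (2 * A)
  rw [nu_eq, ae_map_iff (nuF_meas A).aemeasurable hms]
  have h0 : ∀ᵐ x ∂(ProbabilityTheory.cond μ {x | |x| ≤ A}), |x| ≤ A :=
    ProbabilityTheory.ae_cond_mem (nu_ball A)
  have h1 : ∀ᵐ q ∂((ProbabilityTheory.cond μ {x | |x| ≤ A}).prod (ProbabilityTheory.cond μ {x | |x| ≤ A})),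
      |q.1| ≤ A ∧ |q.2| ≤ A :=
    (Measure.quasiMeasurePreserving_fst.ae h0).and (Measure.quasiMeasurePreserving_snd.ae h0)
  have h2 : ∀ᵐ p ∂(μ.prod ((ProbabilityTheory.cond μ {x | |x| ≤ A}).prod
      (ProbabilityTheory.cond μ {x | |x| ≤ A}))), |p.2.1| ≤ A ∧ |p.2.2| ≤ A :=
    Measure.quasiMeasurePreserving_snd.ae h1
  filter_upwards [h2] with p hp
  unfold nuF
  split_ifs
  · have h3 := abs_sub p.2.1 p.2.2
    linarith [hp.1, hp.2]
  · rw [abs_zero]
    linarith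

theorem nu_mean (μ : Measure ℝ) [IsProbabilityMeasure μ] {A : ℝ} (hA : μ {x | |x| ≤ A} ≠ 0) :
    ∫ x, x ∂(nu μ A) = 0 := by
  have := ProbabilityTheory.cond_isProbabilityMeasure hA
  obtain ⟨c, hc⟩ : ∃ c, c = ProbabilityTheory.cond μ {x | |x| ≤ A} := ⟨_, rfl⟩
  have hcp : IsProbabilityMeasure c := by rw [hc]; infer_instance
  have hid : AEStronglyMeasurable (fun x : ℝ => x) (Measure.map (nuF A) (μ.prod (c.prod c))) :=
    measurable_id.aestronglyMeasurable
  rw [nu_eq, ← hc, integral_map (nuF_meas A).aemeasurable hid]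
  have h1 : MeasurePreserving (Prod.map id Prod.swap : ℝ × (ℝ × ℝ) → ℝ × (ℝ × ℝ))
      (μ.prod (c.prod c)) (μ.prod (c.prod c)) :=
    (MeasurePreserving.id μ).prod Measure.measurePreserving_swap
  have h2 : ∫ p, nuF A p ∂(μ.prod (c.prod c)) = ∫ p, nuF A (Prod.map id Prod.swap p) ∂(μ.prod (c.prod c)) := by
    have h3 := integral_map h1.measurable.aemeasurable
      (f := nuF A) (μ := μ.prod (c.prod c)) (nuF_meas A).aestronglyMeasurable
    rw [h1.map_eq] at h3
    exact h3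
  have h3 : ∀ p : ℝ × (ℝ × ℝ), nuF A (Prod.map id Prod.swap p) = -nuF A p := by
    rintro ⟨x, y, z⟩
    unfold nuF
    simp only [Prod.map_apply, id_eq, Prod.swap_prod_mk]
    split_ifs
    · ring
    · ring
  rw [integral_congr_ae (Filter.Eventually.of_forall h3), integral_neg] at h2
  linarith

private theorem nu_lint (μ : Measure ℝ) [IsProbabilityMeasure μ] {A : ℝ} (hA : μ {x | |x| ≤ A} ≠ 0) :
    ∫⁻ y in {x | |x| ≤ A}, ∫⁻ z in {x | |x| ≤ A}, ENNReal.ofReal ((y - z) ^ 2) ∂μ ∂μ ≤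
      ∫⁻ x, ENNReal.ofReal (x ^ 2) ∂(nu μ A) := by
  obtain ⟨B, hB⟩ : ∃ B, B = {x : ℝ | |x| ≤ A} := ⟨_, rfl⟩
  have hBm : MeasurableSet B := by rw [hB]; exact nu_ball A
  have := ProbabilityTheory.cond_isProbabilityMeasure hA
  obtain ⟨c, hc⟩ : ∃ c, c = ProbabilityTheory.cond μ {x | |x| ≤ A} := ⟨_, rfl⟩
  have hcp : IsProbabilityMeasure c := by rw [hc]; infer_instance
  rw [nu_eq, ← hc, ← hB]
  rw [← hB] at hA hc
  have hcr : c = (μ B)⁻¹ • μ.restrict B := hc
  have hle : μ.restrict B ≤ c := by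
    rw [hcr]
    have h1 : (1 : ENNReal) ≤ (μ B)⁻¹ := ENNReal.one_le_inv.2 prob_le_one
    intro s
    rw [Measure.smul_apply, smul_eq_mul]
    exact le_mul_of_one_le_left (zero_le) h1
  have hF : Measurable fun q : ℝ × ℝ => ENNReal.ofReal ((q.1 - q.2) ^ 2) :=
    ((measurable_fst.sub measurable_snd).pow_const 2).ennreal_ofReal
  have hsq : Measurable fun x : ℝ => ENNReal.ofReal (x ^ 2) := (measurable_id.pow_const 2).ennreal_ofReal
  have hcomp : Measurable fun p : ℝ × (ℝ × ℝ) => ENNReal.ofReal ((nuF A p) ^ 2) := hsq.comp (nuF_meas A)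
  rw [lintegral_map hsq (nuF_meas A), lintegral_prod _ hcomp.aemeasurable]
  have h1 : ∫⁻ x in B, ∫⁻ q, ENNReal.ofReal ((nuF A (x, q)) ^ 2) ∂(c.prod c) ∂μ ≤
      ∫⁻ x, ∫⁻ q, ENNReal.ofReal ((nuF A (x, q)) ^ 2) ∂(c.prod c) ∂μ := setLIntegral_le_lintegral _ _
  refine le_trans ?_ h1
  have h2 : ∫⁻ x in B, ∫⁻ q, ENNReal.ofReal ((nuF A (x, q)) ^ 2) ∂(c.prod c) ∂μ =
      ∫⁻ x in B, ∫⁻ q, ENNReal.ofReal ((q.1 - q.2) ^ 2) ∂(c.prod c) ∂μ := by
    refine setLIntegral_congr_fun hBm fun x hx => ?_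
    have hx' : |x| ≤ A := by rw [hB] at hx; exact hx
    refine lintegral_congr fun q => ?_
    unfold nuF
    rw [if_pos hx']
  rw [h2, setLIntegral_const, lintegral_prod _ hF.aemeasurable]
  have h3 : ∫⁻ y, ∫⁻ z, ENNReal.ofReal ((y - z) ^ 2) ∂c ∂c =
      (μ B)⁻¹ * ∫⁻ y in B, ∫⁻ z, ENNReal.ofReal ((y - z) ^ 2) ∂c ∂μ := by
    conv_lhs => rw [hcr]
    rw [lintegral_smul_measure, smul_eq_mul, ← hcr]
  have h4 : (∫⁻ y, ∫⁻ z, ENNReal.ofReal ((y - z) ^ 2) ∂c ∂c) * μ B =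
      ∫⁻ y in B, ∫⁻ z, ENNReal.ofReal ((y - z) ^ 2) ∂c ∂μ := by
    rw [h3, mul_comm, ← mul_assoc, ENNReal.mul_inv_cancel hA (measure_ne_top μ B), one_mul]
  change _ ≤ (∫⁻ y, ∫⁻ z, ENNReal.ofReal ((y - z) ^ 2) ∂c ∂c) * μ B
  rw [h4]
  exact lintegral_mono fun y => lintegral_mono' hle le_rfl

theorem nu_var (μ : Measure ℝ) [IsProbabilityMeasure μ] (h2 : ¬ MemLp (id : ℝ → ℝ) 2 μ) (K : ℝ) :
    ∃ A : ℝ, μ {x | |x| ≤ A} ≠ 0 ∧ K ≤ ∫ x, x ^ 2 ∂(nu μ A) := by
  by_contra hcon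
  push Not at hcon
  apply h2
  -- the square integral over the boxes
  have hbox : ∀ A : ℝ, ∫⁻ q in {x | |x| ≤ A} ×ˢ {x | |x| ≤ A}, ENNReal.ofReal ((q.1 - q.2) ^ 2) ∂(μ.prod μ) ≤
      ENNReal.ofReal K := by
    intro A
    have hF : Measurable fun q : ℝ × ℝ => ENNReal.ofReal ((q.1 - q.2) ^ 2) :=
      ((measurable_fst.sub measurable_snd).pow_const 2).ennreal_ofReal
    rw [← Measure.prod_restrict, lintegral_prod _ hF.aemeasurable]
    by_cases hA : μ {x | |x| ≤ A} = 0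
    · rw [Measure.restrict_eq_zero.2 hA, lintegral_zero_measure]
      exact zero_le
    · have := nu_prob μ hA
      refine (nu_lint μ hA).trans ?_
      have hint : Integrable (fun x : ℝ => x ^ 2) (nu μ A) := by
        refine Integrable.of_bound (C := (2 * A) ^ 2) (measurable_id.pow_const 2).aestronglyMeasurable ?_
        filter_upwards [nu_bdd μ hA] with x hx
        rw [Real.norm_eq_abs, abs_pow]
        exact pow_le_pow_left₀ (abs_nonneg _) hx 2
      rw [← ofReal_integral_eq_lintegral_ofReal hint (Filter.Eventually.of_forall fun x => sq_nonneg x)]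
      exact ENNReal.ofReal_le_ofReal (hcon A hA).le
  have hall : ∫⁻ y, ∫⁻ z, ENNReal.ofReal ((y - z) ^ 2) ∂μ ∂μ ≤ ENNReal.ofReal K := by
    have hF : Measurable fun q : ℝ × ℝ => ENNReal.ofReal ((q.1 - q.2) ^ 2) :=
      ((measurable_fst.sub measurable_snd).pow_const 2).ennreal_ofReal
    have h1 : (⋃ n : ℕ, ({x : ℝ | |x| ≤ n} ×ˢ {x : ℝ | |x| ≤ n})) = (Set.univ : Set (ℝ × ℝ)) := by
      refine Set.eq_univ_of_forall fun q => ?_
      obtain ⟨n, hn⟩ := exists_nat_ge (max |q.1| |q.2|)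
      exact Set.mem_iUnion.2 ⟨n, (le_max_left _ _).trans hn, (le_max_right _ _).trans hn⟩
    have h3 : Directed (· ⊆ ·) fun n : ℕ => ({x : ℝ | |x| ≤ n} ×ˢ {x : ℝ | |x| ≤ n}) := by
      refine (monotone_nat_of_le_succ fun n => ?_).directed_le
      rintro ⟨a, b⟩ ⟨ha, hb⟩
      have h4 : (n : ℝ) ≤ ((n + 1 : ℕ) : ℝ) := by push_cast; linarith
      have ha' : |a| ≤ n := ha
      have hb' : |b| ≤ n := hb
      exact ⟨ha'.trans h4, hb'.trans h4⟩
    have h5 := setLIntegral_iUnion_of_directed (μ := μ.prod μ)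
      (fun q : ℝ × ℝ => ENNReal.ofReal ((q.1 - q.2) ^ 2)) h3
    rw [h1, Measure.restrict_univ, lintegral_prod _ hF.aemeasurable] at h5
    refine h5.le.trans (iSup_le fun n => hbox n)
  have hae : ∀ᵐ y ∂μ, ∫⁻ z, ENNReal.ofReal ((y - z) ^ 2) ∂μ < ⊤ := by
    have hF : Measurable fun q : ℝ × ℝ => ENNReal.ofReal ((q.1 - q.2) ^ 2) :=
      ((measurable_fst.sub measurable_snd).pow_const 2).ennreal_ofReal
    exact ae_lt_top hF.lintegral_prod_right' (hall.trans_lt ENNReal.ofReal_lt_top).ne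
  obtain ⟨y, hy⟩ := hae.exists
  have hm : Measurable fun z : ℝ => y - z := measurable_const.sub measurable_id
  have h5 : MemLp (fun z : ℝ => y - z) 2 μ := by
    rw [memLp_two_iff_integrable_sq hm.aestronglyMeasurable]
    rw [← lintegral_ofReal_ne_top_iff_integrable (hm.pow_const 2).aestronglyMeasurable
      (Filter.Eventually.of_forall fun z => sq_nonneg _)]
    exact hy.ne
  have h6 : MemLp (fun _ : ℝ => y) 2 μ := memLp_const y
  have h7 := h6.sub h5
  refine h7.congr_norm measurable_id.aestronglyMeasurable (Filter.Eventually.of_forall fun z => ?_)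
  simp

end H13.LL
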