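import Pool.Agent.H13.LL.LowF
import Pool.Agent.H13.LL.NuA

/-! # LL.Inf : Fejer means for an infinite second moment, about 130 lines

Let `μ = P.map (ξ 0)`, not in `L²` (`memLp_map_measure_iff`); choose `A` with `∫ x² d(nu μ A) ≥ (2 T + 3)²` (`nu_var`; we may assume `T ≥ 0`, the set grows with `T`). On `ℕ → ℝ` with `P' = Measure.infinitePi (fun _ => nu μ A)` the coordinates
`x ↦ x k` are `Sq` (`iIndepFun_infinitePi`, `measurePreserving_eval_infinitePi`, `nu_mean`, `nu_bdd`), with `sd ≥ 2 T + 3`. `low_fejer` with `ε = 1`: `P' {Fx m ≤ (2 T + 2) log m} ≤ C / log m` for large `m`.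
Let `f x = Fx m (fun i => if h : i < m then x ⟨i, h⟩ else 0)` on `Fin m → ℝ` (`nrm_congr`, `measurable_Fx`, `nrm_sub_le`). The law of `(ξ i)_{i<m}` is `Measure.pi (fun _ => μ)` (`iIndepFun_iff_map_fun_eq_pi_map`, `IdentDistrib.map_eq`), the law of
the first `m` coordinates under `P'` is `Measure.pi (fun _ => nu μ A)`. `star` with `t = (T + 1) log m` (`log m > 0`): `P {Fx m ≤ T log m}² ≤ P {Fx m < (T+1) log m}² ≤ P' {Fx m < 2 (T + 1) log m} ≤ C / log m`.
Take square roots: `≤ √C (log m)^(-1/2)` (`Real.sqrt_eq_rpow`). -/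

set_option autoImplicit false

namespace H13.LL

open MeasureTheory ProbabilityTheory Filter Topology

variable {Ω : Type*} [MeasurableSpace Ω] {P : Measure Ω} [IsProbabilityMeasure P] {ξ : ℕ → Ω → ℝ}

/-- extension by zero of a vector with `m` entries -/
private noncomputable def ext0 {m : ℕ} (x : Fin m → ℝ) (i : ℕ) : ℝ := if h : i < m then x ⟨i, h⟩ else 0

private theorem ext0_meas (m : ℕ) : Measurable (fun x : Fin m → ℝ => (ext0 x : ℕ → ℝ)) := by
  rw [measurable_pi_iff]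
  intro i
  unfold ext0
  split_ifs with h
  · exact measurable_pi_apply _
  · exact measurable_const

private theorem Fx_ext0 (m : ℕ) (y : ℕ → ℝ) : Fx m (ext0 (fun i : Fin m => y i)) = Fx m y := by
  unfold Fx
  refine nrm_congr fun i hi => ?_
  unfold ext0
  rw [dif_pos hi]

private theorem Fx_sub (m : ℕ) (x y : Fin m → ℝ) :
    Fx m (ext0 fun i => x i - y i) ≤ Fx m (ext0 x) + Fx m (ext0 y) := by
  have e : Fx m (ext0 fun i => x i - y i) =
      nrm m (fun i => (1 - ((i : ℝ) + 1) / m) * (wt i * ext0 x i) -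
        (1 - ((i : ℝ) + 1) / m) * (wt i * ext0 y i)) := by
    unfold Fx
    refine nrm_congr fun i hi => ?_
    unfold ext0
    rw [dif_pos hi, dif_pos hi, dif_pos hi]
    ring
  rw [e]
  exact nrm_sub_le m _ _

/-- the law of the first `m` terms -/
private theorem iid_law (h : IID P ξ) (m : ℕ) :
    P.map (fun ω (i : Fin m) => ξ i ω) = Measure.pi (fun _ : Fin m => P.map (ξ 0)) := by
  have h1 : iIndepFun (fun i : Fin m => ξ i) P :=
    h.ind.precomp (g := fun i : Fin m => (i : ℕ)) Fin.val_injective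
  have h2 := (iIndepFun_iff_map_fun_eq_pi_map (f := fun i : Fin m => ξ i)
    (fun i => (h.meas i).aemeasurable)).1 h1
  rw [h2]
  congr 1
  funext i
  exact (h.idd i).map_eq

private theorem iid_real (h : IID P ξ) (m : ℕ) {S : Set (Fin m → ℝ)} (hS : MeasurableSet S) :
    (Measure.pi (fun _ : Fin m => P.map (ξ 0))).real S = P.real {ω | (fun i : Fin m => ξ i ω) ∈ S} := by
  have hm : Measurable (fun ω (i : Fin m) => ξ i ω) := measurable_pi_iff.2 fun i => h.meas i
  rw [← iid_law h m, Measure.real, Measure.map_apply hm hS]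
  rfl

private theorem sq_nu {ν : Measure ℝ} [IsProbabilityMeasure ν] {A : ℝ} (hb : ∀ᵐ x ∂ν, |x| ≤ 2 * A)
    (hm : ∫ x, x ∂ν = 0) : Sq (Measure.infinitePi (fun _ : ℕ => ν)) (fun k (x : ℕ → ℝ) => x k) ∧
      (Measure.infinitePi (fun _ : ℕ => ν)).map (fun x : ℕ → ℝ => x 0) = ν ∧
      sd (Measure.infinitePi (fun _ : ℕ => ν)) (fun k (x : ℕ → ℝ) => x k) = √(∫ x, x ^ 2 ∂ν) := by
  have hmap : ∀ k, (Measure.infinitePi (fun _ : ℕ => ν)).map (fun x : ℕ → ℝ => x k) = ν := fun k =>
    (measurePreserving_eval_infinitePi (fun _ : ℕ => ν) k).map_eq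
  have hmem : MemLp (id : ℝ → ℝ) 2 ν := by
    refine MemLp.of_bound measurable_id.aestronglyMeasurable (2 * A) ?_
    filter_upwards [hb] with x hx
    rwa [Real.norm_eq_abs]
  refine ⟨⟨⟨fun k => measurable_pi_apply k, ?_, fun k => ⟨(measurable_pi_apply k).aemeasurable,
    (measurable_pi_apply 0).aemeasurable, ?_⟩⟩, ?_, ?_⟩, hmap 0, ?_⟩
  · exact iIndepFun_infinitePi (X := fun _ x => x) (fun _ => measurable_id)
  · rw [hmap k, hmap 0]
  · have h1 : MemLp (id : ℝ → ℝ) 2 ((Measure.infinitePi (fun _ : ℕ => ν)).map (fun x : ℕ → ℝ => x 0)) := by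
      rw [hmap 0]
      exact hmem
    exact (memLp_map_measure_iff measurable_id.aestronglyMeasurable
      (measurable_pi_apply 0).aemeasurable).1 h1
  · have h1 := integral_map (μ := Measure.infinitePi (fun _ : ℕ => ν)) (φ := fun x : ℕ → ℝ => x 0)
      (measurable_pi_apply 0).aemeasurable (f := fun y : ℝ => y) measurable_id.aestronglyMeasurable
    rw [hmap 0, hm] at h1
    exact h1.symm
  · unfold sd
    congr 1
    have h1 := integral_map (μ := Measure.infinitePi (fun _ : ℕ => ν)) (φ := fun x : ℕ → ℝ => x 0)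
      (measurable_pi_apply 0).aemeasurable (f := fun y : ℝ => y ^ 2)
      (measurable_id.pow_const 2).aestronglyMeasurable
    rw [hmap 0] at h1
    exact h1.symm

theorem inf_low (h : IID P ξ) (h2 : ¬ MemLp (ξ 0) 2 P) (T : ℝ) :
    ∃ C : ℝ, ∀ᶠ m : ℕ in atTop,
      P.real {ω | Fx m (fun i => ξ i ω) ≤ T * Real.log m} ≤ C * (Real.log m) ^ (-(1 / 2) : ℝ) := by
  set T' : ℝ := max T 0 with hT'
  have hT0 : 0 ≤ T' := le_max_right _ _
  have hTT : T ≤ T' := le_max_left _ _
  have hμ : IsProbabilityMeasure (P.map (ξ 0)) := Measure.isProbabilityMeasure_map (h.meas 0).aemeasurable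
  have h2' : ¬ MemLp (id : ℝ → ℝ) 2 (P.map (ξ 0)) := by
    intro hcon
    apply h2
    exact (memLp_map_measure_iff measurable_id.aestronglyMeasurable (h.meas 0).aemeasurable).1 hcon
  obtain ⟨A, hA, hvar⟩ := nu_var (P.map (ξ 0)) h2' ((2 * T' + 3) ^ 2)
  have hν : IsProbabilityMeasure (nu (P.map (ξ 0)) A) := nu_prob _ hA
  obtain ⟨hsq, hmap, hsd⟩ := sq_nu (nu_bdd (P.map (ξ 0)) hA) (nu_mean (P.map (ξ 0)) hA)
  have hsd3 : 2 * T' + 3 ≤ sd (Measure.infinitePi (fun _ : ℕ => nu (P.map (ξ 0)) A)) (fun k (x : ℕ → ℝ) => x k) := by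
    rw [hsd]
    exact Real.le_sqrt_of_sq_le hvar
  obtain ⟨C, hC, hev⟩ := low_fejer hsq (ε := 1) one_pos
  refine ⟨√C, ?_⟩
  have hlog : Tendsto (fun m : ℕ => Real.log (m : ℝ)) atTop atTop :=
    Real.tendsto_log_atTop.comp tendsto_natCast_atTop_atTop
  filter_upwards [hev, hlog.eventually_ge_atTop 1] with m hm1 hm2
  have hl : 0 < Real.log m := by linarith
  set f : (Fin m → ℝ) → ℝ := fun x => Fx m (ext0 x) with hf
  have hfm : Measurable f := (measurable_Fx m).comp (ext0_meas m)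
  have h3 := star (P.map (ξ 0)) hA m f hfm (Fx_sub m) ((T' + 1) * Real.log m)
  have hS : ∀ t : ℝ, MeasurableSet {x : Fin m → ℝ | f x < t} := fun t => measurableSet_lt hfm measurable_const
  rw [iid_real h m (hS _)] at h3
  have h4 := iid_real hsq.toIID m (hS (2 * ((T' + 1) * Real.log m)))
  rw [hmap] at h4
  rw [h4] at h3
  have h5 : P.real {ω | Fx m (fun i => ξ i ω) ≤ T * Real.log m} ≤
      P.real {ω | (fun i : Fin m => ξ i ω) ∈ {x : Fin m → ℝ | f x < (T' + 1) * Real.log m}} := by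
    refine measureReal_mono ?_
    intro ω hω
    have hω' : Fx m (fun i => ξ i ω) ≤ T * Real.log m := hω
    show Fx m (ext0 (fun i : Fin m => ξ i ω)) < (T' + 1) * Real.log m
    rw [Fx_ext0 m (fun i => ξ i ω)]
    have h6 : T * Real.log m ≤ T' * Real.log m := mul_le_mul_of_nonneg_right hTT hl.le
    nlinarith
  have h6 : (Measure.infinitePi (fun _ : ℕ => nu (P.map (ξ 0)) A)).real
      {ω : ℕ → ℝ | (fun i : Fin m => ω i) ∈ {x : Fin m → ℝ | f x < 2 * ((T' + 1) * Real.log m)}} ≤ C / Real.log m := by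
    refine le_trans (measureReal_mono ?_) hm1
    intro ω hω
    have hω' : Fx m (ext0 (fun i : Fin m => ω i)) < 2 * ((T' + 1) * Real.log m) := hω
    rw [Fx_ext0 m ω] at hω'
    show Fx m (fun i => ω i) ≤ _
    have h7 : 2 * ((T' + 1) * Real.log m) ≤
        (sd (Measure.infinitePi (fun _ : ℕ => nu (P.map (ξ 0)) A)) (fun k (x : ℕ → ℝ) => x k) - 1) * Real.log m := by
      have := mul_le_mul_of_nonneg_right hsd3 hl.le
      nlinarith
    exact hω'.le.trans h7
  have h7 : P.real {ω | (fun i : Fin m => ξ i ω) ∈ {x : Fin m → ℝ | f x < (T' + 1) * Real.log m}} ^ 2 ≤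
      C / Real.log m := h3.trans h6
  refine h5.trans ?_
  have h8 := Real.le_sqrt_of_sq_le h7
  refine h8.trans (le_of_eq ?_)
  rw [Real.sqrt_div hC, Real.rpow_neg hl.le, ← Real.sqrt_eq_rpow]
  ring

end H13.LL
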