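import Pool.Agent.H13.LL.Defs
import Pool.Agent.H38.LC.Final

/-! # LL.Old : the law of large numbers with an exponential moment (landed theorem of helper38)

Copy of the proof of `Pool.Agent.Results.MP_fb643f_pr.LawOfLargeNumbers.result` with `Mx`. -/

set_option autoImplicit false

namespace H13.LL

open MeasureTheory ProbabilityTheory Filter Topology

variable {Ω : Type*} [MeasurableSpace Ω] {P : Measure Ω} [IsProbabilityMeasure P] {ξ : ℕ → Ω → ℝ}

private lemma old_pol {Ω : Type*} (ξ : ℕ → Ω → ℝ) (n : ℕ) (ω : Ω) (z : ℂ) :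
    pol n (fun i => wt i * ξ i ω) z =
      Pool.Agent.H38.LC.pol (fun k => (Pool.Agent.H38.LC.co (fun k => ξ (k - 1)) ω k : ℂ))
        (Finset.Ioc 0 n) z := by
  rw [pol, Pool.Agent.H38.LC.pol]
  have h1 : Finset.Ioc 0 n = (Finset.range n).image (fun i => i + 1) := by
    ext k
    simp only [Finset.mem_Ioc, Finset.mem_image, Finset.mem_range]
    constructor
    · intro h; exact ⟨k - 1, by omega, by omega⟩
    · rintro ⟨i, hi, rfl⟩; omega
  rw [h1, Finset.sum_image (fun x _ y _ h => by omega)]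
  refine Finset.sum_congr rfl fun i _ => ?_
  have e : Pool.Agent.H38.LC.co (fun k => ξ (k - 1)) ω (i + 1) = wt i * ξ i ω := by
    simp only [Pool.Agent.H38.LC.co, wt, Nat.add_sub_cancel, Nat.cast_add, Nat.cast_one]
    ring
  rw [e]

theorem old (h : IID P ξ) (hmean : ∫ ω, ξ 0 ω ∂P = 0) (hvar : ∫ ω, ξ 0 ω ^ 2 ∂P = 1)
    (hexp : ∃ c : ℝ, 0 < c ∧ Integrable (fun ω => Real.exp (c * |ξ 0 ω|)) P) {ε : ℝ} (hε : 0 < ε) :
    Tendsto (fun n : ℕ => P.real {ω | ε ≤ |Mx n (fun i => ξ i ω) / Real.log n - 1|}) atTop (𝓝 0) := by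
  obtain ⟨hmeas, hindep, hident⟩ := h
  obtain ⟨c, hc, hint⟩ := hexp
  obtain ⟨s₀, hs₀, C, hC, hG⟩ :=
    Pool.Agent.H38.LC.good_of_iid hmeas hindep hident hmean hvar hc hint
  have hint0 : Integrable (ξ 0) P := by
    refine (hint.const_mul (1 / c)).mono' (hmeas 0).aestronglyMeasurable
      (Eventually.of_forall fun ω => ?_)
    rw [Real.norm_eq_abs]
    have := Real.add_one_le_exp (c * |ξ 0 ω|)
    rw [div_mul_eq_mul_div, one_mul, le_div_iff₀ hc]
    nlinarith
  have hint' : ∀ k, Integrable ((fun k => ξ (k - 1)) k) P := fun k =>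
    (hident (k - 1)).integrable_iff.2 hint0
  have hmeas' : ∀ k, Measurable ((fun k => ξ (k - 1)) k) := fun k => hmeas (k - 1)
  -- reduce to small ε
  suffices hmain : ∀ ε : ℝ, 0 < ε → ε < 1 → Tendsto
      (fun n : ℕ => P.real {ω | 2 * ε ≤ |Mx n (fun i => ξ i ω) / Real.log n - 1|}) atTop (𝓝 0) by
    set ε' := min (ε / 2) (1 / 2) with hε'
    have h0 : 0 < ε' := by positivity
    have h1 : ε' < 1 := lt_of_le_of_lt (min_le_right _ _) (by norm_num)
    have h2 : 2 * ε' ≤ ε := by
      have := min_le_left (ε / 2) (1 / 2)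
      linarith
    have h3 := hmain ε' h0 h1
    refine squeeze_zero (fun n => measureReal_nonneg) (fun n => measureReal_mono ?_) h3
    intro ω hω
    simp only [Set.mem_ofPred_eq] at hω ⊢
    linarith
  intro ε hε hε1
  have hup := Pool.Agent.H38.LC.upper hG hs₀ hC hint' hε
  have hlo := Pool.Agent.H38.LC.lower hG hs₀ hC hmeas' hint' hε hε1
  have hsum := hup.add hlo
  rw [add_zero] at hsum
  refine squeeze_zero' (Eventually.of_forall fun n => measureReal_nonneg) ?_ hsum
  filter_upwards [eventually_ge_atTop 2] with n hn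
  have hnr : (2 : ℝ) ≤ n := by exact_mod_cast hn
  have hL : 0 < Real.log (n : ℝ) := Real.log_pos (by linarith)
  refine le_trans (measureReal_mono ?_) (measureReal_union_le _ _)
  intro ω hω
  by_contra hcon
  rw [Set.mem_union, not_or] at hcon
  obtain ⟨hc1, hc2⟩ := hcon
  simp only [Set.mem_ofPred_eq, not_exists, not_and, not_lt, not_forall] at hc1 hc2 hω
  have h1 : Mx n (fun i => ξ i ω) ≤ (1 + ε) * Real.log n := by
    refine nrm_le fun z hz => ?_
    rw [old_pol]
    exact hc1 z (by simpa using hz)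
  have h2 : (1 - ε) * Real.log n ≤ Mx n (fun i => ξ i ω) := by
    obtain ⟨z, hz, hz2⟩ := hc2
    refine hz2.trans ?_
    rw [← old_pol]
    exact norm_pol_le n _ (by simpa using hz)
  have h3 : |Mx n (fun i => ξ i ω) / Real.log n - 1| ≤ ε := by
    rw [abs_le]
    constructor
    · have : (1 - ε) ≤ Mx n (fun i => ξ i ω) / Real.log n := by
        rw [le_div_iff₀ hL]; exact h2
      linarith
    · have : Mx n (fun i => ξ i ω) / Real.log n ≤ 1 + ε := by
        rw [div_le_iff₀ hL]; exact h1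
      linarith
  linarith

end H13.LL
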