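import Pool.Agent.H13.LL.Crude
import Pool.Agent.H13.LL.Old

/-! # LL.LLNp : convergence in probability with a second moment only, about 180 lines

If `∫ η_0² = 0`: `crude` with `τ = ε / 13` (`sd = 0`, `Mx ≥ 0`). Otherwise `σ = sd P ξ > 0`. For `k : ℕ` let `φ x = if |x| ≤ k then x else 0`, `m = ∫ φ (ξ 0)`, `a i = φ (ξ i) - m`, `b i = ξ i - a i`.
Both sequences are `IID` (`iIndepFun.comp`, `IdentDistrib.comp`), centred, in `L²` (`|φ x| ≤ |x|`); `∫ (b 0)² ≤ ∫ (ξ 0 - φ (ξ 0))² =: t k → 0` as `k → ∞` (dominated convergence; the variance is at most the second moment;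
`b 0 = (ξ 0 - φ (ξ 0)) - E (ξ 0 - φ (ξ 0))` as `E ξ 0 = 0`), and `∫ (a 0)² = ∫ φ(ξ 0)² - m² → σ²` (dominated convergence for `φ(ξ 0)²` and `φ(ξ 0)`, `∫ ξ 0 = 0`), so `s k = √(∫ (a 0)²) → σ`.
Choose `k` with `s k > 0`, `|s k - σ| ≤ ε / 4`, `t k ≤ (ε / 52)²`. `old` for `a i / s k` (bounded, so it has exponential moments): `P (|Mx n a / log n - s k| ≥ ε / 4) → 0` (`Mx_smul`); `crude` for `b` with
`τ = ε / 52`: `P (Mx n b ≥ (ε / 4) log n) → 0`. `|Mx n ξ - Mx n a| ≤ Mx n b` (`Mx_sub_le`). So `|Mx n ξ - σ log n| ≥ ε log n` implies one of the two events for `n ≥ 2`. -/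

set_option autoImplicit false

namespace H13.LL

open MeasureTheory ProbabilityTheory Filter Topology

variable {Ω : Type*} [MeasurableSpace Ω] {P : Measure Ω} [IsProbabilityMeasure P] {ξ : ℕ → Ω → ℝ}

omit [IsProbabilityMeasure P] in
private lemma iid_comp (h : IID P ξ) {g : ℝ → ℝ} (hg : Measurable g) : IID P fun i ω => g (ξ i ω) :=
  ⟨fun k => hg.comp (h.meas k), h.ind.comp (fun _ => g) (fun _ => hg), fun k => (h.idd k).comp hg⟩

/-- truncation at `k` -/
private noncomputable def phT (k : ℕ) (x : ℝ) : ℝ := if |x| ≤ k then x else 0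

private lemma measurable_phT (k : ℕ) : Measurable (phT k) := by
  unfold phT
  exact Measurable.ite (measurableSet_le (by fun_prop) measurable_const) measurable_id measurable_const

private lemma abs_phT_le (k : ℕ) (x : ℝ) : |phT k x| ≤ |x| := by
  unfold phT
  split_ifs
  · exact le_rfl
  · simp

private lemma abs_phT_le' (k : ℕ) (x : ℝ) : |phT k x| ≤ k := by
  unfold phT
  split_ifs with h
  · exact h
  · simp

private lemma phT_eventually (x : ℝ) : ∀ᶠ k : ℕ in atTop, phT k x = x := by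
  obtain ⟨N, hN⟩ := exists_nat_ge |x|
  filter_upwards [eventually_ge_atTop N] with k hk
  unfold phT
  rw [if_pos]
  have : (N : ℝ) ≤ k := by exact_mod_cast hk
  linarith

/-- the mean of the truncation -/
private noncomputable def mT (P : Measure Ω) (ξ : ℕ → Ω → ℝ) (k : ℕ) : ℝ := ∫ ω, phT k (ξ 0 ω) ∂P

private lemma abs_mT_le (h : Sq P ξ) (k : ℕ) : |mT P ξ k| ≤ ∫ ω, |ξ 0 ω| ∂P := by
  have hi : Integrable (ξ 0) P := h.mem.integrable (by norm_num)
  unfold mT
  refine (abs_integral_le_integral_abs).trans ?_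
  refine integral_mono_of_nonneg (Eventually.of_forall fun ω => abs_nonneg _) hi.abs
    (Eventually.of_forall fun ω => abs_phT_le k _)

private lemma mT_tendsto (h : Sq P ξ) : Tendsto (mT P ξ) atTop (𝓝 0) := by
  have hi : Integrable (ξ 0) P := h.mem.integrable (by norm_num)
  rw [← h.mean]
  unfold mT
  refine tendsto_integral_of_dominated_convergence (fun ω => |ξ 0 ω|) ?_ hi.abs ?_ ?_
  · exact fun k => ((measurable_phT k).comp (h.meas 0)).aestronglyMeasurable
  · exact fun k => Eventually.of_forall fun ω => abs_phT_le k _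
  · refine Eventually.of_forall fun ω => ?_
    exact tendsto_const_nhds.congr' ((phT_eventually (ξ 0 ω)).mono fun k hk => hk.symm)

private lemma bound_int (h : Sq P ξ) : Integrable (fun ω => (|ξ 0 ω| + ∫ ω, |ξ 0 ω| ∂P) ^ 2) P :=
  (h.mem.norm.add (memLp_const (∫ ω, |ξ 0 ω| ∂P))).integrable_sq

private lemma varA_tendsto (h : Sq P ξ) :
    Tendsto (fun k => ∫ ω, (phT k (ξ 0 ω) - mT P ξ k) ^ 2 ∂P) atTop (𝓝 (∫ ω, ξ 0 ω ^ 2 ∂P)) := by
  refine tendsto_integral_of_dominated_convergence (fun ω => (|ξ 0 ω| + ∫ ω, |ξ 0 ω| ∂P) ^ 2) ?_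
    (bound_int h) ?_ ?_
  · exact fun k => ((((measurable_phT k).comp (h.meas 0)).sub_const _).pow_const 2).aestronglyMeasurable
  · refine fun k => Eventually.of_forall fun ω => ?_
    rw [Real.norm_eq_abs, abs_pow]
    refine pow_le_pow_left₀ (abs_nonneg _) ((abs_sub _ _).trans ?_) 2
    exact add_le_add (abs_phT_le k _) (abs_mT_le h k)
  · refine Eventually.of_forall fun ω => ?_
    have h1 : Tendsto (fun k => phT k (ξ 0 ω)) atTop (𝓝 (ξ 0 ω)) :=
      tendsto_const_nhds.congr' ((phT_eventually (ξ 0 ω)).mono fun k hk => hk.symm)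
    have h2 := (h1.sub (mT_tendsto h)).pow 2
    rw [sub_zero] at h2
    exact h2

private lemma varB_tendsto (h : Sq P ξ) :
    Tendsto (fun k => ∫ ω, (ξ 0 ω - (phT k (ξ 0 ω) - mT P ξ k)) ^ 2 ∂P) atTop (𝓝 0) := by
  have h0 : ∫ _ω : Ω, (0 : ℝ) ∂P = 0 := integral_zero _ _
  rw [← h0]
  refine tendsto_integral_of_dominated_convergence
    (fun ω => (2 * (|ξ 0 ω| + ∫ ω, |ξ 0 ω| ∂P)) ^ 2) ?_ ?_ ?_ ?_
  · exact fun k => (((h.meas 0).sub
      (((measurable_phT k).comp (h.meas 0)).sub_const _)).pow_const 2).aestronglyMeasurable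
  · have e : (fun ω => (2 * (|ξ 0 ω| + ∫ ω, |ξ 0 ω| ∂P)) ^ 2) =
        fun ω => 4 * (|ξ 0 ω| + ∫ ω, |ξ 0 ω| ∂P) ^ 2 := by
      funext ω
      ring
    rw [e]
    exact (bound_int h).const_mul 4
  · refine fun k => Eventually.of_forall fun ω => ?_
    rw [Real.norm_eq_abs, abs_pow]
    refine pow_le_pow_left₀ (abs_nonneg _) ?_ 2
    have h1 := abs_phT_le k (ξ 0 ω)
    have h2 := abs_mT_le h k
    have h3 := abs_nonneg (ξ 0 ω)
    have h4 := abs_sub (ξ 0 ω) (phT k (ξ 0 ω) - mT P ξ k)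
    have h5 := abs_sub (phT k (ξ 0 ω)) (mT P ξ k)
    have h6 : 0 ≤ ∫ ω, |ξ 0 ω| ∂P := integral_nonneg fun _ => abs_nonneg _
    linarith
  · refine Eventually.of_forall fun ω => ?_
    have h1 : Tendsto (fun k => phT k (ξ 0 ω)) atTop (𝓝 (ξ 0 ω)) :=
      tendsto_const_nhds.congr' ((phT_eventually (ξ 0 ω)).mono fun k hk => hk.symm)
    have h2 := ((tendsto_const_nhds (x := ξ 0 ω)).sub (h1.sub (mT_tendsto h))).pow 2
    have e : (ξ 0 ω - (ξ 0 ω - 0)) ^ 2 = 0 := by ring
    rw [e] at h2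
    exact h2

private lemma sqB (h : Sq P ξ) (k : ℕ) : Sq P fun i ω => ξ i ω - (phT k (ξ i ω) - mT P ξ k) := by
  have hg : Measurable fun x : ℝ => x - (phT k x - mT P ξ k) :=
    measurable_id.sub ((measurable_phT k).sub_const _)
  have hi : Integrable (ξ 0) P := h.mem.integrable (by norm_num)
  have hp : MemLp (fun ω => phT k (ξ 0 ω)) 2 P :=
    h.mem.of_le ((measurable_phT k).comp (h.meas 0)).aestronglyMeasurable
      (Eventually.of_forall fun ω => abs_phT_le k _)
  refine ⟨iid_comp h.toIID hg, h.mem.sub (hp.sub (memLp_const _)), ?_⟩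
  have h1 : Integrable (fun ω => phT k (ξ 0 ω)) P := hp.integrable (by norm_num)
  have h2 : Integrable (fun ω => phT k (ξ 0 ω) - mT P ξ k) P := h1.sub (integrable_const _)
  rw [integral_sub hi h2, integral_sub h1 (integrable_const _), h.mean]
  simp [mT]

private lemma oldA (h : Sq P ξ) (k : ℕ) {s : ℝ} (hs : 0 < s)
    (hsv : ∫ ω, (phT k (ξ 0 ω) - mT P ξ k) ^ 2 ∂P = s ^ 2) {ε : ℝ} (hε : 0 < ε) :
    Tendsto (fun n : ℕ => P.real {ω | ε * Real.log n ≤
      |Mx n (fun i => phT k (ξ i ω) - mT P ξ k) - s * Real.log n|}) atTop (𝓝 0) := by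
  have hg : Measurable fun x : ℝ => (phT k x - mT P ξ k) / s :=
    ((measurable_phT k).sub_const _).div_const s
  have hp : MemLp (fun ω => phT k (ξ 0 ω)) 2 P :=
    h.mem.of_le ((measurable_phT k).comp (h.meas 0)).aestronglyMeasurable
      (Eventually.of_forall fun ω => abs_phT_le k _)
  have h1 : Integrable (fun ω => phT k (ξ 0 ω)) P := hp.integrable (by norm_num)
  have hmean : ∫ ω, (phT k (ξ 0 ω) - mT P ξ k) / s ∂P = 0 := by
    rw [integral_div, integral_sub h1 (integrable_const _)]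
    simp [mT]
  have hvar : ∫ ω, ((phT k (ξ 0 ω) - mT P ξ k) / s) ^ 2 ∂P = 1 := by
    simp only [div_pow]
    rw [integral_div, hsv, div_self (by positivity)]
  have hexp : ∃ c : ℝ, 0 < c ∧
      Integrable (fun ω => Real.exp (c * |(phT k (ξ 0 ω) - mT P ξ k) / s|)) P := by
    refine ⟨1, one_pos, ?_⟩
    refine Integrable.of_bound (C := Real.exp ((k + |mT P ξ k|) / s)) ?_
      (Eventually.of_forall fun ω => ?_)
    · have h2 : Measurable fun ω => (phT k (ξ 0 ω) - mT P ξ k) / s := hg.comp (h.meas 0)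
      exact (Real.measurable_exp.comp ((measurable_norm.comp h2).const_mul 1)).aestronglyMeasurable
    · rw [Real.norm_eq_abs, Real.abs_exp, one_mul]
      refine Real.exp_le_exp.2 ?_
      rw [abs_div, abs_of_pos hs]
      refine div_le_div_of_nonneg_right ?_ hs.le
      exact (abs_sub _ _).trans (add_le_add (abs_phT_le' k _) le_rfl)
  have hold := old (iid_comp h.toIID hg) hmean hvar hexp (div_pos hε hs)
  refine squeeze_zero' (Eventually.of_forall fun n => measureReal_nonneg) ?_ hold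
  filter_upwards [eventually_ge_atTop 2] with n hn
  refine measureReal_mono (fun ω hω => ?_)
  have hlog : 0 < Real.log n := Real.log_pos (by exact_mod_cast hn)
  have e1 : Mx n (fun i => (phT k (ξ i ω) - mT P ξ k) / s) =
      Mx n (fun i => phT k (ξ i ω) - mT P ξ k) / s := by
    have h2 := Mx_smul n s⁻¹ (fun i => phT k (ξ i ω) - mT P ξ k)
    rw [abs_of_pos (inv_pos.2 hs)] at h2
    have e2 : (fun i => s⁻¹ * (phT k (ξ i ω) - mT P ξ k)) =
        fun i => (phT k (ξ i ω) - mT P ξ k) / s := by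
      funext i
      rw [div_eq_inv_mul]
    rw [e2] at h2
    rw [h2, div_eq_inv_mul]
  show ε / s ≤ |Mx n (fun i => (phT k (ξ i ω) - mT P ξ k) / s) / Real.log n - 1|
  rw [e1]
  have hω' : ε * Real.log n ≤ |Mx n (fun i => phT k (ξ i ω) - mT P ξ k) - s * Real.log n| := hω
  have e3 : Mx n (fun i => phT k (ξ i ω) - mT P ξ k) / s / Real.log n - 1 =
      (Mx n (fun i => phT k (ξ i ω) - mT P ξ k) - s * Real.log n) / (s * Real.log n) := by
    field_simp
  rw [e3, abs_div, abs_of_pos (mul_pos hs hlog), le_div_iff₀ (mul_pos hs hlog)]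
  calc ε / s * (s * Real.log n) = ε * Real.log n := by field_simp
    _ ≤ _ := hω'

theorem lln_prob (h : Sq P ξ) {ε : ℝ} (hε : 0 < ε) :
    Tendsto (fun n : ℕ => P.real {ω | ε * Real.log n ≤ |Mx n (fun i => ξ i ω) - sd P ξ * Real.log n|})
      atTop (𝓝 0) := by
  rcases (Real.sqrt_nonneg (∫ ω, ξ 0 ω ^ 2 ∂P)).eq_or_lt with h0 | h0
  · have hsd : sd P ξ = 0 := h0.symm
    have hv : ∫ ω, ξ 0 ω ^ 2 ∂P ≤ (ε / 13) ^ 2 := by
      have h1 : ∫ ω, ξ 0 ω ^ 2 ∂P ≤ 0 := Real.sqrt_eq_zero'.1 h0.symm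
      exact h1.trans (sq_nonneg _)
    have h2 := crude h (by positivity : 0 < ε / 13) hv
    refine h2.congr fun n => ?_
    congr 1
    have e : 13 * (ε / 13) * Real.log n = ε * Real.log n := by ring
    rw [hsd, e]
    congr 1
    funext ω
    rw [zero_mul, sub_zero, abs_of_nonneg (Mx_nonneg _ _)]
  · have hσ : 0 < sd P ξ := h0
    set σ : ℝ := sd P ξ with hσd
    have hs : Tendsto (fun k => √(∫ ω, (phT k (ξ 0 ω) - mT P ξ k) ^ 2 ∂P)) atTop (𝓝 σ) :=
      (varA_tendsto h).sqrt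
    have hδ : 0 < min (ε / 4) σ := lt_min (by positivity) hσ
    have ev1 : ∀ᶠ k : ℕ in atTop, |√(∫ ω, (phT k (ξ 0 ω) - mT P ξ k) ^ 2 ∂P) - σ| < min (ε / 4) σ := by
      have := (Metric.tendsto_nhds.1 hs) _ hδ
      simpa [Real.dist_eq] using this
    have ev2 : ∀ᶠ k : ℕ in atTop, ∫ ω, (ξ 0 ω - (phT k (ξ 0 ω) - mT P ξ k)) ^ 2 ∂P < (ε / 52) ^ 2 :=
      (varB_tendsto h).eventually (gt_mem_nhds (by positivity))
    obtain ⟨k, hk1, hk2⟩ := (ev1.and ev2).exists
    set s : ℝ := √(∫ ω, (phT k (ξ 0 ω) - mT P ξ k) ^ 2 ∂P) with hsd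
    have hk3 := abs_lt.1 (hk1.trans_le (min_le_right _ _))
    have hs0 : 0 < s := by linarith [hk3.1]
    have hsε : |s - σ| < ε / 4 := hk1.trans_le (min_le_left _ _)
    have hsv : ∫ ω, (phT k (ξ 0 ω) - mT P ξ k) ^ 2 ∂P = s ^ 2 := by
      rw [hsd, Real.sq_sqrt (integral_nonneg fun ω => sq_nonneg _)]
    have hA := oldA h k hs0 hsv (by positivity : 0 < ε / 4)
    have hB := crude (sqB h k) (by positivity : 0 < ε / 52) hk2.le
    have hAB := hA.add hB
    rw [add_zero] at hAB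
    refine squeeze_zero' (Eventually.of_forall fun n => measureReal_nonneg) ?_ hAB
    filter_upwards [eventually_ge_atTop 2] with n hn
    have hlog : 0 < Real.log n := Real.log_pos (by exact_mod_cast hn)
    refine le_trans (measureReal_mono (s₂ := {ω | ε / 4 * Real.log n ≤
      |Mx n (fun i => phT k (ξ i ω) - mT P ξ k) - s * Real.log n|} ∪ {ω | 13 * (ε / 52) * Real.log n ≤
        Mx n (fun i => ξ i ω - (phT k (ξ i ω) - mT P ξ k))}) (fun ω hω => ?_)) (measureReal_union_le _ _)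
    by_contra hcon
    rw [Set.mem_union, not_or] at hcon
    obtain ⟨h1, h2⟩ := hcon
    have h1 : |Mx n (fun i => phT k (ξ i ω) - mT P ξ k) - s * Real.log n| < ε / 4 * Real.log n :=
      lt_of_not_ge h1
    have h2 : Mx n (fun i => ξ i ω - (phT k (ξ i ω) - mT P ξ k)) < 13 * (ε / 52) * Real.log n :=
      lt_of_not_ge h2
    have hω : ε * Real.log n ≤ |Mx n (fun i => ξ i ω) - σ * Real.log n| := hω
    have h3 := Mx_sub_le n (fun i => ξ i ω) (fun i => phT k (ξ i ω) - mT P ξ k)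
    have h4 := abs_le.1 h3
    have h5 := abs_lt.1 h1
    have h6 := abs_lt.1 hsε
    have h7 : |Mx n (fun i => ξ i ω) - σ * Real.log n| < ε * Real.log n := by
      have h8 : (s - σ) * Real.log n < ε / 4 * Real.log n := mul_lt_mul_of_pos_right h6.2 hlog
      have h9 : -(ε / 4) * Real.log n < (s - σ) * Real.log n := mul_lt_mul_of_pos_right h6.1 hlog
      have h10 : 13 * (ε / 52) * Real.log n = ε / 4 * Real.log n := by ring
      have h11 : 0 < ε * Real.log n := mul_pos hε hlog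
      rw [h10] at h2
      rw [abs_lt]
      constructor <;> nlinarith [h4.1, h4.2, h5.1, h5.2]
    linarith

end H13.LL
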