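import Pool.Agent.H13.LL.Mean

/-! # LL.LowF : lower bound for the Fejer means, about 150 lines

Let `σ = sd P ξ`. If `σ ≤ ε / 2`: for `log m > 0` the set is empty or contained in `{Fx m ≤ (ε/2 - ε) log m} = ∅` (`Fx ≥ 0`). Otherwise choose `δ, ε' > 0` with `(1 - δ) (σ - ε') > σ - ε / 2`, `ε' < σ`.
`mono_nrm` with `w i = (1 - (i+1)/m) wt i` and `t i = (1 - δ) / (1 - (i+1)/m)` for `i + 1 ≤ δ m`, `t i = 0` otherwise: for `m' = ⌊δ m⌋₊`, `(1 - δ) ∫ Mx m' ≤ ∫ Fx m` (the norm of order `m` of a sequence vanishing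
for `i ≥ m'` is the norm of order `m'`). By `mean_tendsto`, `∫ Mx m' ≥ (σ - ε') log m'` and `log m' ≥ log m - log (2/δ)` for large `m`, so `∫ Fx m ≥ (σ - ε/2) log m` for large `m`.
Variance of `Fx m`: `≤ ∑ w i ^ 2 v ≤ v Hs m ≤ v (1 + log m) ≤ 2 v log m` (`0 ≤ 1 - (i+1)/m ≤ 1` for `i < m`; `var_nrm`). Chebyshev: `P (Fx m ≤ (σ - ε) log m) ≤ 2 v log m / ((ε/2) log m)² = 8 v / (ε² log m)`. -/

set_option autoImplicit false

namespace H13.LL

open MeasureTheory ProbabilityTheory Filter Topology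

variable {Ω : Type*} [MeasurableSpace Ω] {P : Measure Ω} [IsProbabilityMeasure P] {ξ : ℕ → Ω → ℝ}

/-- the norm of a polynomial whose coefficients vanish from `m'` on -/
private theorem nrm_trunc {m m' : ℕ} (hm : m' ≤ m) {a b : ℕ → ℝ} (h1 : ∀ i < m', a i = b i)
    (h2 : ∀ i, m' ≤ i → a i = 0) : nrm m a = nrm m' b := by
  have h : pol m a = pol m' b := by
    funext z
    unfold pol
    rw [← Finset.sum_subset (Finset.range_mono hm)]
    · exact Finset.sum_congr rfl fun i hi => by rw [h1 i (Finset.mem_range.1 hi)]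
    · intro i _ hi
      rw [h2 i (by simpa using hi)]
      simp
  unfold nrm
  rw [h]

private theorem Fx_eq (m : ℕ) (x : ℕ → ℝ) :
    Fx m x = nrm m (fun i => ((1 - ((i : ℝ) + 1) / m) * wt i) * x i) := by
  unfold Fx
  congr 1
  funext i
  ring

private theorem sq_all (h : Sq P ξ) (k : ℕ) : MemLp (ξ k) 2 P := (h.idd k).memLp_iff.2 h.mem

private theorem int_all (h : Sq P ξ) (k : ℕ) : Integrable (ξ k) P :=
  (sq_all h k).integrable (by norm_num)

private theorem mean_all (h : Sq P ξ) (k : ℕ) : ∫ ω, ξ k ω ∂P = 0 := by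
  rw [(h.idd k).integral_eq]
  exact h.mean

private theorem var_all (h : Sq P ξ) (k : ℕ) : variance (ξ k) P ≤ ∫ ω, ξ 0 ω ^ 2 ∂P := by
  rw [(h.idd k).variance_eq]
  exact variance_le_expectation_sq (h.meas 0).aestronglyMeasurable

private theorem v_nonneg : 0 ≤ ∫ ω, ξ 0 ω ^ 2 ∂P := integral_nonneg fun _ => sq_nonneg _

private theorem var_F (h : Sq P ξ) {m : ℕ} (hm : 1 ≤ m) :
    MemLp (fun ω => Fx m (fun i => ξ i ω)) 2 P ∧
      variance (fun ω => Fx m (fun i => ξ i ω)) P ≤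
        (∫ ω, ξ 0 ω ^ 2 ∂P) * (1 + Real.log m) := by
  have e : (fun ω => Fx m (fun i => ξ i ω)) =
      fun ω => nrm m (fun i => ((1 - ((i : ℝ) + 1) / m) * wt i) * ξ i ω) := by
    funext ω
    exact Fx_eq m _
  rw [e]
  obtain ⟨h1, h2⟩ := var_nrm h.meas h.ind (sq_all h) m (fun i => (1 - ((i : ℝ) + 1) / m) * wt i)
  refine ⟨h1, h2.trans ?_⟩
  have hm0 : (0 : ℝ) < m := by exact_mod_cast hm
  have hv : 0 ≤ ∫ ω, ξ 0 ω ^ 2 ∂P := v_nonneg
  have h3 : ∑ i ∈ Finset.range m, ((1 - ((i : ℝ) + 1) / m) * wt i) ^ 2 * variance (ξ i) P ≤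
      ∑ i ∈ Finset.range m, (∫ ω, ξ 0 ω ^ 2 ∂P) * (1 / ((i : ℝ) + 1)) := by
    refine Finset.sum_le_sum fun i hi => ?_
    have hi' : ((i : ℝ) + 1) ≤ m := by exact_mod_cast Finset.mem_range.1 hi
    have h4 : 0 ≤ ((i : ℝ) + 1) / m := by positivity
    have h5 : ((i : ℝ) + 1) / m ≤ 1 := by rw [div_le_one hm0]; exact hi'
    have h6 : (1 - ((i : ℝ) + 1) / m) ^ 2 ≤ 1 := by
      have := pow_le_pow_left₀ (sub_nonneg.2 h5) (by linarith : 1 - ((i : ℝ) + 1) / m ≤ 1) 2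
      simpa using this
    rw [mul_pow, wt_sq]
    have h7 : 0 ≤ 1 / ((i : ℝ) + 1) := by positivity
    have h8 : 0 ≤ variance (ξ i) P := variance_nonneg _ _
    calc (1 - ((i : ℝ) + 1) / m) ^ 2 * (1 / ((i : ℝ) + 1)) * variance (ξ i) P
        ≤ 1 * (1 / ((i : ℝ) + 1)) * variance (ξ i) P := by gcongr
      _ ≤ 1 * (1 / ((i : ℝ) + 1)) * ∫ ω, ξ 0 ω ^ 2 ∂P := by
          gcongr
          exact var_all h i
      _ = _ := by ring
  refine h3.trans ?_
  rw [← Finset.mul_sum]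
  exact mul_le_mul_of_nonneg_left (Hs_le m hm) hv

/-- comparison with the norm of order `m / q` -/
private theorem mean_cmp (h : Sq P ξ) {q : ℕ} (hq : 2 ≤ q) {m : ℕ} (hm : 1 ≤ m) :
    (1 - 1 / (q : ℝ)) * ∫ ω, Mx (m / q) (fun i => ξ i ω) ∂P ≤
      ∫ ω, Fx m (fun i => ξ i ω) ∂P := by
  have hm0 : (0 : ℝ) < m := by exact_mod_cast hm
  have hq0 : (0 : ℝ) < q := by exact_mod_cast (by omega : 0 < q)
  have hq2 : (2 : ℝ) ≤ q := by exact_mod_cast hq
  have hc : 0 < 1 - 1 / (q : ℝ) := by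
    rw [sub_pos, div_lt_one hq0]
    linarith
  have key : ∀ i : ℕ, i < m / q → 1 - 1 / (q : ℝ) ≤ 1 - ((i : ℝ) + 1) / m := by
    intro i hi
    have h1 : (i + 1) * q ≤ m := (Nat.mul_le_mul_right q (by omega : i + 1 ≤ m / q)).trans
      (Nat.div_mul_le_self m q)
    have h2 : ((i : ℝ) + 1) * q ≤ m := by exact_mod_cast h1
    have h3 : ((i : ℝ) + 1) / m ≤ 1 / q := by
      rw [div_le_div_iff₀ hm0 hq0]
      linarith
    linarith
  have hmono := mono_nrm h.meas h.ind (int_all h) (mean_all h) m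
    (fun i => (1 - ((i : ℝ) + 1) / m) * wt i)
    (fun i => if i < m / q then (1 - 1 / (q : ℝ)) / (1 - ((i : ℝ) + 1) / m) else 0)
    (by
      intro i
      split_ifs with hi
      · have h1 := key i hi
        have h2 : 0 < 1 - ((i : ℝ) + 1) / m := lt_of_lt_of_le hc h1
        exact ⟨(div_pos hc h2).le, (div_le_one h2).2 h1⟩
      · exact ⟨le_rfl, zero_le_one⟩)
  have e1 : (fun ω => nrm m (fun i => ((1 - ((i : ℝ) + 1) / m) * wt i) * ξ i ω)) =
      fun ω => Fx m (fun i => ξ i ω) := by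
    funext ω
    exact (Fx_eq m _).symm
  have e2 : (fun ω => nrm m (fun i =>
      (if i < m / q then (1 - 1 / (q : ℝ)) / (1 - ((i : ℝ) + 1) / m) else 0) *
        (((1 - ((i : ℝ) + 1) / m) * wt i) * ξ i ω))) =
      fun ω => (1 - 1 / (q : ℝ)) * Mx (m / q) (fun i => ξ i ω) := by
    funext ω
    have h1 := Mx_smul (m / q) (1 - 1 / (q : ℝ)) (fun i => ξ i ω)
    rw [abs_of_pos hc] at h1
    rw [← h1]
    unfold Mx
    refine nrm_trunc (Nat.div_le_self m q) ?_ ?_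
    · intro i hi
      rw [if_pos hi]
      have h2 := key i hi
      have h3 : 1 - ((i : ℝ) + 1) / m ≠ 0 := (lt_of_lt_of_le hc h2).ne'
      rw [mul_assoc (1 - ((i : ℝ) + 1) / m), ← mul_assoc, div_mul_cancel₀ _ h3]
      ring
    · intro i hi
      rw [if_neg (not_lt.2 hi), zero_mul]
  rw [e1, e2, integral_const_mul] at hmono
  exact hmono

private theorem log_div_tendsto {q : ℕ} (hq : 2 ≤ q) :
    Tendsto (fun m : ℕ => Real.log ((m / q : ℕ) : ℝ) / Real.log m) atTop (𝓝 1) := by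
  have hq0 : 0 < q := by omega
  have hlog : Tendsto (fun m : ℕ => Real.log (m : ℝ)) atTop atTop :=
    Real.tendsto_log_atTop.comp tendsto_natCast_atTop_atTop
  have h1 : Tendsto (fun m : ℕ => 1 - Real.log (2 * q) / Real.log m) atTop (𝓝 (1 - 0)) :=
    tendsto_const_nhds.sub (tendsto_const_nhds.div_atTop hlog)
  rw [sub_zero] at h1
  refine tendsto_of_tendsto_of_tendsto_of_le_of_le' h1 tendsto_const_nhds ?_ ?_
  · filter_upwards [eventually_ge_atTop (2 * q)] with m hm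
    have hm1 : 1 < m := by omega
    have hl : 0 < Real.log m := Real.log_pos (by exact_mod_cast hm1)
    have hd : 1 ≤ m / q := (Nat.one_le_div_iff hq0).2 (by omega)
    have h2 : m ≤ 2 * q * (m / q) := by
      have h3 := Nat.lt_mul_div_succ m hq0
      have h4 : q * (m / q + 1) ≤ q * (m / q + m / q) := Nat.mul_le_mul_left q (by omega)
      have h5 : q * (m / q + m / q) = 2 * q * (m / q) := by ring
      omega
    have h3 : Real.log m ≤ Real.log (2 * q) + Real.log ((m / q : ℕ) : ℝ) := by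
      rw [← Real.log_mul (by positivity) (by
        have : (0 : ℝ) < ((m / q : ℕ) : ℝ) := by exact_mod_cast hd
        exact this.ne')]
      refine Real.log_le_log (by positivity) ?_
      exact_mod_cast h2
    rw [le_div_iff₀ hl, sub_mul, one_mul, div_mul_cancel₀ _ hl.ne']
    linarith
  · filter_upwards [eventually_ge_atTop (2 * q)] with m hm
    have hm1 : 1 < m := by omega
    have hl : 0 < Real.log m := Real.log_pos (by exact_mod_cast hm1)
    have hd : 1 ≤ m / q := (Nat.one_le_div_iff hq0).2 (by omega)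
    rw [div_le_one hl]
    refine Real.log_le_log (by exact_mod_cast hd) ?_
    exact_mod_cast Nat.div_le_self m q

private theorem mean_low (h : Sq P ξ) {ε : ℝ} (hε : 0 < ε) :
    ∀ᶠ m : ℕ in atTop, (sd P ξ - ε / 2) * Real.log m ≤ ∫ ω, Fx m (fun i => ξ i ω) ∂P := by
  obtain ⟨q₀, hq₀⟩ := exists_nat_gt (2 * sd P ξ / ε)
  set q := q₀ + 2 with hqdef
  have hq : 2 ≤ q := by omega
  have hσ : 0 ≤ sd P ξ := Real.sqrt_nonneg _
  have hq0 : (0 : ℝ) < q := by exact_mod_cast (by omega : 0 < q)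
  have hc : sd P ξ - ε / 2 < (1 - 1 / (q : ℝ)) * sd P ξ := by
    have h1 : (q₀ : ℝ) ≤ q := by exact_mod_cast (by omega : q₀ ≤ q)
    have h2 : 2 * sd P ξ / ε < q := lt_of_lt_of_le hq₀ h1
    rw [div_lt_iff₀ hε] at h2
    have h3 : sd P ξ / q < ε / 2 := by
      rw [div_lt_iff₀ hq0]
      linarith
    have h4 : (1 - 1 / (q : ℝ)) * sd P ξ = sd P ξ - sd P ξ / q := by ring
    rw [h4]
    linarith
  have hlog : Tendsto (fun m : ℕ => Real.log (m : ℝ)) atTop atTop :=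
    Real.tendsto_log_atTop.comp tendsto_natCast_atTop_atTop
  have hdiv : Tendsto (fun m : ℕ => m / q) atTop atTop := Nat.tendsto_div_const_atTop (by omega)
  have h1 := (mean_tendsto h).comp hdiv
  have h2 := (h1.mul (log_div_tendsto hq)).const_mul (1 - 1 / (q : ℝ))
  rw [mul_one] at h2
  have h3 := h2.eventually (lt_mem_nhds hc)
  filter_upwards [h3, (hlog.comp hdiv).eventually_gt_atTop 0, hlog.eventually_gt_atTop 0,
    eventually_ge_atTop 1] with m hm1 hm2 hm3 hm4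
  simp only [Function.comp_apply] at hm1 hm2
  have h4 := mean_cmp h hq hm4
  have h5 : (∫ ω, Mx (m / q) (fun i => ξ i ω) ∂P) / Real.log ((m / q : ℕ) : ℝ) *
      (Real.log ((m / q : ℕ) : ℝ) / Real.log m) =
        (∫ ω, Mx (m / q) (fun i => ξ i ω) ∂P) / Real.log m := by
    field_simp
  rw [h5, ← mul_div_assoc, lt_div_iff₀ hm3] at hm1
  linarith

theorem low_fejer (h : Sq P ξ) {ε : ℝ} (hε : 0 < ε) :
    ∃ C : ℝ, 0 ≤ C ∧ ∀ᶠ m : ℕ in atTop,
      P.real {ω | Fx m (fun i => ξ i ω) ≤ (sd P ξ - ε) * Real.log m} ≤ C / Real.log m := by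
  have hv : 0 ≤ ∫ ω, ξ 0 ω ^ 2 ∂P := v_nonneg
  have hlog : Tendsto (fun m : ℕ => Real.log (m : ℝ)) atTop atTop :=
    Real.tendsto_log_atTop.comp tendsto_natCast_atTop_atTop
  refine ⟨8 * (∫ ω, ξ 0 ω ^ 2 ∂P) / ε ^ 2, by positivity, ?_⟩
  filter_upwards [mean_low h hε, hlog.eventually_ge_atTop 1, eventually_ge_atTop 1]
    with m hm1 hm2 hm3
  have hl : 0 < Real.log m := by linarith
  obtain ⟨h1, h2⟩ := var_F h hm3
  have hcpos : 0 < ε / 2 * Real.log m := by positivity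
  have h3 := meas_ge_le_variance_div_sq h1 hcpos
  have h4 : P {ω | Fx m (fun i => ξ i ω) ≤ (sd P ξ - ε) * Real.log m} ≤
      P {ω | ε / 2 * Real.log m ≤ |Fx m (fun i => ξ i ω) - ∫ ω, Fx m (fun i => ξ i ω) ∂P|} := by
    refine measure_mono ?_
    intro ω hω
    have hω' : Fx m (fun i => ξ i ω) ≤ (sd P ξ - ε) * Real.log m := hω
    show ε / 2 * Real.log m ≤ |Fx m (fun i => ξ i ω) - ∫ ω, Fx m (fun i => ξ i ω) ∂P|
    rw [abs_sub_comm]
    refine le_trans ?_ (le_abs_self _)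
    have e : (sd P ξ - ε / 2) * Real.log m - (sd P ξ - ε) * Real.log m = ε / 2 * Real.log m := by
      ring
    linarith
  have h5 : variance (fun ω => Fx m (fun i => ξ i ω)) P / (ε / 2 * Real.log m) ^ 2 ≤
      8 * (∫ ω, ξ 0 ω ^ 2 ∂P) / ε ^ 2 / Real.log m := by
    have h6 : variance (fun ω => Fx m (fun i => ξ i ω)) P ≤
        (∫ ω, ξ 0 ω ^ 2 ∂P) * (2 * Real.log m) :=
      h2.trans (mul_le_mul_of_nonneg_left (by linarith) hv)
    rw [div_le_iff₀ (by positivity)]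
    refine h6.trans (le_of_eq ?_)
    field_simp
    ring
  have h7 := (h4.trans h3).trans (ENNReal.ofReal_le_ofReal h5)
  have h8 := ENNReal.toReal_mono ENNReal.ofReal_ne_top h7
  rw [ENNReal.toReal_ofReal (by positivity)] at h8
  exact h8

end H13.LL
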