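import Pool.Agent.H13.LL.UpA
import Pool.Agent.H13.LL.Blk
import Pool.Agent.H13.LL.Inf

/-! # LL.Main : the strong law for every law

`strong`: `up_as` and `block` with `low_fejer` (`C / log m = C (log m)^(-1)`) for all `ε = 1/(k+1)`. `infinite`: `block` with `inf_low`, `T' = K`, `T = K + 1` for all `K : ℕ`. `shifted`: for finite variance and mean `m ≠ 0` the centred sequence
satisfies `strong`, `Mx n ξ ≥ |pol n (wt m) 1| - Mx n (ξ - m)`, `∑_{i<n} wt i ≥ √n`. -/

set_option autoImplicit false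

namespace H13.LL

open MeasureTheory ProbabilityTheory Filter Topology

variable {Ω : Type*} [MeasurableSpace Ω] {P : Measure Ω} [IsProbabilityMeasure P] {ξ : ℕ → Ω → ℝ}

theorem eventually_log_pos : ∀ᶠ n : ℕ in atTop, 0 < Real.log n := by
  filter_upwards [eventually_ge_atTop 2] with n hn
  have h : (2 : ℝ) ≤ n := by exact_mod_cast hn
  exact Real.log_pos (by linarith)

theorem strong (h : Sq P ξ) :
    ∀ᵐ ω ∂P, Tendsto (fun n : ℕ => Mx n (fun i => ξ i ω) / Real.log n) atTop (𝓝 (sd P ξ)) := by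
  have hup : ∀ᵐ ω ∂P, ∀ k : ℕ, ∀ᶠ n : ℕ in atTop,
      Mx n (fun i => ξ i ω) ≤ (sd P ξ + 1 / ((k : ℝ) + 1)) * Real.log n := by
    rw [ae_all_iff]
    intro k
    exact up_as h (by positivity)
  have hlo : ∀ᵐ ω ∂P, ∀ k : ℕ, ∀ᶠ n : ℕ in atTop,
      (sd P ξ - 2 * (1 / ((k : ℝ) + 1))) * Real.log n ≤ Mx n (fun i => ξ i ω) := by
    rw [ae_all_iff]
    intro k
    have hk : (0 : ℝ) < 1 / ((k : ℝ) + 1) := by positivity
    obtain ⟨C, -, hC⟩ := low_fejer h hk
    refine block (T := sd P ξ - 1 / ((k : ℝ) + 1)) (C := C) (p := 1) (by linarith) one_pos ?_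
    filter_upwards [hC] with m hm
    rw [Real.rpow_neg_one, ← div_eq_mul_inv]
    exact hm
  filter_upwards [hup, hlo] with ω h1 h2
  rw [Metric.tendsto_atTop']
  intro ε hε
  obtain ⟨k, hk⟩ := exists_nat_one_div_lt (show (0 : ℝ) < ε / 4 by positivity)
  have hk0 : (0 : ℝ) < 1 / ((k : ℝ) + 1) := by positivity
  have hev : ∀ᶠ n : ℕ in atTop, dist (Mx n (fun i => ξ i ω) / Real.log n) (sd P ξ) < ε := by
    filter_upwards [h1 k, h2 k, eventually_log_pos] with n a1 a2 a3
    rw [Real.dist_eq]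
    have b1 : Mx n (fun i => ξ i ω) / Real.log n ≤ sd P ξ + 1 / ((k : ℝ) + 1) := by
      rw [div_le_iff₀ a3]; exact a1
    have b2 : sd P ξ - 2 * (1 / ((k : ℝ) + 1)) ≤ Mx n (fun i => ξ i ω) / Real.log n := by
      rw [le_div_iff₀ a3]; exact a2
    rw [abs_lt]
    constructor <;> linarith
  obtain ⟨N, hN⟩ := eventually_atTop.1 hev
  exact ⟨N, fun n hn => hN n hn.le⟩

theorem infinite (h : IID P ξ) (h2 : ¬ MemLp (ξ 0) 2 P) :
    ∀ᵐ ω ∂P, Tendsto (fun n : ℕ => Mx n (fun i => ξ i ω) / Real.log n) atTop atTop := by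
  have hlo : ∀ᵐ ω ∂P, ∀ k : ℕ, ∀ᶠ n : ℕ in atTop, (k : ℝ) * Real.log n ≤ Mx n (fun i => ξ i ω) := by
    rw [ae_all_iff]
    intro k
    obtain ⟨C, hC⟩ := inf_low h h2 ((k : ℝ) + 1)
    exact block (by linarith) (by norm_num) hC
  filter_upwards [hlo] with ω h1
  rw [tendsto_atTop]
  intro b
  obtain ⟨k, hk⟩ := exists_nat_ge b
  filter_upwards [h1 k, eventually_log_pos] with n a1 a2
  refine hk.trans ?_
  rw [le_div_iff₀ a2]
  exact a1

/-- the sum of the weights -/
theorem sqrt_le_sum_wt (n : ℕ) : √(n : ℝ) ≤ ∑ i ∈ Finset.range n, wt i := by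
  rcases Nat.eq_zero_or_pos n with rfl | hn
  · simp
  have hn' : (0 : ℝ) < n := by exact_mod_cast hn
  have h1 : ∀ i ∈ Finset.range n, 1 / √(n : ℝ) ≤ wt i := by
    intro i hi
    have h2 : (i : ℝ) + 1 ≤ n := by exact_mod_cast Finset.mem_range.1 hi
    unfold wt
    exact one_div_le_one_div_of_le (by positivity) (Real.sqrt_le_sqrt h2)
  have h3 := Finset.sum_le_sum h1
  rw [Finset.sum_const, Finset.card_range, nsmul_eq_mul, mul_one_div, Real.div_sqrt] at h3
  exact h3

theorem shifted (h : IID P ξ) (h2 : MemLp (ξ 0) 2 P) (h0 : ∫ ω, ξ 0 ω ∂P ≠ 0) :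
    ∀ᵐ ω ∂P, Tendsto (fun n : ℕ => Mx n (fun i => ξ i ω) / Real.log n) atTop atTop := by
  obtain ⟨m, hm⟩ : ∃ m : ℝ, m = ∫ ω, ξ 0 ω ∂P := ⟨_, rfl⟩
  have hm0 : 0 < |m| := abs_pos.2 (by rw [hm]; exact h0)
  have hS : Sq P (fun k ω => ξ k ω - m) := by
    refine ⟨⟨fun k => (h.meas k).sub_const m, ?_, ?_⟩, h2.sub (memLp_const m), ?_⟩
    · exact h.ind.comp (fun _ x => x - m) (fun _ => by fun_prop)
    · intro k
      exact (h.idd k).comp (u := fun x => x - m) (by fun_prop)
    · rw [integral_sub (h2.integrable (by norm_num)) (integrable_const m), ← hm]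
      simp
  have hsq : Tendsto (fun n : ℕ => √(n : ℝ) / Real.log n) atTop atTop := by
    have h3 : Tendsto (fun n : ℕ => Real.log n / √(n : ℝ)) atTop (𝓝 0) := by
      have h4 : Tendsto (fun x : ℝ => Real.log x / x ^ (1 / 2 : ℝ)) atTop (𝓝 0) :=
        (isLittleO_log_rpow_atTop (by norm_num)).tendsto_div_nhds_zero
      have h5 := h4.comp tendsto_natCast_atTop_atTop
      refine h5.congr fun n => ?_
      simp only [Function.comp, Real.sqrt_eq_rpow]
    have h6 : ∀ᶠ n : ℕ in atTop, 0 < Real.log n / √(n : ℝ) := by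
      filter_upwards [eventually_log_pos, eventually_ge_atTop 1] with n a1 a2
      have : (0 : ℝ) < n := by exact_mod_cast a2
      positivity
    have h7 : Tendsto (fun n : ℕ => Real.log n / √(n : ℝ)) atTop (𝓝[>] 0) :=
      tendsto_nhdsWithin_of_tendsto_nhds_of_eventually_within _ h3 h6
    have h8 := h7.inv_tendsto_nhdsGT_zero
    refine h8.congr fun n => ?_
    simp only [Pi.inv_apply, inv_div]
  filter_upwards [strong hS] with ω hω
  have h9 : Tendsto (fun n : ℕ => |m| * (√(n : ℝ) / Real.log n) -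
      Mx n (fun i => ξ i ω - m) / Real.log n) atTop atTop := by
    have h10 := (hsq.const_mul_atTop hm0)
    exact h10.atTop_add hω.neg
  refine tendsto_atTop_mono' _ ?_ h9
  filter_upwards [eventually_log_pos] with n hn
  rw [mul_div_assoc', ← sub_div]
  refine div_le_div_of_nonneg_right ?_ hn.le
  have h11 := Mx_sub_le n (fun i => ξ i ω) (fun _ => m)
  have h12 : |m| * √(n : ℝ) ≤ Mx n (fun _ => m) := by
    have h13 := norm_pol_le n (fun i => wt i * m) (z := 1) (by simp)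
    have h14 : pol n (fun i => wt i * m) 1 = ((∑ i ∈ Finset.range n, wt i) * m : ℝ) := by
      unfold pol
      push_cast
      rw [Finset.sum_mul]
      exact Finset.sum_congr rfl fun i _ => by simp
    rw [h14, Complex.norm_real, Real.norm_eq_abs, abs_mul,
      abs_of_nonneg (Finset.sum_nonneg fun i _ => (wt_pos i).le)] at h13
    refine le_trans ?_ h13
    rw [mul_comm]
    exact mul_le_mul_of_nonneg_right (sqrt_le_sum_wt n) (abs_nonneg m)
  have h15 := (abs_le.1 h11).1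
  linarith

end H13.LL
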