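import Mathlib

/-! # LL.MonoPi : the mean of a convex function of centred independent variables grows with the coefficients (Mathlib only), about 130 lines

Induction on `n` (generalise `F`, `μ`, `d`, `t`). All functions are integrable as `|F x| ≤ |F 0| + ∑ d i |x i|`. `n = 0`: `t i * x i` and `x` are equal (`Subsingleton`). Step: `measurePreserving_piFinSuccAbove μ 0`, `Fin.cons x y`, Fubini.
(1) For every `x`: `∫ F (Fin.cons x (t y)) dν(y) ≤ ∫ F (Fin.cons x y) dν(y)` (induction, `F (Fin.cons x ·)` is convex and Lipschitz), use it at `t 0 * x`. (2) For every `y`, `g x = F (Fin.cons x y)` is convex on `ℝ` and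
`g (t x) ≤ (1 - t) g 0 + t g x`, and Jensen (`ConvexOn.map_integral_le`, or a supporting line) `g 0 = g (∫ x) ≤ ∫ g x`, so `∫ g (t x) ≤ (1 - t) g 0 + t ∫ g ≤ ∫ g`. -/

set_option autoImplicit false

namespace H13.LL

open MeasureTheory ProbabilityTheory Filter Topology

private theorem mp_int {n : ℕ} (μ : Fin n → Measure ℝ) [∀ i, IsProbabilityMeasure (μ i)]
    (h1 : ∀ i, Integrable (id : ℝ → ℝ) (μ i)) (d : Fin n → ℝ)
    (F : (Fin n → ℝ) → ℝ) (hF : ∀ x y, |F x - F y| ≤ ∑ i, d i * |x i - y i|) :
    Continuous F ∧ Integrable F (Measure.pi μ) := by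
  have hcont : Continuous F := by
    rw [continuous_iff_continuousAt]
    intro x
    rw [ContinuousAt, tendsto_iff_dist_tendsto_zero]
    refine squeeze_zero (fun _ => dist_nonneg) (fun y => ?_) (g := fun y => ∑ i, d i * |y i - x i|) ?_
    · rw [Real.dist_eq]
      exact hF y x
    · have : Continuous (fun y : Fin n → ℝ => ∑ i, d i * |y i - x i|) :=
        continuous_finsetSum _ fun i _ => by fun_prop
      have h2 := this.tendsto x
      simpa using h2
  refine ⟨hcont, ?_⟩
  have hb : Integrable (fun x : Fin n → ℝ => |F 0| + ∑ i, d i * |x i|) (Measure.pi μ) := by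
    refine (integrable_const _).add (integrable_finsetSum _ fun i _ => ?_)
    refine Integrable.const_mul ?_ _
    exact (integrable_comp_eval (μ := μ) (i := i) (f := fun x : ℝ => |x|) (h1 i).abs)
  refine hb.mono' hcont.aestronglyMeasurable (Filter.Eventually.of_forall fun x => ?_)
  have h2 := hF x 0
  simp only [Pi.zero_apply, sub_zero] at h2
  rw [Real.norm_eq_abs]
  have h3 : |F x| ≤ |F x - F 0| + |F 0| := by
    have := abs_add_le (F x - F 0) (F 0)
    simpa using this
  linarith

private theorem mp_one {μ : Measure ℝ} [IsProbabilityMeasure μ] (h1 : Integrable (id : ℝ → ℝ) μ)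
    (h0 : ∫ x, x ∂μ = 0) {g : ℝ → ℝ} (hc : ConvexOn ℝ Set.univ g) (hcont : Continuous g)
    (hg : Integrable g μ) {t : ℝ} (ht0 : 0 ≤ t) (ht1 : t ≤ 1)
    (hgt : Integrable (fun x => g (t * x)) μ) : ∫ x, g (t * x) ∂μ ≤ ∫ x, g x ∂μ := by
  have hJ : g 0 ≤ ∫ x, g x ∂μ := by
    have := hc.map_integral_le (μ := μ) (f := id) hcont.continuousOn isClosed_univ
      (Filter.Eventually.of_forall fun _ => Set.mem_univ _) h1 hg
    simp only [id] at this
    rwa [h0] at this
  have h2 : ∫ x, g (t * x) ∂μ ≤ ∫ x, ((1 - t) * g 0 + t * g x) ∂μ := by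
    refine integral_mono hgt ((integrable_const _).add (hg.const_mul t)) fun x => ?_
    have h3 := hc.2 (Set.mem_univ (0 : ℝ)) (Set.mem_univ x) (sub_nonneg.2 ht1) ht0 (by ring)
    simp only [smul_eq_mul, mul_zero, zero_add] at h3
    exact h3
  rw [integral_add (integrable_const _) (hg.const_mul t), integral_const, integral_const_mul] at h2
  rw [probReal_univ, one_smul] at h2
  nlinarith

theorem mono_pi {n : ℕ} (μ : Fin n → Measure ℝ) [∀ i, IsProbabilityMeasure (μ i)]
    (h1 : ∀ i, Integrable (id : ℝ → ℝ) (μ i)) (h0 : ∀ i, ∫ x, x ∂(μ i) = 0) (d : Fin n → ℝ) (hd : ∀ i, 0 ≤ d i)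
    (F : (Fin n → ℝ) → ℝ) (hF : ∀ x y, |F x - F y| ≤ ∑ i, d i * |x i - y i|)
    (hc : ConvexOn ℝ Set.univ F) (t : Fin n → ℝ) (ht : ∀ i, 0 ≤ t i ∧ t i ≤ 1) :
    ∫ x, F (fun i => t i * x i) ∂(Measure.pi μ) ≤ ∫ x, F x ∂(Measure.pi μ) := by
  induction n with
  | zero =>
    refine le_of_eq (integral_congr_ae (Filter.Eventually.of_forall fun x => ?_))
    show F _ = F x
    congr 1
    exact Subsingleton.elim _ _
  | succ n ih =>
    have e := measurePreserving_piFinSuccAbove μ 0
    set ν : Measure (Fin n → ℝ) := Measure.pi fun j => μ ((0 : Fin (n + 1)).succAbove j) with hν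
    have hcons : ∀ p : ℝ × (Fin n → ℝ),
        (MeasurableEquiv.piFinSuccAbove (fun _ : Fin (n + 1) => ℝ) 0).symm p = Fin.cons p.1 p.2 := by
      intro p
      funext i
      refine Fin.cases ?_ (fun j => ?_) i
      · rfl
      · rfl
    have hI : ∀ G : (Fin (n + 1) → ℝ) → ℝ, ∫ x, G x ∂(Measure.pi μ) =
        ∫ p : ℝ × (Fin n → ℝ), G (Fin.cons p.1 p.2) ∂((μ 0).prod ν) := by
      intro G
      rw [← e.symm.integral_comp']
      refine integral_congr_ae (Filter.Eventually.of_forall fun p => ?_)
      show G _ = G _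
      rw [hcons]
    have hint : ∀ G : (Fin (n + 1) → ℝ) → ℝ, (∀ x y, |G x - G y| ≤ ∑ i, d i * |x i - y i|) →
        Integrable (fun p : ℝ × (Fin n → ℝ) => G (Fin.cons p.1 p.2)) ((μ 0).prod ν) := by
      intro G hG
      have h2 := (mp_int μ h1 d G hG).2
      have h3 := e.symm.integrable_comp_emb (MeasurableEquiv.measurableEmbedding _) |>.2 h2
      refine h3.congr (Filter.Eventually.of_forall fun p => ?_)
      show G _ = G _
      rw [hcons]
    have hG1 : ∀ s : Fin (n + 1) → ℝ, (∀ i, 0 ≤ s i ∧ s i ≤ 1) → ∀ x y : Fin (n + 1) → ℝ,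
        |F (fun i => s i * x i) - F (fun i => s i * y i)| ≤ ∑ i, d i * |x i - y i| := by
      intro s hs x y
      refine (hF _ _).trans (Finset.sum_le_sum fun i _ => ?_)
      rw [← mul_sub, abs_mul, abs_of_nonneg (hs i).1]
      have h3 : s i * |x i - y i| ≤ 1 * |x i - y i| :=
        mul_le_mul_of_nonneg_right (hs i).2 (abs_nonneg _)
      rw [one_mul] at h3
      exact mul_le_mul_of_nonneg_left h3 (hd i)
    set s1 : Fin (n + 1) → ℝ := Fin.cons (t 0) fun _ => 1 with hs1
    have hs1' : ∀ i, 0 ≤ s1 i ∧ s1 i ≤ 1 := by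
      intro i
      refine Fin.cases ?_ (fun j => ?_) i
      · exact ht 0
      · exact ⟨zero_le_one, le_rfl⟩
    have iA := hint _ (hG1 t ht)
    have iB := hint _ (hG1 s1 hs1')
    have iC := hint F hF
    have eA : ∀ (x : ℝ) (y : Fin n → ℝ), (fun i => t i * (Fin.cons x y : Fin (n + 1) → ℝ) i) =
        (Fin.cons (t 0 * x) (fun j => t j.succ * y j) : Fin (n + 1) → ℝ) := by
      intro x y
      funext i
      refine Fin.cases ?_ (fun j => ?_) i
      · rfl
      · rfl
    have eB : ∀ (x : ℝ) (y : Fin n → ℝ), (fun i => s1 i * (Fin.cons x y : Fin (n + 1) → ℝ) i) =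
        (Fin.cons (t 0 * x) y : Fin (n + 1) → ℝ) := by
      intro x y
      funext i
      refine Fin.cases ?_ (fun j => ?_) i
      · rfl
      · simp [hs1]
    have hsum : ∀ (x x' : ℝ) (y y' : Fin n → ℝ), ∑ i, d i * |(Fin.cons x y : Fin (n + 1) → ℝ) i -
        (Fin.cons x' y' : Fin (n + 1) → ℝ) i| = d 0 * |x - x'| + ∑ j : Fin n, d j.succ * |y j - y' j| := by
      intro x x' y y'
      rw [Fin.sum_univ_succ]
      rfl
    rw [hI, hI]
    refine le_trans (b := ∫ p : ℝ × (Fin n → ℝ), F (fun i => s1 i * (Fin.cons p.1 p.2 : Fin (n + 1) → ℝ) i)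
      ∂((μ 0).prod ν)) ?_ ?_
    · rw [integral_prod _ iA, integral_prod _ iB]
      refine integral_mono iA.integral_prod_left iB.integral_prod_left fun x => ?_
      simp only [eA, eB]
      refine ih (fun j => μ ((0 : Fin (n + 1)).succAbove j)) (fun j => h1 _) (fun j => h0 _)
        (fun j => d j.succ) (fun j => hd _) (fun y => F (Fin.cons (t 0 * x) y)) (fun y y' => ?_) ?_
        (fun j => t j.succ) (fun j => ht _)
      · refine (hF _ _).trans (le_of_eq ?_)
        rw [hsum]
        simp
      · refine ⟨convex_univ, fun y _ y' _ a b ha hb hab => ?_⟩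
        have h3 := hc.2 (Set.mem_univ (Fin.cons (t 0 * x) y : Fin (n + 1) → ℝ))
          (Set.mem_univ (Fin.cons (t 0 * x) y' : Fin (n + 1) → ℝ)) ha hb hab
        refine le_trans (le_of_eq ?_) h3
        show F (Fin.cons (t 0 * x) (a • y + b • y')) = _
        congr 1
        funext i
        refine Fin.cases ?_ (fun j => ?_) i
        · simp only [Pi.add_apply, Pi.smul_apply, Fin.cons_zero, smul_eq_mul]
          rw [← add_mul, hab, one_mul]
        · simp only [Pi.add_apply, Pi.smul_apply, Fin.cons_succ]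
    · rw [integral_prod_symm _ iB, integral_prod_symm _ iC]
      refine integral_mono iB.integral_prod_right iC.integral_prod_right fun y => ?_
      simp only [eB]
      have hL : ∀ x x' : ℝ, |F (Fin.cons x y) - F (Fin.cons x' y)| ≤ d 0 * |x - x'| := by
        intro x x'
        refine (hF _ _).trans (le_of_eq ?_)
        rw [hsum]
        simp
      have hgen : ∀ g : ℝ → ℝ, (∀ x x', |g x - g x'| ≤ d 0 * |x - x'|) →
          Continuous g ∧ Integrable g (μ 0) := by
        intro g hg
        have hcont : Continuous g := by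
          have : LipschitzWith (Real.toNNReal (d 0)) g := by
            apply LipschitzWith.of_dist_le_mul
            intro x x'
            rw [Real.coe_toNNReal _ (hd 0), Real.dist_eq, Real.dist_eq]
            exact hg x x'
          exact this.continuous
        refine ⟨hcont, ?_⟩
        have hb : Integrable (fun x : ℝ => |g 0| + d 0 * |x|) (μ 0) :=
          (integrable_const _).add (((h1 0).abs).const_mul _)
        refine hb.mono' hcont.aestronglyMeasurable (Filter.Eventually.of_forall fun x => ?_)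
        have h2 := hg x 0
        rw [sub_zero] at h2
        rw [Real.norm_eq_abs]
        have h3 : |g x| ≤ |g x - g 0| + |g 0| := by
          have := abs_add_le (g x - g 0) (g 0)
          simpa using this
        linarith
      have g1 := hgen (fun x => F (Fin.cons x y)) hL
      have g2 := hgen (fun x => F (Fin.cons (t 0 * x) y)) (fun x x' => by
        refine (hL _ _).trans ?_
        rw [← mul_sub, abs_mul, abs_of_nonneg (ht 0).1]
        have h3 : t 0 * |x - x'| ≤ 1 * |x - x'| :=
          mul_le_mul_of_nonneg_right (ht 0).2 (abs_nonneg _)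
        rw [one_mul] at h3
        exact mul_le_mul_of_nonneg_left h3 (hd 0))
      refine mp_one (g := fun x => F (Fin.cons x y)) (h1 0) (h0 0) ?_ g1.1 g1.2 (ht 0).1 (ht 0).2 g2.2
      refine ⟨convex_univ, fun x _ x' _ a b ha hb hab => ?_⟩
      have h3 := hc.2 (Set.mem_univ (Fin.cons x y : Fin (n + 1) → ℝ))
        (Set.mem_univ (Fin.cons x' y : Fin (n + 1) → ℝ)) ha hb hab
      refine le_trans (le_of_eq ?_) h3
      show F (Fin.cons (a • x + b • x') y) = _
      congr 1
      funext i
      refine Fin.cases ?_ (fun j => ?_) i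
      · simp only [Pi.add_apply, Pi.smul_apply, Fin.cons_zero]
      · simp only [Pi.add_apply, Pi.smul_apply, Fin.cons_succ, smul_eq_mul]
        rw [← add_mul, hab, one_mul]

end H13.LL
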