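import Pool.Agent.H13.LL.Defs
import Pool.Agent.H13.LL.ES
import Pool.Agent.H13.LL.MonoPi

/-! # LL.VarN : variance and monotonicity of the mean for the norm, about 130 lines

Let `F x = nrm n (fun i => if h : i < n then w i * x ⟨i, h⟩ else 0)` on `Fin n → ℝ`; `|F x - F y| ≤ ∑ |w i| |x i - y i|` (`abs_nrm_sub_le_sum`, `Finset.sum_range`), convex (`nrm_add_le`, `nrm_smul`).
The law of `ω ↦ (ξ i ω)_{i : Fin n}` is `Measure.pi (fun i => P.map (ξ i))` (`iIndepFun.precomp Fin.val_injective`, `iIndepFun_iff_map_fun_eq_pi_map`). `nrm n (fun i => w i * ξ i ω) = F (fun i => ξ i ω)` (`nrm_congr`).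
`var_nrm`: `var_pi` with `d i = |w i|`, `variance_map`, `Finset.sum_range`. `mono_nrm`: `mono_pi`. -/

set_option autoImplicit false

namespace H13.LL

open MeasureTheory ProbabilityTheory Filter Topology

variable {Ω : Type*} [MeasurableSpace Ω] {P : Measure Ω} [IsProbabilityMeasure P] {ξ : ℕ → Ω → ℝ}

/-- the weighted coefficients, extended by zero -/
private noncomputable def ext (n : ℕ) (w : ℕ → ℝ) (x : Fin n → ℝ) : ℕ → ℝ :=
  fun i => if h : i < n then w i * x ⟨i, h⟩ else 0

private theorem ext_fin (n : ℕ) (w : ℕ → ℝ) (x : Fin n → ℝ) (i : Fin n) :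
    ext n w x i = w i * x i := by
  unfold ext
  rw [dif_pos i.2]

/-- the norm as a function of `n` real variables -/
private noncomputable def FF (n : ℕ) (w : ℕ → ℝ) (x : Fin n → ℝ) : ℝ := nrm n (ext n w x)

private theorem FF_eq (n : ℕ) (w : ℕ → ℝ) (x : ℕ → ℝ) :
    FF n w (fun i => x i) = nrm n (fun i => w i * x i) := by
  unfold FF
  apply nrm_congr
  intro i hi
  unfold ext
  rw [dif_pos hi]

private theorem FF_lip (n : ℕ) (w : ℕ → ℝ) (x y : Fin n → ℝ) :
    |FF n w x - FF n w y| ≤ ∑ i : Fin n, |w i| * |x i - y i| := by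
  refine (abs_nrm_sub_le_sum n _ _).trans ?_
  rw [Finset.sum_range]
  refine Finset.sum_le_sum fun i _ => ?_
  rw [ext_fin, ext_fin, ← abs_mul, mul_sub]

private theorem FF_add (n : ℕ) (w : ℕ → ℝ) (x y : Fin n → ℝ) :
    FF n w (x + y) ≤ FF n w x + FF n w y := by
  have h := nrm_add_le n (ext n w x) (ext n w y)
  have e : (fun i => ext n w x i + ext n w y i) = ext n w (x + y) := by
    funext i
    unfold ext
    by_cases hi : i < n
    · rw [dif_pos hi, dif_pos hi, dif_pos hi, Pi.add_apply]
      ring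
    · rw [dif_neg hi, dif_neg hi, dif_neg hi, add_zero]
  rw [e] at h
  exact h

private theorem FF_smul (n : ℕ) (w : ℕ → ℝ) (c : ℝ) (x : Fin n → ℝ) :
    FF n w (c • x) = |c| * FF n w x := by
  have h := nrm_smul n c (ext n w x)
  have e : (fun i => c * ext n w x i) = ext n w (c • x) := by
    funext i
    unfold ext
    by_cases hi : i < n
    · rw [dif_pos hi, dif_pos hi, Pi.smul_apply, smul_eq_mul]
      ring
    · rw [dif_neg hi, dif_neg hi, mul_zero]
  rw [e] at h
  exact h

private theorem FF_convex (n : ℕ) (w : ℕ → ℝ) : ConvexOn ℝ Set.univ (FF n w) := by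
  refine ⟨convex_univ, fun x _ y _ a b ha hb _ => ?_⟩
  refine (FF_add n w _ _).trans ?_
  rw [FF_smul, FF_smul, abs_of_nonneg ha, abs_of_nonneg hb, smul_eq_mul, smul_eq_mul]

private theorem FF_continuous (n : ℕ) (w : ℕ → ℝ) : Continuous (FF n w) := by
  refine (continuous_nrm n).comp ?_
  rw [continuous_pi_iff]
  intro i
  unfold ext
  by_cases hi : i < n
  · simp only [dif_pos hi]
    fun_prop
  · simp only [dif_neg hi]
    exact continuous_const

private theorem law (hm : ∀ k, Measurable (ξ k)) (hi : iIndepFun ξ P) (n : ℕ) :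
    P.map (fun ω (i : Fin n) => ξ i ω) = Measure.pi (fun i : Fin n => P.map (ξ i)) := by
  have h := hi.precomp (g := fun i : Fin n => (i : ℕ)) Fin.val_injective
  exact (iIndepFun_iff_map_fun_eq_pi_map (fun i => (hm _).aemeasurable)).1 h

theorem var_nrm (hm : ∀ k, Measurable (ξ k)) (hi : iIndepFun ξ P) (h2 : ∀ k, MemLp (ξ k) 2 P) (n : ℕ)
    (w : ℕ → ℝ) :
    MemLp (fun ω => nrm n (fun i => w i * ξ i ω)) 2 P ∧
      variance (fun ω => nrm n (fun i => w i * ξ i ω)) P ≤
        ∑ i ∈ Finset.range n, w i ^ 2 * variance (ξ i) P := by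
  haveI : ∀ i : Fin n, IsProbabilityMeasure (P.map (ξ i)) :=
    fun i => Measure.isProbabilityMeasure_map (hm i).aemeasurable
  have hY : Measurable (fun ω (i : Fin n) => ξ i ω) := measurable_pi_iff.2 fun i => hm i
  have hF := (FF_continuous n w)
  have h := var_pi (fun i : Fin n => P.map (ξ i)) (fun i => by
      rw [memLp_map_measure_iff (by fun_prop) (hm _).aemeasurable]
      exact h2 i) (fun i => |w i|) (fun i => abs_nonneg _) (FF n w) (FF_lip n w)
  rw [← law hm hi n] at h
  have e : FF n w ∘ (fun ω (i : Fin n) => ξ i ω) = fun ω => nrm n (fun i => w i * ξ i ω) := by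
    funext ω
    exact FF_eq n w (fun i => ξ i ω)
  refine ⟨?_, ?_⟩
  · have h1 := h.1
    rw [memLp_map_measure_iff hF.aestronglyMeasurable hY.aemeasurable, e] at h1
    exact h1
  · have h1 := h.2
    rw [variance_map hF.measurable.aemeasurable hY.aemeasurable, e] at h1
    refine h1.trans (le_of_eq ?_)
    rw [Finset.sum_range]
    refine Finset.sum_congr rfl fun i _ => ?_
    rw [variance_map measurable_id.aemeasurable (hm _).aemeasurable, sq_abs, Function.id_comp]

theorem mono_nrm (hm : ∀ k, Measurable (ξ k)) (hi : iIndepFun ξ P) (h1 : ∀ k, Integrable (ξ k) P)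
    (h0 : ∀ k, ∫ ω, ξ k ω ∂P = 0) (n : ℕ) (w t : ℕ → ℝ) (ht : ∀ i, 0 ≤ t i ∧ t i ≤ 1) :
    ∫ ω, nrm n (fun i => t i * (w i * ξ i ω)) ∂P ≤ ∫ ω, nrm n (fun i => w i * ξ i ω) ∂P := by
  haveI : ∀ i : Fin n, IsProbabilityMeasure (P.map (ξ i)) :=
    fun i => Measure.isProbabilityMeasure_map (hm i).aemeasurable
  have hY : Measurable (fun ω (i : Fin n) => ξ i ω) := measurable_pi_iff.2 fun i => hm i
  have hF := (FF_continuous n w)
  have hG : Continuous (fun x : Fin n → ℝ => FF n w (fun i => t i * x i)) :=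
    hF.comp (by fun_prop)
  have h := mono_pi (fun i : Fin n => P.map (ξ i)) (fun i => by
      rw [integrable_map_measure (by fun_prop) (hm _).aemeasurable]
      exact h1 i) (fun i => by
      rw [integral_map (hm _).aemeasurable (by fun_prop)]
      exact h0 i) (fun i => |w i|) (fun i => abs_nonneg _) (FF n w) (FF_lip n w) (FF_convex n w)
      (fun i => t i) (fun i => ht i)
  rw [← law hm hi n, integral_map hY.aemeasurable hG.aestronglyMeasurable,
    integral_map hY.aemeasurable hF.aestronglyMeasurable] at h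
  have e1 : (fun ω => FF n w (fun i : Fin n => ξ i ω)) = fun ω => nrm n (fun i => w i * ξ i ω) := by
    funext ω
    exact FF_eq n w (fun i => ξ i ω)
  have e2 : (fun ω => FF n w (fun i : Fin n => t i * ξ i ω)) =
      fun ω => nrm n (fun i => t i * (w i * ξ i ω)) := by
    funext ω
    have h3 := FF_eq n w (fun i => t i * ξ i ω)
    rw [h3]
    congr 1
    funext i
    ring
  rw [e1, e2] at h
  exact h

end H13.LL
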