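import Pool.Agent.H13.LL.LLNp
import Pool.Agent.H13.LL.VarN

/-! # LL.Mean : convergence of the means and in `L²`, about 120 lines

`Mx n ξ` is in `L²` with variance `≤ v Hs n ≤ v (1 + log n)`, `v = ∫ ξ_0²` (`var_nrm` with `w = wt`, `wt_sq`, `Hs_le`; variances are equal by `IdentDistrib`; `variance_le_expectation_sq` or centredness).
`mean_tendsto`: let `m n = ∫ Mx n`. If `|m n - σ log n| ≥ ε log n` then every `ω` is in `{|Mx n - σ log n| ≥ (ε/2) log n}` or in `{|Mx n - m n| ≥ (ε/2) log n}`, whose probabilities tend to `0` (`lln_prob`; Chebyshev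
`meas_ge_le_variance_div_sq`: `≤ 4 v (1 + log n) / (ε² log² n)`); for large `n` the sum is `< 1`, contradiction. `l2_tendsto`: `∫ (Mx n / log n - σ)² = Var / log² n + (m n / log n - σ)²`. -/

set_option autoImplicit false

namespace H13.LL

open MeasureTheory ProbabilityTheory Filter Topology

variable {Ω : Type*} [MeasurableSpace Ω] {P : Measure Ω} [IsProbabilityMeasure P] {ξ : ℕ → Ω → ℝ}

theorem memLp_Mx (h : Sq P ξ) (n : ℕ) : MemLp (fun ω => Mx n (fun i => ξ i ω)) 2 P :=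
  (var_nrm h.meas h.ind (fun k => (h.idd k).memLp_iff.2 h.mem) n wt).1

theorem var_Mx (h : Sq P ξ) {n : ℕ} (hn : 1 ≤ n) :
    variance (fun ω => Mx n (fun i => ξ i ω)) P ≤ (∫ ω, ξ 0 ω ^ 2 ∂P) * (1 + Real.log n) := by
  have h1 := (var_nrm h.meas h.ind (fun k => (h.idd k).memLp_iff.2 h.mem) n wt).2
  refine h1.trans ?_
  have h2 : variance (ξ 0) P ≤ ∫ ω, ξ 0 ω ^ 2 ∂P :=
    variance_le_expectation_sq (h.meas 0).aestronglyMeasurable
  have h3 : ∑ i ∈ Finset.range n, wt i ^ 2 * variance (ξ i) P = Hs n * variance (ξ 0) P := by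
    unfold Hs
    rw [Finset.sum_mul]
    refine Finset.sum_congr rfl fun i _ => ?_
    rw [wt_sq, (h.idd i).variance_eq]
  rw [h3]
  calc Hs n * variance (ξ 0) P ≤ (1 + Real.log n) * ∫ ω, ξ 0 ω ^ 2 ∂P := by
        refine mul_le_mul (Hs_le n hn) h2 (variance_nonneg _ _) ?_
        have : 0 ≤ Real.log n := Real.log_natCast_nonneg n
        linarith
    _ = _ := mul_comm _ _

private theorem log_atTop : Tendsto (fun n : ℕ => Real.log n) atTop atTop :=
  Real.tendsto_log_atTop.comp tendsto_natCast_atTop_atTop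

private theorem inv_log : Tendsto (fun n : ℕ => (Real.log n)⁻¹) atTop (𝓝 0) :=
  tendsto_inv_atTop_zero.comp log_atTop

private theorem ratio_tendsto (c : ℝ) :
    Tendsto (fun n : ℕ => c * (1 + Real.log n) / Real.log n ^ 2) atTop (𝓝 0) := by
  have h1 : Tendsto (fun n : ℕ => c * ((Real.log n)⁻¹ * (Real.log n)⁻¹ + (Real.log n)⁻¹)) atTop
      (𝓝 0) := by
    have h2 := ((inv_log.mul inv_log).add inv_log).const_mul c
    simpa using h2
  refine h1.congr' ?_
  filter_upwards [log_atTop.eventually_gt_atTop 0] with n hn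
  field_simp

theorem mean_tendsto (h : Sq P ξ) :
    Tendsto (fun n : ℕ => (∫ ω, Mx n (fun i => ξ i ω) ∂P) / Real.log n) atTop (𝓝 (sd P ξ)) := by
  rw [Metric.tendsto_nhds]
  intro ε hε
  have hε2 : 0 < ε / 2 := by linarith
  have e1 := (lln_prob h hε2).eventually (gt_mem_nhds (show (0 : ℝ) < 1 / 2 by norm_num))
  have e2 := (ratio_tendsto ((∫ ω, ξ 0 ω ^ 2 ∂P) / (ε / 2) ^ 2)).eventually
    (gt_mem_nhds (show (0 : ℝ) < 1 / 2 by norm_num))
  filter_upwards [e1, e2, log_atTop.eventually_gt_atTop 0, eventually_ge_atTop 1] with n h1 h2 h3 h4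
  have hc : 0 < ε / 2 * Real.log n := by positivity
  have h5 : P.real {ω | ε / 2 * Real.log n ≤ |Mx n (fun i => ξ i ω) -
      ∫ ω', Mx n (fun i => ξ i ω') ∂P|} < 1 / 2 := by
    have h6 := meas_ge_le_variance_div_sq (memLp_Mx h n) hc
    have h7 : P.real {ω | ε / 2 * Real.log n ≤ |Mx n (fun i => ξ i ω) -
        ∫ ω', Mx n (fun i => ξ i ω') ∂P|} ≤
        variance (fun ω => Mx n (fun i => ξ i ω)) P / (ε / 2 * Real.log n) ^ 2 := by
      refine ENNReal.toReal_le_of_le_ofReal ?_ h6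
      exact div_nonneg (variance_nonneg _ _) (sq_nonneg _)
    refine lt_of_le_of_lt h7 (lt_of_le_of_lt ?_ h2)
    rw [mul_pow, div_mul_eq_mul_div, div_div]
    gcongr
    exact var_Mx h h4
  obtain ⟨ω, hω⟩ : ∃ ω, ω ∉ {ω | ε / 2 * Real.log n ≤ |Mx n (fun i => ξ i ω) -
      sd P ξ * Real.log n|} ∪ {ω | ε / 2 * Real.log n ≤ |Mx n (fun i => ξ i ω) -
      ∫ ω', Mx n (fun i => ξ i ω') ∂P|} := by
    by_contra hcon
    push Not at hcon
    have h6 := measureReal_union_le (μ := P) {ω | ε / 2 * Real.log n ≤ |Mx n (fun i => ξ i ω) -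
      sd P ξ * Real.log n|} {ω | ε / 2 * Real.log n ≤ |Mx n (fun i => ξ i ω) -
      ∫ ω', Mx n (fun i => ξ i ω') ∂P|}
    rw [Set.eq_univ_of_forall hcon, probReal_univ] at h6
    linarith
  rw [Set.mem_union, not_or, Set.mem_ofPred_eq, Set.mem_ofPred_eq, not_le, not_le] at hω
  obtain ⟨a1, a2⟩ := hω
  rw [Real.dist_eq]
  have h6 : |(∫ ω', Mx n (fun i => ξ i ω') ∂P) - sd P ξ * Real.log n| < ε * Real.log n := by
    rw [abs_lt] at *
    constructor <;> linarith [a1.1, a1.2, a2.1, a2.2]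
  have h7 : (∫ ω', Mx n (fun i => ξ i ω') ∂P) / Real.log n - sd P ξ =
      ((∫ ω', Mx n (fun i => ξ i ω') ∂P) - sd P ξ * Real.log n) / Real.log n := by
    field_simp
  rw [h7, abs_div, abs_of_pos h3, div_lt_iff₀ h3]
  exact h6

theorem l2_tendsto (h : Sq P ξ) :
    Tendsto (fun n : ℕ => ∫ ω, (Mx n (fun i => ξ i ω) / Real.log n - sd P ξ) ^ 2 ∂P) atTop (𝓝 0) := by
  have h1 : Tendsto (fun n : ℕ => (∫ ω, ξ 0 ω ^ 2 ∂P) * (1 + Real.log n) / Real.log n ^ 2 +
      ((∫ ω, Mx n (fun i => ξ i ω) ∂P) / Real.log n - sd P ξ) ^ 2) atTop (𝓝 0) := by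
    have h2 := (ratio_tendsto (∫ ω, ξ 0 ω ^ 2 ∂P)).add (((mean_tendsto h).sub_const (sd P ξ)).pow 2)
    simpa using h2
  refine squeeze_zero' (Eventually.of_forall fun n => integral_nonneg fun ω => sq_nonneg _) ?_ h1
  filter_upwards [log_atTop.eventually_gt_atTop 0, eventually_ge_atTop 1] with n h3 h4
  have hm := memLp_Mx h n
  have i1 : Integrable (fun ω => Mx n (fun i => ξ i ω) ^ 2) P := hm.integrable_sq
  have i2 : Integrable (fun ω => Mx n (fun i => ξ i ω)) P := hm.integrable (by norm_num)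
  have hv := variance_eq_sub hm
  have hv2 : variance (fun ω => Mx n (fun i => ξ i ω)) P =
      (∫ ω, Mx n (fun i => ξ i ω) ^ 2 ∂P) - (∫ ω, Mx n (fun i => ξ i ω) ∂P) ^ 2 := hv
  have e1 : (fun ω => (Mx n (fun i => ξ i ω) / Real.log n - sd P ξ) ^ 2) =
      fun ω => (1 / Real.log n ^ 2) * Mx n (fun i => ξ i ω) ^ 2 -
        (2 * sd P ξ / Real.log n) * Mx n (fun i => ξ i ω) + sd P ξ ^ 2 := by
    funext ω
    field_simp
    ring
  have e2 : ∫ ω, (Mx n (fun i => ξ i ω) / Real.log n - sd P ξ) ^ 2 ∂P =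
      (1 / Real.log n ^ 2) * (∫ ω, Mx n (fun i => ξ i ω) ^ 2 ∂P) -
        (2 * sd P ξ / Real.log n) * (∫ ω, Mx n (fun i => ξ i ω) ∂P) + sd P ξ ^ 2 := by
    have j1 : Integrable (fun ω => (1 / Real.log n ^ 2) * Mx n (fun i => ξ i ω) ^ 2) P :=
      i1.const_mul _
    have j2 : Integrable (fun ω => (2 * sd P ξ / Real.log n) * Mx n (fun i => ξ i ω)) P :=
      i2.const_mul _
    have j3 : Integrable (fun ω => (1 / Real.log n ^ 2) * Mx n (fun i => ξ i ω) ^ 2 -
        (2 * sd P ξ / Real.log n) * Mx n (fun i => ξ i ω)) P := j1.sub j2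
    rw [e1, integral_add j3 (integrable_const _), integral_sub j1 j2, integral_const_mul,
      integral_const_mul, integral_const, probReal_univ, one_smul]
  have e3 : ∫ ω, (Mx n (fun i => ξ i ω) / Real.log n - sd P ξ) ^ 2 ∂P =
      variance (fun ω => Mx n (fun i => ξ i ω)) P / Real.log n ^ 2 +
        ((∫ ω, Mx n (fun i => ξ i ω) ∂P) / Real.log n - sd P ξ) ^ 2 := by
    rw [e2, hv2]
    field_simp
    ring
  rw [e3]
  gcongr
  exact var_Mx h h4

end H13.LL
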