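import Mathlib

/-! # LL.Star : comparison with the small part (Mathlib only), about 200 lines

Let `B = {x | |x| ≤ A}`, `μ_s = ProbabilityTheory.cond μ B` (a probability measure), `ψ x y = if |x| ≤ A then y else x`, `nu μ A` = law of `if |x| ≤ A then y - y' else 0` under `μ.prod (μ_s.prod μ_s)`.
(a) `(μ.prod μ_s).map (fun p => ψ p.1 p.2) = μ`: for measurable `S`: `(μ.prod μ_s) {ψ ∈ S} = μ B * μ_s S + μ (Bᶜ ∩ S) = μ (B ∩ S) + μ (Bᶜ ∩ S) = μ S`.
(b) Let `Q = Measure.pi (fun _ : Fin n => μ.prod (μ_s.prod μ_s))`, `X¹ i = ψ (x i) (y i)`, `X² i = ψ (x i) (y' i)`. By `Measure.pi_map_pi` (`pi_map_pi`) the law of `X¹` and of `X²` is `Measure.pi (fun _ => μ)` and the law of `X¹ - X²` is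
`Measure.pi (fun _ => nu μ A)` (coordinatewise `ψ x y - ψ x y' = if |x| ≤ A then y - y' else 0`).
(c) `Q (f X¹ < t)² ≤ Q (f X¹ < t and f X² < t)`: `Q` corresponds to `(pi μ).prod ((pi μ_s).prod (pi μ_s))` (`MeasurableEquiv.arrowProdEquivProdArrow`, `measurePreserving_arrowProdEquivProdArrow`, twice); for fixed `x`, with
`g x = (pi μ_s) {y | f (ψ x y) < t}`, the right side is `∫ g(x)² d(pi μ)` and the left side is `(∫ g)²`; Cauchy-Schwarz / Jensen (`0 ≤ ∫ (g - ∫ g)²`).
(d) `f X¹ < t` and `f X² < t` imply `f (X¹ - X²) < 2 t` (`hsub`). -/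

set_option autoImplicit false

namespace H13.LL

open MeasureTheory ProbabilityTheory Filter Topology

/-- the law of the difference of two independent copies of the small part, multiplied by the indicator of a small value -/
noncomputable def nu (μ : Measure ℝ) (A : ℝ) : Measure ℝ :=
  (μ.prod ((ProbabilityTheory.cond μ {x | |x| ≤ A}).prod (ProbabilityTheory.cond μ {x | |x| ≤ A}))).map
    (fun p => if |p.1| ≤ A then p.2.1 - p.2.2 else 0)

private theorem measB (A : ℝ) : MeasurableSet {x : ℝ | |x| ≤ A} :=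
  measurableSet_le (by fun_prop) measurable_const

private theorem measPsi (A : ℝ) : Measurable (fun p : ℝ × ℝ => if |p.1| ≤ A then p.2 else p.1) :=
  Measurable.ite (measurableSet_le (by fun_prop) measurable_const) measurable_snd measurable_fst

private theorem measDelta (A : ℝ) :
    Measurable (fun p : ℝ × ℝ × ℝ => if |p.1| ≤ A then p.2.1 - p.2.2 else (0 : ℝ)) :=
  Measurable.ite (measurableSet_le (by fun_prop) measurable_const) (by fun_prop) measurable_const

private theorem mapPsi (μ : Measure ℝ) [IsProbabilityMeasure μ] {A : ℝ}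
    [IsProbabilityMeasure (ProbabilityTheory.cond μ {x | |x| ≤ A})] :
    (μ.prod (ProbabilityTheory.cond μ {x | |x| ≤ A})).map
      (fun p => if |p.1| ≤ A then p.2 else p.1) = μ := by
  ext S hS
  rw [Measure.map_apply (measPsi A) hS]
  have hB := measB A
  have hset : (fun p : ℝ × ℝ => if |p.1| ≤ A then p.2 else p.1) ⁻¹' S =
      ({x : ℝ | |x| ≤ A} ×ˢ S) ∪ (({x : ℝ | |x| ≤ A}ᶜ ∩ S) ×ˢ Set.univ) := by
    ext ⟨x, y⟩
    by_cases h : |x| ≤ A
    · simp [h]
    · simp [h]
  have hdis : Disjoint ({x : ℝ | |x| ≤ A} ×ˢ S) (({x : ℝ | |x| ≤ A}ᶜ ∩ S) ×ˢ (Set.univ : Set ℝ)) := by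
    rw [Set.disjoint_left]
    rintro ⟨x, y⟩ h1 h2
    exact h2.1.1 h1.1
  rw [hset, measure_union hdis ((hB.compl.inter hS).prod MeasurableSet.univ), Measure.prod_prod,
    Measure.prod_prod, measure_univ, mul_one, mul_comm, cond_mul_eq_inter hB, Set.inter_comm _ S,
    Set.inter_comm _ S, ← Set.sdiff_eq, measure_inter_add_sdiff S hB]

/-- product measures and coordinatewise maps -/
private theorem pairMap {α β γ : Type*} [MeasurableSpace α] [MeasurableSpace β] [MeasurableSpace γ]
    (μ : Measure α) (ν : Measure β) [IsProbabilityMeasure μ] [IsProbabilityMeasure ν] (n : ℕ)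
    (φ : α × β → γ) (hφ : Measurable φ) :
    ((Measure.pi fun _ : Fin n => μ).prod (Measure.pi fun _ : Fin n => ν)).map
      (fun p i => φ (p.1 i, p.2 i)) = Measure.pi fun _ : Fin n => (μ.prod ν).map φ := by
  have h1 := measurePreserving_arrowProdEquivProdArrow α β (Fin n) (fun _ => μ) (fun _ => ν)
  rw [← h1.map_eq, Measure.map_map (by fun_prop) h1.measurable]
  have : IsProbabilityMeasure ((μ.prod ν).map φ) := Measure.isProbabilityMeasure_map hφ.aemeasurable
  rw [← Measure.pi_map_pi (fun _ => hφ.aemeasurable)]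
  rfl

private theorem jensen {Ω Ω' : Type*} [MeasurableSpace Ω] [MeasurableSpace Ω'] (P : Measure Ω)
    (R : Measure Ω') [IsProbabilityMeasure P] [IsProbabilityMeasure R] (E : Set (Ω × Ω'))
    (hE : MeasurableSet E) :
    ((P.prod R).real E) ^ 2 ≤
      (P.prod (R.prod R)).real {p | (p.1, p.2.1) ∈ E ∧ (p.1, p.2.2) ∈ E} := by
  have hgm : Measurable (fun x => R (Prod.mk x ⁻¹' E)) := measurable_measure_prodMk_left hE
  set g : Ω → ℝ := fun x => R.real (Prod.mk x ⁻¹' E) with hg
  have hgmeas : Measurable g := hgm.ennreal_toReal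
  have hg01 : ∀ x, ‖g x‖ ≤ 1 := fun x => by
    rw [Real.norm_eq_abs, abs_of_nonneg measureReal_nonneg]
    exact measureReal_le_one
  have hL2 : MemLp g 2 P := MemLp.of_bound hgmeas.aestronglyMeasurable 1 (Eventually.of_forall hg01)
  have h1 : (P.prod R).real E = ∫ x, g x ∂P := by
    rw [measureReal_def, Measure.prod_apply hE, ← integral_toReal hgm.aemeasurable
      (Eventually.of_forall fun x => measure_lt_top _ _)]
    rfl
  have hE2 : MeasurableSet {p : Ω × Ω' × Ω' | (p.1, p.2.1) ∈ E ∧ (p.1, p.2.2) ∈ E} := by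
    apply MeasurableSet.inter
    · exact hE.preimage (by fun_prop : Measurable fun p : Ω × Ω' × Ω' => (p.1, p.2.1))
    · exact hE.preimage (by fun_prop : Measurable fun p : Ω × Ω' × Ω' => (p.1, p.2.2))
  have h2 : (P.prod (R.prod R)).real {p | (p.1, p.2.1) ∈ E ∧ (p.1, p.2.2) ∈ E} =
      ∫ x, (g x) ^ 2 ∂P := by
    have hs : ∀ x, (R.prod R) (Prod.mk x ⁻¹' {p : Ω × Ω' × Ω' | (p.1, p.2.1) ∈ E ∧ (p.1, p.2.2) ∈ E}) =
        R (Prod.mk x ⁻¹' E) * R (Prod.mk x ⁻¹' E) := by
      intro x
      rw [← Measure.prod_prod]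
      rfl
    rw [measureReal_def, Measure.prod_apply hE2]
    simp_rw [hs]
    have hmm : Measurable (fun x => R (Prod.mk x ⁻¹' E) * R (Prod.mk x ⁻¹' E)) := hgm.mul hgm
    rw [← integral_toReal hmm.aemeasurable
      (Eventually.of_forall fun x => ENNReal.mul_lt_top (measure_lt_top _ _) (measure_lt_top _ _))]
    apply integral_congr_ae
    refine Eventually.of_forall fun x => ?_
    simp only [ENNReal.toReal_mul, hg, measureReal_def, sq]
  rw [h1, h2]
  have h3 := variance_nonneg g P
  rw [variance_eq_sub hL2] at h3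
  have h4 : P[g ^ 2] = ∫ x, (g x) ^ 2 ∂P := rfl
  linarith

theorem star (μ : Measure ℝ) [IsProbabilityMeasure μ] {A : ℝ} (hA : μ {x | |x| ≤ A} ≠ 0) (n : ℕ)
    (f : (Fin n → ℝ) → ℝ) (hf : Measurable f) (hsub : ∀ x y, f (fun i => x i - y i) ≤ f x + f y) (t : ℝ) :
    ((Measure.pi fun _ : Fin n => μ).real {x | f x < t}) ^ 2 ≤
      (Measure.pi fun _ : Fin n => nu μ A).real {x | f x < 2 * t} := by
  have hpr : IsProbabilityMeasure (ProbabilityTheory.cond μ {x | |x| ≤ A}) :=
    cond_isProbabilityMeasure hA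
  set μs := ProbabilityTheory.cond μ {x | |x| ≤ A} with hμs
  set P := Measure.pi fun _ : Fin n => μ with hP
  set R := Measure.pi fun _ : Fin n => μs with hR
  have hmp := measPsi A
  have hmd := measDelta A
  have hΨ : Measurable (fun p : (Fin n → ℝ) × (Fin n → ℝ) => fun i =>
      if |p.1 i| ≤ A then p.2 i else p.1 i) :=
    measurable_pi_lambda _ fun i => hmp.comp
      (by fun_prop : Measurable fun p : (Fin n → ℝ) × (Fin n → ℝ) => (p.1 i, p.2 i))
  have hΔ : Measurable (fun p : (Fin n → ℝ) × (Fin n → ℝ) × (Fin n → ℝ) => fun i =>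
      if |p.1 i| ≤ A then p.2.1 i - p.2.2 i else (0 : ℝ)) :=
    measurable_pi_lambda _ fun i => hmd.comp
      (by fun_prop : Measurable fun p : (Fin n → ℝ) × (Fin n → ℝ) × (Fin n → ℝ) =>
        (p.1 i, p.2.1 i, p.2.2 i))
  -- the law of the first mixture
  have hlaw1 : (P.prod R).map (fun p i => if |p.1 i| ≤ A then p.2 i else p.1 i) = P := by
    have h := pairMap μ μs n (fun p => if |p.1| ≤ A then p.2 else p.1) hmp
    rw [mapPsi μ] at h
    exact h
  -- the law of the difference
  have hlaw2 : (P.prod (R.prod R)).map (fun p i => if |p.1 i| ≤ A then p.2.1 i - p.2.2 i else (0 : ℝ)) =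
      Measure.pi fun _ : Fin n => nu μ A := by
    have h := pairMap μ (μs.prod μs) n (fun p => if |p.1| ≤ A then p.2.1 - p.2.2 else 0) hmd
    have h1 := measurePreserving_arrowProdEquivProdArrow ℝ ℝ (Fin n) (fun _ => μs) (fun _ => μs)
    have h2 : (P.prod (R.prod R)) = (P.prod (Measure.pi fun _ : Fin n => μs.prod μs)).map
        (Prod.map id (MeasurableEquiv.arrowProdEquivProdArrow ℝ ℝ (Fin n))) := by
      rw [← Measure.map_prod_map _ _ measurable_id h1.measurable, h1.map_eq, Measure.map_id]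
    rw [h2, Measure.map_map hΔ (measurable_id.prodMap h1.measurable)]
    rw [← show (P.prod (Measure.pi fun _ : Fin n => μs.prod μs)).map
      (fun p i => if |(p.1 i, p.2 i).1| ≤ A then (p.1 i, p.2 i).2.1 - (p.1 i, p.2 i).2.2 else (0 : ℝ)) =
        Measure.pi fun _ : Fin n => nu μ A from h]
    rfl
  have hE : MeasurableSet {p : (Fin n → ℝ) × (Fin n → ℝ) |
      f (fun i => if |p.1 i| ≤ A then p.2 i else p.1 i) < t} :=
    measurableSet_lt (hf.comp hΨ) measurable_const
  have h1 : P.real {x | f x < t} = (P.prod R).real {p : (Fin n → ℝ) × (Fin n → ℝ) |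
      f (fun i => if |p.1 i| ≤ A then p.2 i else p.1 i) < t} := by
    conv_lhs => rw [← hlaw1]
    rw [measureReal_def, measureReal_def, Measure.map_apply hΨ (measurableSet_lt hf measurable_const)]
    rfl
  have h2 : (Measure.pi fun _ : Fin n => nu μ A).real {x | f x < 2 * t} =
      (P.prod (R.prod R)).real {p : (Fin n → ℝ) × (Fin n → ℝ) × (Fin n → ℝ) |
        f (fun i => if |p.1 i| ≤ A then p.2.1 i - p.2.2 i else (0 : ℝ)) < 2 * t} := by
    rw [← hlaw2, measureReal_def, measureReal_def,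
      Measure.map_apply hΔ (measurableSet_lt hf measurable_const)]
    rfl
  rw [h1, h2]
  refine le_trans (jensen P R _ hE) (measureReal_mono ?_ (measure_ne_top _ _))
  rintro ⟨x, y, z⟩ ⟨h3, h4⟩
  simp only [Set.mem_ofPred_eq] at h3 h4 ⊢
  have h5 := hsub (fun i => if |x i| ≤ A then y i else x i) (fun i => if |x i| ≤ A then z i else x i)
  have h6 : (fun i => (if |x i| ≤ A then y i else x i) - (if |x i| ≤ A then z i else x i)) =
      (fun i => if |x i| ≤ A then y i - z i else (0 : ℝ)) := by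
    funext i
    by_cases h : |x i| ≤ A
    · simp [h]
    · simp [h]
  simp only [h6] at h5
  linarith

end H13.LL
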