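import Pool.Agent.H13.LL.Defs

/-! # LL.Sub : the norms form a submartingale, and the maximal inequality, about 200 lines

`sub_nrm`: `submartingale_nat`. Adapted: `nrm (n+1)` depends on `ξ 0, …, ξ n` only (measurability of `ω ↦ nrm (n+1) (fun i => if i ≤ n then w i * ξ i ω else 0)` for the natural filtration, `nrm_congr`). Integrable: `≤ ∑ |w i ξ i|`.
Let `f n ω = nrm (n+1) (w ξ)`. For `|z| = |u| = 1` let `c i = (u z^(i+1)).re`; then `∑_{i ≤ n+1} c i w i ξ i ≤ f (n+1)` (`re_le_nrm`), and the conditional expectation given `ξ 0 … ξ n` of the left side is `∑_{i ≤ n} c i w i ξ i`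
(`condExp_of_stronglyMeasurable` for the first part; `iIndepFun.condExp_natural_ae_eq_of_lt` and mean `0` for `ξ (n+1)`), so a.e. `∑_{i ≤ n} c i w i ξ i ≤ E[f (n+1) | F n]` (`condExp_mono`). Take a countable dense set of pairs
`(z, u)` in `sphere 0 1 × sphere 0 1` (`TopologicalSpace.exists_countable_dense` or `denseSeq`), so a.e. for all of them at once, and by continuity for all `(z, u)`; then `nrm_le_of_re`.
`max_ineq`: the submartingale `(f - a)⁺` (`Submartingale.sup` with the constant martingale `0`, or `Submartingale.pos`; subtract a constant) and `maximal_ineq`. For `n = 0` nothing is claimed. -/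

set_option autoImplicit false

namespace H13.LL

open MeasureTheory ProbabilityTheory Filter Topology

variable {Ω : Type*} [MeasurableSpace Ω] {P : Measure Ω} [IsProbabilityMeasure P] {ξ : ℕ → Ω → ℝ}

private theorem nat_meas (hm : ∀ k, Measurable (ξ k)) {i n : ℕ} (h : i ≤ n) :
    Measurable[Filtration.natural ξ (fun k => (hm k).stronglyMeasurable) n] (ξ i) :=
  ((Filtration.stronglyAdapted_natural (fun k => (hm k).stronglyMeasurable)).stronglyMeasurable_le
    h).measurable

omit [IsProbabilityMeasure P] in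
private theorem int_nrm (hm : ∀ k, Measurable (ξ k)) (h1 : ∀ k, Integrable (ξ k) P) (w : ℕ → ℝ) (n : ℕ) :
    Integrable (fun ω => nrm n (fun i => w i * ξ i ω)) P := by
  have h2 : Integrable (fun ω => ∑ i ∈ Finset.range n, |w i * ξ i ω|) P :=
    integrable_finsetSum _ fun i _ => ((h1 i).const_mul (w i)).abs
  refine h2.mono' (measurable_wnrm_comp hm n w).aestronglyMeasurable (ae_of_all _ fun ω => ?_)
  rw [Real.norm_of_nonneg (nrm_nonneg _ _)]
  exact nrm_le_sum n _

private theorem ae_lin (hm : ∀ k, Measurable (ξ k)) (hi : iIndepFun ξ P) (h1 : ∀ k, Integrable (ξ k) P)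
    (h0 : ∀ k, ∫ ω, ξ k ω ∂P = 0) (w : ℕ → ℝ) (n : ℕ) {z u : ℂ} (hz : ‖z‖ = 1) (hu : ‖u‖ = 1) :
    ∀ᵐ ω ∂P, ∑ i ∈ Finset.range (n + 1), (w i * ξ i ω) * (u * z ^ (i + 1)).re ≤
      (P[fun ω => nrm (n + 1 + 1) (fun i => w i * ξ i ω) |
        Filtration.natural ξ (fun k => (hm k).stronglyMeasurable) n]) ω := by
  set F := Filtration.natural ξ (fun k => (hm k).stronglyMeasurable) with hF
  set c : ℕ → ℝ := fun i => w i * (u * z ^ (i + 1)).re with hc
  set S : Ω → ℝ := fun ω => ∑ i ∈ Finset.range (n + 1), (w i * ξ i ω) * (u * z ^ (i + 1)).re with hS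
  have hSm : StronglyMeasurable[F n] S := by
    refine Measurable.stronglyMeasurable ?_
    refine Finset.measurable_fun_sum _ fun i hi' => ?_
    exact ((nat_meas hm (Nat.lt_succ_iff.1 (Finset.mem_range.1 hi'))).const_mul _).mul_const _
  have hSi : Integrable S P :=
    integrable_finsetSum _ fun i _ => ((h1 i).const_mul (w i)).mul_const _
  have hTi : Integrable (c (n + 1) • ξ (n + 1)) P := (h1 (n + 1)).smul _
  have e1 : P[S | F n] = S := condExp_of_stronglyMeasurable (F.le n) hSm hSi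
  have e2 : P[c (n + 1) • ξ (n + 1) | F n] =ᵐ[P] c (n + 1) • P[ξ (n + 1) | F n] := condExp_smul _ _ _
  have e3 : P[ξ (n + 1) | F n] =ᵐ[P] fun _ => P[ξ (n + 1)] :=
    hi.condExp_natural_ae_eq_of_lt (fun k => (hm k).stronglyMeasurable) (Nat.lt_succ_self n)
  have e4 : P[S + c (n + 1) • ξ (n + 1) | F n] =ᵐ[P] P[S | F n] + P[c (n + 1) • ξ (n + 1) | F n] :=
    condExp_add hSi hTi _
  have e5 : P[S + c (n + 1) • ξ (n + 1) | F n] ≤ᵐ[P]
      P[fun ω => nrm (n + 1 + 1) (fun i => w i * ξ i ω) | F n] := by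
    refine condExp_mono (hSi.add hTi) (int_nrm hm h1 w _) (ae_of_all _ fun ω => ?_)
    have h := re_le_nrm (n + 1 + 1) (fun i => w i * ξ i ω) hz hu
    rw [Finset.sum_range_succ] at h
    simp only [Pi.add_apply, Pi.smul_apply, smul_eq_mul, hS, hc]
    refine le_trans (le_of_eq ?_) h
    ring
  filter_upwards [e2, e3, e4, e5] with ω g2 g3 g4 g5
  rw [g4, Pi.add_apply, g2, Pi.smul_apply, g3, e1, h0, smul_zero, add_zero] at g5
  exact g5

theorem sub_nrm (hm : ∀ k, Measurable (ξ k)) (hi : iIndepFun ξ P) (h1 : ∀ k, Integrable (ξ k) P)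
    (h0 : ∀ k, ∫ ω, ξ k ω ∂P = 0) (w : ℕ → ℝ) :
    Submartingale (fun n ω => nrm (n + 1) (fun i => w i * ξ i ω))
      (Filtration.natural ξ (fun k => (hm k).stronglyMeasurable)) P := by
  refine submartingale_nat ?_ (fun n => int_nrm hm h1 w (n + 1)) ?_
  · intro n
    have e : (fun ω => nrm (n + 1) (fun i => w i * ξ i ω)) =
        fun ω => nrm (n + 1) (fun i => if i ≤ n then w i * ξ i ω else 0) := by
      funext ω
      exact nrm_congr fun i hi' => by rw [if_pos (Nat.lt_succ_iff.1 hi')]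
    simp only [e]
    refine Measurable.stronglyMeasurable ?_
    have hk : Measurable[Filtration.natural ξ (fun k => (hm k).stronglyMeasurable) n]
        fun ω => (fun i => if i ≤ n then w i * ξ i ω else 0 : ℕ → ℝ) := by
      refine @measurable_pi_lambda _ _ _ (Filtration.natural ξ (fun k => (hm k).stronglyMeasurable) n)
        _ _ fun i => ?_
      by_cases h : i ≤ n
      · simp only [if_pos h]
        exact (nat_meas hm h).const_mul _
      · simp only [if_neg h]
        exact measurable_const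
    exact @Measurable.comp Ω (ℕ → ℝ) ℝ (Filtration.natural ξ (fun k => (hm k).stronglyMeasurable) n)
      inferInstance inferInstance (nrm (n + 1)) (fun ω i => if i ≤ n then w i * ξ i ω else 0)
      (measurable_nrm (n + 1)) hk
  · intro n
    obtain ⟨D, hDc, hDd⟩ := TopologicalSpace.exists_countable_dense
      (Metric.sphere (0 : ℂ) 1 × Metric.sphere (0 : ℂ) 1)
    have h : ∀ᵐ ω ∂P, ∀ q ∈ D, ∑ i ∈ Finset.range (n + 1), (w i * ξ i ω) *
        ((q.2 : ℂ) * (q.1 : ℂ) ^ (i + 1)).re ≤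
        (P[fun ω => nrm (n + 1 + 1) (fun i => w i * ξ i ω) |
          Filtration.natural ξ (fun k => (hm k).stronglyMeasurable) n]) ω := by
      rw [ae_ball_iff hDc]
      intro q _
      exact ae_lin hm hi h1 h0 w n (by simp) (by simp)
    filter_upwards [h] with ω hω
    refine nrm_le_of_re fun z u hz hu => ?_
    set G : Metric.sphere (0 : ℂ) 1 × Metric.sphere (0 : ℂ) 1 → ℝ := fun q =>
      ∑ i ∈ Finset.range (n + 1), (w i * ξ i ω) * ((q.2 : ℂ) * (q.1 : ℂ) ^ (i + 1)).re with hG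
    have hGc : Continuous G := by
      rw [hG]
      refine continuous_finsetSum _ fun i _ => ?_
      refine continuous_const.mul ?_
      refine Complex.continuous_re.comp ?_
      fun_prop
    have hcl : IsClosed {q | G q ≤ (P[fun ω => nrm (n + 1 + 1) (fun i => w i * ξ i ω) |
        Filtration.natural ξ (fun k => (hm k).stronglyMeasurable) n]) ω} :=
      isClosed_le hGc continuous_const
    have hall := hcl.closure_subset_iff.2 (fun q hq => hω q hq : D ⊆ _)
    rw [hDd.closure_eq] at hall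
    exact hall (Set.mem_univ ((⟨z, by simpa using hz⟩, ⟨u, by simpa using hu⟩) :
      Metric.sphere (0 : ℂ) 1 × Metric.sphere (0 : ℂ) 1))

theorem max_ineq (hm : ∀ k, Measurable (ξ k)) (hi : iIndepFun ξ P) (h1 : ∀ k, Integrable (ξ k) P)
    (h0 : ∀ k, ∫ ω, ξ k ω ∂P = 0) (w : ℕ → ℝ) (a : ℝ) {b : ℝ} (hb : 0 < b) {N : ℕ} (hN : 1 ≤ N) :
    P.real {ω | ∃ n, 1 ≤ n ∧ n ≤ N ∧ a + b ≤ nrm n (fun i => w i * ξ i ω)} ≤
      (∫ ω, max (nrm N (fun i => w i * ξ i ω) - a) 0 ∂P) / b := by
  obtain ⟨M, rfl⟩ : ∃ M, N = M + 1 := ⟨N - 1, by omega⟩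
  have hsub := sub_nrm (P := P) hm hi h1 h0 w
  have hs2 := (hsub.sub_martingale (martingale_const _ P a)).pos
  set g : ℕ → Ω → ℝ := fun n ω => max (nrm (n + 1) (fun i => w i * ξ i ω) - a) 0 with hg
  have hs3 : Submartingale g (Filtration.natural ξ (fun k => (hm k).stronglyMeasurable)) P := by
    have e : ((fun n ω => nrm (n + 1) (fun i => w i * ξ i ω)) - fun (_ : ℕ) (_ : Ω) => a)⁺ = g := by
      funext n ω
      rfl
    rw [← e]
    exact hs2
  have hg0 : 0 ≤ g := fun n ω => le_max_right _ _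
  have hgi : Integrable (g M) P := hs3.integrable M
  have hmx := maximal_ineq (ε := ⟨b, hb.le⟩) hs3 hg0 M
  set A : Set Ω := {ω | ((⟨b, hb.le⟩ : NNReal) : ℝ) ≤
    (Finset.range (M + 1)).sup' Finset.nonempty_range_add_one fun k => g k ω} with hA
  have hsubset : {ω | ∃ n, 1 ≤ n ∧ n ≤ M + 1 ∧ a + b ≤ nrm n (fun i => w i * ξ i ω)} ⊆ A := by
    rintro ω ⟨n, hn1, hn2, hn3⟩
    rw [hA, Set.mem_ofPred_eq, Finset.le_sup'_iff]
    refine ⟨n - 1, Finset.mem_range.2 (by omega), ?_⟩
    have e : n - 1 + 1 = n := by omega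
    simp only [hg, e]
    exact le_max_of_le_left (by linarith)
  have hfin : P A ≠ ⊤ := measure_ne_top _ _
  have h2 : b * P.real A ≤ ∫ ω, g M ω ∂P := by
    have h3 : ENNReal.ofReal (∫ ω in A, g M ω ∂P) ≤ ENNReal.ofReal (∫ ω, g M ω ∂P) :=
      ENNReal.ofReal_le_ofReal (setIntegral_le_integral hgi (ae_of_all _ fun ω => hg0 M ω))
    have h4 : ENNReal.ofNNReal ⟨b, hb.le⟩ * P A ≤ ENNReal.ofReal (∫ ω, g M ω ∂P) := hmx.trans h3
    rw [ENNReal.le_ofReal_iff_toReal_le (ENNReal.mul_ne_top ENNReal.coe_ne_top hfin)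
      (integral_nonneg fun ω => hg0 M ω), ENNReal.toReal_mul] at h4
    exact h4
  rw [le_div_iff₀ hb]
  calc P.real {ω | ∃ n, 1 ≤ n ∧ n ≤ M + 1 ∧ a + b ≤ nrm n (fun i => w i * ξ i ω)} * b
      ≤ P.real A * b := mul_le_mul_of_nonneg_right (measureReal_mono hsubset) hb.le
    _ = b * P.real A := mul_comm _ _
    _ ≤ _ := h2

end H13.LL
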