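import Pool.Agent.H13.LL.Defs

/-! # LL.Tail : the sum over the large part (real numbers only), about 50 lines

Let `S n = ∑_{i<n} (if τ √(i+1) < |x| then wt i else 0)`. Claim: `S n ≤ 2 min (√n) (|x| / τ)`, by induction: if `τ √(n+1) < |x|`, then `S (n+1) = S n + 1/√(n+1) ≤ 2 √n + 1/√(n+1) ≤ 2 √(n+1)`
(`√(n+1) - √n = 1/(√(n+1) + √n) ≥ 1/(2√(n+1))`) and `2 √(n+1) ≤ 2 |x| / τ`; else `S (n+1) = S n` and `√n ≤ √(n+1)`. Multiply by `|x|`. -/

set_option autoImplicit false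

namespace H13.LL

private theorem sqrt_step (n : ℕ) : 2 * √(n : ℝ) + 1 / √((n : ℝ) + 1) ≤ 2 * √((n : ℝ) + 1) := by
  have hn : (0 : ℝ) ≤ n := Nat.cast_nonneg n
  have h1 : 0 < √((n : ℝ) + 1) := Real.sqrt_pos.2 (by linarith)
  have h2 : √((n : ℝ) + 1) ^ 2 = n + 1 := Real.sq_sqrt (by linarith)
  have h3 : √(n : ℝ) ^ 2 = n := Real.sq_sqrt hn
  have h4 : 0 ≤ √(n : ℝ) := Real.sqrt_nonneg _
  have h5 : 1 / √((n : ℝ) + 1) * √((n : ℝ) + 1) = 1 := by
    field_simp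
  have h6 : (2 * √(n : ℝ) + 1 / √((n : ℝ) + 1)) * √((n : ℝ) + 1) ≤ 2 * √((n : ℝ) + 1) * √((n : ℝ) + 1) := by
    nlinarith [sq_nonneg (√((n : ℝ) + 1) - √(n : ℝ))]
  exact le_of_mul_le_mul_right h6 h1

theorem tail_sum (n : ℕ) (x τ : ℝ) (hτ : 0 < τ) :
    ∑ i ∈ Finset.range n, (if τ * √((i : ℝ) + 1) < |x| then wt i * |x| else 0) ≤ 2 * x ^ 2 / τ := by
  have key : ∀ n : ℕ, ∑ i ∈ Finset.range n, (if τ * √((i : ℝ) + 1) < |x| then wt i * |x| else 0) ≤ 2 * |x| * √(n : ℝ) ∧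
      ∑ i ∈ Finset.range n, (if τ * √((i : ℝ) + 1) < |x| then wt i * |x| else 0) ≤ 2 * x ^ 2 / τ := by
    intro n
    have hx := abs_nonneg x
    induction n with
    | zero =>
      rw [Finset.sum_range_zero]
      exact ⟨by positivity, by positivity⟩
    | succ n ih =>
      rw [Finset.sum_range_succ]
      push_cast
      by_cases h : τ * √((n : ℝ) + 1) < |x|
      · rw [if_pos h]
        have h1 : 2 * |x| * √(n : ℝ) + wt n * |x| ≤ 2 * |x| * √((n : ℝ) + 1) := by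
          have h2 := mul_le_mul_of_nonneg_right (sqrt_step n) hx
          unfold wt
          linarith
        have h3 : 2 * |x| * √((n : ℝ) + 1) ≤ 2 * x ^ 2 / τ := by
          rw [le_div_iff₀ hτ, ← sq_abs x]
          nlinarith
        exact ⟨by linarith [ih.1], by linarith [ih.1]⟩
      · rw [if_neg h, add_zero]
        refine ⟨ih.1.trans ?_, ih.2⟩
        exact mul_le_mul_of_nonneg_left (Real.sqrt_le_sqrt (by linarith)) (by positivity)
  exact (key n).2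

end H13.LL
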