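import Pool.Agent.H13.LL.Mean
import Pool.Agent.H13.LL.Sub
import Pool.Agent.H13.LL.Geo

/-! # LL.UpA : the almost sure upper bound, about 150 lines

Let `σ = sd P ξ`, `q > 1` with `(σ + ε/2) q < σ + 3ε/4`. For `N = nj q (j+1)` let `a = (σ + ε/4) log N`, `b = (ε/4) log N`: by `max_ineq` (`w = wt`) the event `E j = {∃ n, 1 ≤ n ≤ N, (σ + ε/2) log N ≤ Mx n}` has probability
`≤ E (Mx N - a)⁺ / b`, and for large `j` `E Mx N ≤ a` (`mean_tendsto`), so `E (Mx N - a)⁺ ≤ E |Mx N - E Mx N| ≤ √Var ≤ √(v (1 + log N)) ≤ √(2 v log N)` (Jensen / Cauchy-Schwarz; `var_Mx`). So `P (E j) ≤ C (log N)^(-1/2)` for large `j`: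
summable (`summ`), Borel-Cantelli (`ae_eventually_notMem`). For large `n`, `nj_cover` gives `j` with `nj q j ≤ n ≤ nj q (j+1)` and `ω ∉ E j`: `Mx n < (σ + ε/2) log (nj q (j+1)) ≤ (σ + ε/2) q^(j+1) ≤ (σ + ε/2) q (log n + 1) ≤ (σ + ε) log n`. -/

set_option autoImplicit false

namespace H13.LL

open MeasureTheory ProbabilityTheory Filter Topology

variable {Ω : Type*} [MeasurableSpace Ω] {P : Measure Ω} [IsProbabilityMeasure P] {ξ : ℕ → Ω → ℝ}

private theorem int_abs_le {Y : Ω → ℝ} (hY : MemLp Y 2 P) :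
    ∫ ω, |Y ω| ∂P ≤ √(∫ ω, Y ω ^ 2 ∂P) := by
  have h1 : MemLp (fun ω => |Y ω|) 2 P := hY.abs
  have h2 := variance_nonneg (fun ω => |Y ω|) P
  rw [variance_eq_sub h1] at h2
  have h3 : (∫ ω, ((fun ω => |Y ω|) ^ 2) ω ∂P) = ∫ ω, Y ω ^ 2 ∂P := by
    refine integral_congr_ae (Eventually.of_forall fun ω => ?_)
    simp
  rw [h3] at h2
  apply Real.le_sqrt_of_sq_le
  linarith

private theorem int_pos_le {X : Ω → ℝ} (hX : MemLp X 2 P) {a : ℝ} (ha : ∫ ω, X ω ∂P ≤ a) :
    ∫ ω, max (X ω - a) 0 ∂P ≤ √(variance X P) := by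
  set m := ∫ ω, X ω ∂P with hm
  have h1 : MemLp (fun ω => X ω - m) 2 P := hX.sub (memLp_const m)
  have h2 : Integrable (fun ω => |X ω - m|) P := (h1.abs.integrable (by norm_num))
  have h3 : ∫ ω, max (X ω - a) 0 ∂P ≤ ∫ ω, |X ω - m| ∂P := by
    refine integral_mono_of_nonneg (Eventually.of_forall fun ω => le_max_right _ _) h2
      (Eventually.of_forall fun ω => ?_)
    refine max_le ?_ (abs_nonneg _)
    exact (by linarith : X ω - a ≤ X ω - m).trans (le_abs_self _)
  have h4 := int_abs_le h1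
  rw [variance_eq_integral hX.aestronglyMeasurable.aemeasurable]
  exact h3.trans h4

theorem up_as (h : Sq P ξ) {ε : ℝ} (hε : 0 < ε) :
    ∀ᵐ ω ∂P, ∀ᶠ n : ℕ in atTop, Mx n (fun i => ξ i ω) ≤ (sd P ξ + ε) * Real.log n := by
  set σ := sd P ξ with hσ
  have hσ0 : 0 ≤ σ := Real.sqrt_nonneg _
  set v := ∫ ω, ξ 0 ω ^ 2 ∂P with hv
  have hv0 : 0 ≤ v := integral_nonneg fun ω => sq_nonneg _
  obtain ⟨q, hq, hq2⟩ : ∃ q : ℝ, 1 < q ∧ (σ + ε / 2) * q = σ + 3 * ε / 4 := by
    refine ⟨(σ + 3 * ε / 4) / (σ + ε / 2), ?_, ?_⟩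
    · rw [one_lt_div (by positivity)]
      linarith
    · field_simp
  have hint : ∀ k, Integrable (ξ k) P := fun k =>
    (h.idd k).integrable_iff.2 (h.mem.integrable (by norm_num))
  have hmean : ∀ k, ∫ ω, ξ k ω ∂P = 0 := fun k => ((h.idd k).integral_eq).trans h.mean
  -- the events
  set E : ℕ → Set Ω := fun j => {ω | ∃ n, 1 ≤ n ∧ n ≤ nj q (j + 1) ∧
    (σ + ε / 4) * Real.log (nj q (j + 1)) + ε / 4 * Real.log (nj q (j + 1)) ≤
      nrm n (fun i => wt i * ξ i ω)} with hE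
  have hT1 : Tendsto (fun j => nj q (j + 1)) atTop atTop :=
    (tendsto_nj hq).comp (tendsto_add_atTop_nat 1)
  have hlog : Tendsto (fun n : ℕ => Real.log (n : ℝ)) atTop atTop :=
    Real.tendsto_log_atTop.comp tendsto_natCast_atTop_atTop
  have ev1 : ∀ᶠ n : ℕ in atTop, ∫ ω, Mx n (fun i => ξ i ω) ∂P ≤ (σ + ε / 4) * Real.log n := by
    have e1 := (mean_tendsto h).eventually_lt_const (show sd P ξ < σ + ε / 4 by linarith)
    filter_upwards [e1, hlog.eventually_gt_atTop 0] with n h1 h2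
    exact ((div_lt_iff₀ h2).1 h1).le
  have ev2 : ∀ᶠ n : ℕ in atTop, (1 : ℝ) ≤ Real.log n := hlog.eventually_ge_atTop 1
  have hbound : ∀ᶠ j : ℕ in atTop,
      ‖P.real (E j)‖ ≤ (4 * √(2 * v) / ε) * (Real.log (nj q (j + 1))) ^ (-(1 / 2) : ℝ) := by
    filter_upwards [hT1.eventually ev1, hT1.eventually ev2] with j h1 h2
    set N := nj q (j + 1) with hN
    have hN1 : 1 ≤ N := le_trans (by norm_num) (two_le_nj hq (j + 1))
    have hL : 0 < Real.log N := by linarith
    rw [Real.norm_of_nonneg measureReal_nonneg]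
    have h3 := max_ineq h.meas h.ind hint hmean wt ((σ + ε / 4) * Real.log N)
      (b := ε / 4 * Real.log N) (by positivity) hN1
    have h4 : ∫ ω, max (nrm N (fun i => wt i * ξ i ω) - (σ + ε / 4) * Real.log N) 0 ∂P ≤
        √(variance (fun ω => Mx N (fun i => ξ i ω)) P) := int_pos_le (memLp_Mx h N) h1
    have h5 : √(variance (fun ω => Mx N (fun i => ξ i ω)) P) ≤ √(2 * v) * √(Real.log N) := by
      rw [← Real.sqrt_mul (by positivity)]
      apply Real.sqrt_le_sqrt
      refine (var_Mx h hN1).trans ?_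
      have : v * (1 + Real.log N) ≤ v * (2 * Real.log N) := by
        apply mul_le_mul_of_nonneg_left _ hv0
        linarith
      linarith
    refine h3.trans ?_
    rw [div_le_iff₀ (by positivity)]
    refine (h4.trans h5).trans (le_of_eq ?_)
    have h6 : (Real.log N) ^ (-(1 / 2) : ℝ) * Real.log N = √(Real.log N) := by
      rw [Real.sqrt_eq_rpow]
      nth_rewrite 2 [← Real.rpow_one (Real.log N)]
      rw [← Real.rpow_add hL]
      norm_num
    calc √(2 * v) * √(Real.log N)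
        = √(2 * v) * ((Real.log N) ^ (-(1 / 2) : ℝ) * Real.log N) := by rw [h6]
      _ = 4 * √(2 * v) / ε * (Real.log N) ^ (-(1 / 2) : ℝ) * (ε / 4 * Real.log N) := by
          field_simp
  have hsum : Summable fun j => P.real (E j) := by
    have h1 := summ hq (4 * √(2 * v) / ε) (p := 1 / 2) (by norm_num)
    have h2 := (summable_nat_add_iff 1).2 h1
    exact Summable.of_norm_bounded_eventually_nat h2 hbound
  have hne : ∑' j, P (E j) ≠ ⊤ := by
    have h1 := hsum.tsum_ofReal_ne_top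
    have h2 : ∀ j, ENNReal.ofReal (P.real (E j)) = P (E j) := fun j => by
      rw [Measure.real, ENNReal.ofReal_toReal (measure_ne_top _ _)]
    simp_rw [h2] at h1
    exact h1
  filter_upwards [ae_eventually_notMem hne] with ω hω
  have ev3 := nj_cover hq hω
  have ev4 : ∀ᶠ n : ℕ in atTop, σ + 3 * ε / 4 ≤ ε / 4 * Real.log n := by
    filter_upwards [hlog.eventually_ge_atTop ((σ + 3 * ε / 4) / (ε / 4))] with n hn
    rw [div_le_iff₀ (by positivity)] at hn
    linarith
  filter_upwards [ev3, ev4] with n h1 h2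
  obtain ⟨j, hj, hj1, hj2⟩ := h1
  have hn2 : 2 ≤ n := (two_le_nj hq j).trans hj1
  have h3 : Mx n (fun i => ξ i ω) <
      (σ + ε / 4) * Real.log (nj q (j + 1)) + ε / 4 * Real.log (nj q (j + 1)) := by
    by_contra hc
    push Not at hc
    exact hj ⟨n, by omega, hj2, hc⟩
  have h4 := log_nj_le hq (j + 1)
  have h5 := le_log_nj hq j
  have h6 : Real.log (nj q j) ≤ Real.log n := by
    apply Real.log_le_log
    · have := two_le_nj hq j
      have : (2 : ℝ) ≤ (nj q j : ℕ) := by exact_mod_cast this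
      linarith
    · exact_mod_cast hj1
  have h7 : q ^ (j + 1) = q * q ^ j := pow_succ' q j
  have h8 : Real.log (nj q (j + 1)) ≤ q * (Real.log n + 1) := by
    rw [h7] at h4
    refine h4.trans (mul_le_mul_of_nonneg_left (by linarith) (by linarith))
  calc Mx n (fun i => ξ i ω)
      ≤ (σ + ε / 2) * Real.log (nj q (j + 1)) := by nlinarith [h3]
    _ ≤ (σ + ε / 2) * (q * (Real.log n + 1)) :=
        mul_le_mul_of_nonneg_left h8 (by positivity)
    _ = (σ + 3 * ε / 4) * (Real.log n + 1) := by rw [← mul_assoc, hq2]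
    _ ≤ (σ + ε) * Real.log n := by nlinarith [h2]

end H13.LL
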